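import Pool.Agent.Helper20.GracefulCore

/-!
# `P(4N, 4m+3)` is graceful for `4m + 3 ≤ N`, `1 ≤ m`
-/

namespace Pool.Agent.Helper20.Graceful

open Pool.Agent.Helper20.Graceful

/-- labels of the vertices `u_i`, `i < 4 N` -/
def uA (N m i : ℕ) : ℕ :=
  if i % 2 = 0 then
    if i < 2 * N then 12 * N - (i / 2)
    else 12 * N - (1 + i / 2)
  else
    i / 2

/-- labels of the vertices `v_i`, `i < 4 N` -/
def vA (N m i : ℕ) : ℕ :=
  if i % 2 = 0 then
    if i + 2 * m + 2 < 2 * N then 4 * N + i / 2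
    else if i < 2 * N then 6 * N + 2 * m + 2 + i / 2
    else if i < 2 * N + 2 * m then 2 * N + i / 2
    else if i + 2 * m + 2 < 4 * N then 4 * N + i / 2
    else 2 * N + i / 2 - (2 * m + 2)
  else
    if i < 2 * m + 1 then 6 * N - (1 + i / 2)
    else if i + 4 * m + 3 < 2 * N then 8 * N - (1 + i / 2)
    else if i + 2 * m + 3 < 2 * N then 6 * N - (2 * m + 3 + i / 2)
    else if i + 2 * m + 3 < 4 * N then 8 * N - (2 + i / 2)
    else if i + 1 < 4 * N then 10 * N - (3 + i / 2)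
    else 6 * N

lemma uA_p0 (N m i : ℕ) (hm : 1 ≤ m) (hN : 4 * m + 3 ≤ N) (hp : i % 2 = 0) (h1 : 0 ≤ i) (h2 : i + 2 ≤ 2 * N) :
    uA N m i + i / 2 = 12 * N := by
  unfold uA; split_ifs <;> omega

lemma uA_p1 (N m i : ℕ) (hm : 1 ≤ m) (hN : 4 * m + 3 ≤ N) (hp : i % 2 = 0) (h1 : 2 * N ≤ i) (h2 : i + 2 ≤ 4 * N) :
    uA N m i + 1 + i / 2 = 12 * N := by
  unfold uA; split_ifs <;> omega

lemma uA_p2 (N m i : ℕ) (hm : 1 ≤ m) (hN : 4 * m + 3 ≤ N) (hp : i % 2 = 1) (h1 : 1 ≤ i) (h2 : i + 1 ≤ 4 * N) :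
    uA N m i = i / 2 := by
  unfold uA; split_ifs <;> omega

lemma vA_p0 (N m i : ℕ) (hm : 1 ≤ m) (hN : 4 * m + 3 ≤ N) (hp : i % 2 = 0) (h1 : 0 ≤ i) (h2 : i + 2 * m + 4 ≤ 2 * N) :
    vA N m i = 4 * N + i / 2 := by
  unfold vA; split_ifs <;> omega

lemma vA_p1 (N m i : ℕ) (hm : 1 ≤ m) (hN : 4 * m + 3 ≤ N) (hp : i % 2 = 0) (h1 : 2 * N ≤ i + 2 * m + 2) (h2 : i + 2 ≤ 2 * N) :
    vA N m i = 6 * N + 2 * m + 2 + i / 2 := by
  unfold vA; split_ifs <;> omega

lemma vA_p2 (N m i : ℕ) (hm : 1 ≤ m) (hN : 4 * m + 3 ≤ N) (hp : i % 2 = 0) (h1 : 2 * N ≤ i) (h2 : i + 2 ≤ 2 * N + 2 * m) :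
    vA N m i = 2 * N + i / 2 := by
  unfold vA; split_ifs <;> omega

lemma vA_p3 (N m i : ℕ) (hm : 1 ≤ m) (hN : 4 * m + 3 ≤ N) (hp : i % 2 = 0) (h1 : 2 * N + 2 * m ≤ i) (h2 : i + 2 * m + 4 ≤ 4 * N) :
    vA N m i = 4 * N + i / 2 := by
  unfold vA; split_ifs <;> omega

lemma vA_p4 (N m i : ℕ) (hm : 1 ≤ m) (hN : 4 * m + 3 ≤ N) (hp : i % 2 = 0) (h1 : 4 * N ≤ i + 2 * m + 2) (h2 : i + 2 ≤ 4 * N) :
    vA N m i + 2 * m + 2 = 2 * N + i / 2 := by
  unfold vA; split_ifs <;> omega

lemma vA_p5 (N m i : ℕ) (hm : 1 ≤ m) (hN : 4 * m + 3 ≤ N) (hp : i % 2 = 1) (h1 : 1 ≤ i) (h2 : i + 1 ≤ 2 * m) :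
    vA N m i + 1 + i / 2 = 6 * N := by
  unfold vA; split_ifs <;> omega

lemma vA_p6 (N m i : ℕ) (hm : 1 ≤ m) (hN : 4 * m + 3 ≤ N) (hp : i % 2 = 1) (h1 : 2 * m + 1 ≤ i) (h2 : i + 4 * m + 5 ≤ 2 * N) :
    vA N m i + 1 + i / 2 = 8 * N := by
  unfold vA; split_ifs <;> omega

lemma vA_p7 (N m i : ℕ) (hm : 1 ≤ m) (hN : 4 * m + 3 ≤ N) (hp : i % 2 = 1) (h1 : 2 * N ≤ i + 4 * m + 3) (h2 : i + 2 * m + 5 ≤ 2 * N) :
    vA N m i + 2 * m + 3 + i / 2 = 6 * N := by
  unfold vA; split_ifs <;> omega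

lemma vA_p8 (N m i : ℕ) (hm : 1 ≤ m) (hN : 4 * m + 3 ≤ N) (hp : i % 2 = 1) (h1 : 2 * N ≤ i + 2 * m + 3) (h2 : i + 2 * m + 5 ≤ 4 * N) :
    vA N m i + 2 + i / 2 = 8 * N := by
  unfold vA; split_ifs <;> omega

lemma vA_p9 (N m i : ℕ) (hm : 1 ≤ m) (hN : 4 * m + 3 ≤ N) (hp : i % 2 = 1) (h1 : 4 * N ≤ i + 2 * m + 3) (h2 : i + 3 ≤ 4 * N) :
    vA N m i + 3 + i / 2 = 10 * N := by
  unfold vA; split_ifs <;> omega

lemma vA_p10 (N m i : ℕ) (hm : 1 ≤ m) (hN : 4 * m + 3 ≤ N) (hp : i % 2 = 1) (h1 : 4 * N ≤ i + 1) (h2 : i + 1 ≤ 4 * N) :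
    vA N m i = 6 * N := by
  unfold vA; split_ifs <;> omega

lemma surjA (N m : ℕ) (hm : 1 ≤ m) (hN : 4 * m + 3 ≤ N) (d : ℕ) (hd1 : 1 ≤ d) (hd2 : d ≤ 3 * (4 * N)) :
    ∃ t : Fin 3, ∃ i < 4 * N, dif (uA N m) (vA N m) (4 * N) (4 * m + 3) t i = d := by
  rcases Nat.mod_two_eq_zero_or_one d with hq | hq
  · by_cases h0_0 : d ≤ 2 * m
    · refine ⟨2, 4 * N - (2 * m + 2 + d), ?_, ?_⟩
      · omega
      · have e1 := vA_p3 N m (4 * N - (2 * m + 2 + d)) hm hN (by omega) (by omega) (by omega)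
        have hs : shiftIdx (4 * N) (4 * m + 3) (4 * N - (2 * m + 2 + d)) = (4 * N - (2 * m + 2 + d)) + (4 * m + 3) - 4 * N := by
          unfold shiftIdx; split_ifs <;> omega
        have e2 := vA_p5 N m ((4 * N - (2 * m + 2 + d)) + (4 * m + 3) - 4 * N) hm hN (by omega) (by omega) (by omega)
        simp only [dif]; rw [hs]; omega
    by_cases h0_1 : d ≤ 2 * m + 2
    · refine ⟨2, 4 * N - (4 * m + 4), ?_, ?_⟩
      · omega
      · have e1 := vA_p3 N m (4 * N - (4 * m + 4)) hm hN (by omega) (by omega) (by omega)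
        have hs : shiftIdx (4 * N) (4 * m + 3) (4 * N - (4 * m + 4)) = (4 * N - (4 * m + 4)) + (4 * m + 3) := by
          unfold shiftIdx; split_ifs <;> omega
        have e2 := vA_p10 N m ((4 * N - (4 * m + 4)) + (4 * m + 3)) hm hN (by omega) (by omega) (by omega)
        simp only [dif]; rw [hs]; omega
    by_cases h0_2 : d ≤ 4 * m + 2
    · refine ⟨2, 2 * N - (4 * m + 4 + d), ?_, ?_⟩
      · omega
      · have e1 := vA_p0 N m (2 * N - (4 * m + 4 + d)) hm hN (by omega) (by omega) (by omega)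
        have hs : shiftIdx (4 * N) (4 * m + 3) (2 * N - (4 * m + 4 + d)) = (2 * N - (4 * m + 4 + d)) + (4 * m + 3) := by
          unfold shiftIdx; split_ifs <;> omega
        have e2 := vA_p7 N m ((2 * N - (4 * m + 4 + d)) + (4 * m + 3)) hm hN (by omega) (by omega) (by omega)
        simp only [dif]; rw [hs]; omega
    by_cases h0_3 : d ≤ 2 * N
    · refine ⟨2, 4 * N - (2 * m + 3 + d), ?_, ?_⟩
      · omega
      · have e1 := vA_p8 N m (4 * N - (2 * m + 3 + d)) hm hN (by omega) (by omega) (by omega)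
        have hs : shiftIdx (4 * N) (4 * m + 3) (4 * N - (2 * m + 3 + d)) = (4 * N - (2 * m + 3 + d)) + (4 * m + 3) := by
          unfold shiftIdx; split_ifs <;> omega
        have e2 := vA_p3 N m ((4 * N - (2 * m + 3 + d)) + (4 * m + 3)) hm hN (by omega) (by omega) (by omega)
        simp only [dif]; rw [hs]; omega
    by_cases h0_4 : d ≤ 2 * N + 2 * m
    · refine ⟨2, 6 * N - (2 * m + 3 + d), ?_, ?_⟩
      · omega
      · have e1 := vA_p8 N m (6 * N - (2 * m + 3 + d)) hm hN (by omega) (by omega) (by omega)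
        have hs : shiftIdx (4 * N) (4 * m + 3) (6 * N - (2 * m + 3 + d)) = (6 * N - (2 * m + 3 + d)) + (4 * m + 3) - 4 * N := by
          unfold shiftIdx; split_ifs <;> omega
        have e2 := vA_p0 N m ((6 * N - (2 * m + 3 + d)) + (4 * m + 3) - 4 * N) hm hN (by omega) (by omega) (by omega)
        simp only [dif]; rw [hs]; omega
    by_cases h0_5 : d ≤ 2 * N + 4 * m + 2
    · refine ⟨2, 6 * N - (2 * m + 4 + d), ?_, ?_⟩
      · omega
      · have e1 := vA_p3 N m (6 * N - (2 * m + 4 + d)) hm hN (by omega) (by omega) (by omega)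
        have hs : shiftIdx (4 * N) (4 * m + 3) (6 * N - (2 * m + 4 + d)) = (6 * N - (2 * m + 4 + d)) + (4 * m + 3) := by
          unfold shiftIdx; split_ifs <;> omega
        have e2 := vA_p9 N m ((6 * N - (2 * m + 4 + d)) + (4 * m + 3)) hm hN (by omega) (by omega) (by omega)
        simp only [dif]; rw [hs]; omega
    by_cases h0_6 : d ≤ 2 * N + 6 * m + 4
    · refine ⟨2, 6 * N - (1 + d), ?_, ?_⟩
      · omega
      · have e1 := vA_p8 N m (6 * N - (1 + d)) hm hN (by omega) (by omega) (by omega)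
        have hs : shiftIdx (4 * N) (4 * m + 3) (6 * N - (1 + d)) = (6 * N - (1 + d)) + (4 * m + 3) := by
          unfold shiftIdx; split_ifs <;> omega
        have e2 := vA_p4 N m ((6 * N - (1 + d)) + (4 * m + 3)) hm hN (by omega) (by omega) (by omega)
        simp only [dif]; rw [hs]; omega
    by_cases h0_7 : d + 2 * m + 2 ≤ 4 * N
    · refine ⟨2, 4 * N - (2 * m + 2 + d), ?_, ?_⟩
      · omega
      · have e1 := vA_p0 N m (4 * N - (2 * m + 2 + d)) hm hN (by omega) (by omega) (by omega)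
        have hs : shiftIdx (4 * N) (4 * m + 3) (4 * N - (2 * m + 2 + d)) = (4 * N - (2 * m + 2 + d)) + (4 * m + 3) := by
          unfold shiftIdx; split_ifs <;> omega
        have e2 := vA_p6 N m ((4 * N - (2 * m + 2 + d)) + (4 * m + 3)) hm hN (by omega) (by omega) (by omega)
        simp only [dif]; rw [hs]; omega
    by_cases h0_8 : d ≤ 4 * N
    · refine ⟨1, 6 * N - (2 * m + 2 + d), ?_, ?_⟩
      · omega
      · have e1 := uA_p0 N m (6 * N - (2 * m + 2 + d)) hm hN (by omega) (by omega) (by omega)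
        have e2 := vA_p1 N m (6 * N - (2 * m + 2 + d)) hm hN (by omega) (by omega) (by omega)
        simp only [dif]; omega
    by_cases h0_9 : d ≤ 4 * N + 2 * m + 2
    · refine ⟨2, 8 * N - (d), ?_, ?_⟩
      · omega
      · have e1 := vA_p4 N m (8 * N - (d)) hm hN (by omega) (by omega) (by omega)
        have hs : shiftIdx (4 * N) (4 * m + 3) (8 * N - (d)) = (8 * N - (d)) + (4 * m + 3) - 4 * N := by
          unfold shiftIdx; split_ifs <;> omega
        have e2 := vA_p6 N m ((8 * N - (d)) + (4 * m + 3) - 4 * N) hm hN (by omega) (by omega) (by omega)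
        simp only [dif]; rw [hs]; omega
    by_cases h0_10 : d ≤ 6 * N + 2 * m + 2
    · refine ⟨1, 8 * N - (1 + d), ?_, ?_⟩
      · omega
      · have e1 := uA_p2 N m (8 * N - (1 + d)) hm hN (by omega) (by omega) (by omega)
        have e2 := vA_p8 N m (8 * N - (1 + d)) hm hN (by omega) (by omega) (by omega)
        simp only [dif]; omega
    by_cases h0_11 : d ≤ 8 * N
    · refine ⟨1, 8 * N - (d), ?_, ?_⟩
      · omega
      · have e1 := uA_p0 N m (8 * N - (d)) hm hN (by omega) (by omega) (by omega)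
        have e2 := vA_p0 N m (8 * N - (d)) hm hN (by omega) (by omega) (by omega)
        simp only [dif]; omega
    by_cases h0_12 : d ≤ 10 * N
    · refine ⟨0, 12 * N - (1 + d), ?_, ?_⟩
      · omega
      · have e1 := uA_p2 N m (12 * N - (1 + d)) hm hN (by omega) (by omega) (by omega)
        have hs : shiftIdx (4 * N) (1) (12 * N - (1 + d)) = (12 * N - (1 + d)) + (1) := by
          unfold shiftIdx; split_ifs <;> omega
        have e2 := uA_p1 N m ((12 * N - (1 + d)) + (1)) hm hN (by omega) (by omega) (by omega)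
        simp only [dif]; rw [hs]; omega
    refine ⟨0, 12 * N - (d), ?_, ?_⟩
    · omega
    · have e1 := uA_p0 N m (12 * N - (d)) hm hN (by omega) (by omega) (by omega)
      have hs : shiftIdx (4 * N) (1) (12 * N - (d)) = (12 * N - (d)) + (1) := by
        unfold shiftIdx; split_ifs <;> omega
      have e2 := uA_p2 N m ((12 * N - (d)) + (1)) hm hN (by omega) (by omega) (by omega)
      simp only [dif]; rw [hs]; omega
  · by_cases h1_0 : d ≤ 2 * m + 1
    · refine ⟨2, 2 * N - (4 * m + 4 + d), ?_, ?_⟩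
      · omega
      · have e1 := vA_p6 N m (2 * N - (4 * m + 4 + d)) hm hN (by omega) (by omega) (by omega)
        have hs : shiftIdx (4 * N) (4 * m + 3) (2 * N - (4 * m + 4 + d)) = (2 * N - (4 * m + 4 + d)) + (4 * m + 3) := by
          unfold shiftIdx; split_ifs <;> omega
        have e2 := vA_p1 N m ((2 * N - (4 * m + 4 + d)) + (4 * m + 3)) hm hN (by omega) (by omega) (by omega)
        simp only [dif]; rw [hs]; omega
    by_cases h1_1 : d ≤ 4 * m + 3
    · refine ⟨2, 2 * N + d - (4 * m + 5), ?_, ?_⟩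
      · omega
      · have e1 := vA_p1 N m (2 * N + d - (4 * m + 5)) hm hN (by omega) (by omega) (by omega)
        have hs : shiftIdx (4 * N) (4 * m + 3) (2 * N + d - (4 * m + 5)) = (2 * N + d - (4 * m + 5)) + (4 * m + 3) := by
          unfold shiftIdx; split_ifs <;> omega
        have e2 := vA_p8 N m ((2 * N + d - (4 * m + 5)) + (4 * m + 3)) hm hN (by omega) (by omega) (by omega)
        simp only [dif]; rw [hs]; omega
    by_cases h1_2 : d + 4 * m + 3 ≤ 2 * N
    · refine ⟨2, 4 * N - (2 * m + 3 + d), ?_, ?_⟩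
      · omega
      · have e1 := vA_p3 N m (4 * N - (2 * m + 3 + d)) hm hN (by omega) (by omega) (by omega)
        have hs : shiftIdx (4 * N) (4 * m + 3) (4 * N - (2 * m + 3 + d)) = (4 * N - (2 * m + 3 + d)) + (4 * m + 3) := by
          unfold shiftIdx; split_ifs <;> omega
        have e2 := vA_p8 N m ((4 * N - (2 * m + 3 + d)) + (4 * m + 3)) hm hN (by omega) (by omega) (by omega)
        simp only [dif]; rw [hs]; omega
    by_cases h1_3 : d + 2 * m + 3 ≤ 2 * N
    · refine ⟨2, 2 * N - (2 * m + 2 + d), ?_, ?_⟩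
      · omega
      · have e1 := vA_p5 N m (2 * N - (2 * m + 2 + d)) hm hN (by omega) (by omega) (by omega)
        have hs : shiftIdx (4 * N) (4 * m + 3) (2 * N - (2 * m + 2 + d)) = (2 * N - (2 * m + 2 + d)) + (4 * m + 3) := by
          unfold shiftIdx; split_ifs <;> omega
        have e2 := vA_p0 N m ((2 * N - (2 * m + 2 + d)) + (4 * m + 3)) hm hN (by omega) (by omega) (by omega)
        simp only [dif]; rw [hs]; omega
    by_cases h1_4 : d + 2 * m + 1 ≤ 2 * N
    · refine ⟨2, 4 * N - (1), ?_, ?_⟩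
      · omega
      · have e1 := vA_p10 N m (4 * N - (1)) hm hN (by omega) (by omega) (by omega)
        have hs : shiftIdx (4 * N) (4 * m + 3) (4 * N - (1)) = (4 * N - (1)) + (4 * m + 3) - 4 * N := by
          unfold shiftIdx; split_ifs <;> omega
        have e2 := vA_p0 N m ((4 * N - (1)) + (4 * m + 3) - 4 * N) hm hN (by omega) (by omega) (by omega)
        simp only [dif]; rw [hs]; omega
    by_cases h1_5 : d + 1 ≤ 2 * N
    · refine ⟨2, 4 * N - (4 * m + 4 + d), ?_, ?_⟩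
      · omega
      · have e1 := vA_p7 N m (4 * N - (4 * m + 4 + d)) hm hN (by omega) (by omega) (by omega)
        have hs : shiftIdx (4 * N) (4 * m + 3) (4 * N - (4 * m + 4 + d)) = (4 * N - (4 * m + 4 + d)) + (4 * m + 3) := by
          unfold shiftIdx; split_ifs <;> omega
        have e2 := vA_p2 N m ((4 * N - (4 * m + 4 + d)) + (4 * m + 3)) hm hN (by omega) (by omega) (by omega)
        simp only [dif]; rw [hs]; omega
    by_cases h1_6 : d ≤ 2 * N + 4 * m + 3
    · refine ⟨2, 4 * N - (2 * m + 3 + d), ?_, ?_⟩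
      · omega
      · have e1 := vA_p0 N m (4 * N - (2 * m + 3 + d)) hm hN (by omega) (by omega) (by omega)
        have hs : shiftIdx (4 * N) (4 * m + 3) (4 * N - (2 * m + 3 + d)) = (4 * N - (2 * m + 3 + d)) + (4 * m + 3) := by
          unfold shiftIdx; split_ifs <;> omega
        have e2 := vA_p8 N m ((4 * N - (2 * m + 3 + d)) + (4 * m + 3)) hm hN (by omega) (by omega) (by omega)
        simp only [dif]; rw [hs]; omega
    by_cases h1_7 : d + 4 * m + 3 ≤ 4 * N
    · refine ⟨2, 4 * N - (2 * m + 2 + d), ?_, ?_⟩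
      · omega
      · have e1 := vA_p6 N m (4 * N - (2 * m + 2 + d)) hm hN (by omega) (by omega) (by omega)
        have hs : shiftIdx (4 * N) (4 * m + 3) (4 * N - (2 * m + 2 + d)) = (4 * N - (2 * m + 2 + d)) + (4 * m + 3) := by
          unfold shiftIdx; split_ifs <;> omega
        have e2 := vA_p0 N m ((4 * N - (2 * m + 2 + d)) + (4 * m + 3)) hm hN (by omega) (by omega) (by omega)
        simp only [dif]; rw [hs]; omega
    by_cases h1_8 : d + 2 * m + 3 ≤ 4 * N
    · refine ⟨2, 6 * N - (2 * m + 3 + d), ?_, ?_⟩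
      · omega
      · have e1 := vA_p2 N m (6 * N - (2 * m + 3 + d)) hm hN (by omega) (by omega) (by omega)
        have hs : shiftIdx (4 * N) (4 * m + 3) (6 * N - (2 * m + 3 + d)) = (6 * N - (2 * m + 3 + d)) + (4 * m + 3) := by
          unfold shiftIdx; split_ifs <;> omega
        have e2 := vA_p8 N m ((6 * N - (2 * m + 3 + d)) + (4 * m + 3)) hm hN (by omega) (by omega) (by omega)
        simp only [dif]; rw [hs]; omega
    by_cases h1_9 : d + 1 ≤ 4 * N
    · refine ⟨2, 8 * N - (2 * m + 4 + d), ?_, ?_⟩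
      · omega
      · have e1 := vA_p9 N m (8 * N - (2 * m + 4 + d)) hm hN (by omega) (by omega) (by omega)
        have hs : shiftIdx (4 * N) (4 * m + 3) (8 * N - (2 * m + 4 + d)) = (8 * N - (2 * m + 4 + d)) + (4 * m + 3) - 4 * N := by
          unfold shiftIdx; split_ifs <;> omega
        have e2 := vA_p0 N m ((8 * N - (2 * m + 4 + d)) + (4 * m + 3) - 4 * N) hm hN (by omega) (by omega) (by omega)
        simp only [dif]; rw [hs]; omega
    by_cases h1_10 : d ≤ 4 * N + 1
    · refine ⟨1, 4 * N - (1), ?_, ?_⟩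
      · omega
      · have e1 := uA_p2 N m (4 * N - (1)) hm hN (by omega) (by omega) (by omega)
        have e2 := vA_p10 N m (4 * N - (1)) hm hN (by omega) (by omega) (by omega)
        simp only [dif]; omega
    by_cases h1_11 : d ≤ 4 * N + 2 * m + 1
    · refine ⟨1, 6 * N - (2 * m + 2 + d), ?_, ?_⟩
      · omega
      · have e1 := uA_p2 N m (6 * N - (2 * m + 2 + d)) hm hN (by omega) (by omega) (by omega)
        have e2 := vA_p7 N m (6 * N - (2 * m + 2 + d)) hm hN (by omega) (by omega) (by omega)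
        simp only [dif]; omega
    by_cases h1_12 : d + 2 * m + 1 ≤ 6 * N
    · refine ⟨1, 8 * N - (1 + d), ?_, ?_⟩
      · omega
      · have e1 := uA_p1 N m (8 * N - (1 + d)) hm hN (by omega) (by omega) (by omega)
        have e2 := vA_p3 N m (8 * N - (1 + d)) hm hN (by omega) (by omega) (by omega)
        simp only [dif]; omega
    by_cases h1_13 : d + 1 ≤ 6 * N
    · refine ⟨1, 6 * N - (d), ?_, ?_⟩
      · omega
      · have e1 := uA_p2 N m (6 * N - (d)) hm hN (by omega) (by omega) (by omega)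
        have e2 := vA_p5 N m (6 * N - (d)) hm hN (by omega) (by omega) (by omega)
        simp only [dif]; omega
    by_cases h1_14 : d ≤ 6 * N + 2 * m + 1
    · refine ⟨1, 10 * N - (2 + d), ?_, ?_⟩
      · omega
      · have e1 := uA_p2 N m (10 * N - (2 + d)) hm hN (by omega) (by omega) (by omega)
        have e2 := vA_p9 N m (10 * N - (2 + d)) hm hN (by omega) (by omega) (by omega)
        simp only [dif]; omega
    by_cases h1_15 : d ≤ 6 * N + 4 * m + 3
    · refine ⟨1, 10 * N + 2 * m + 1 - (d), ?_, ?_⟩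
      · omega
      · have e1 := uA_p1 N m (10 * N + 2 * m + 1 - (d)) hm hN (by omega) (by omega) (by omega)
        have e2 := vA_p4 N m (10 * N + 2 * m + 1 - (d)) hm hN (by omega) (by omega) (by omega)
        simp only [dif]; omega
    by_cases h1_16 : d + 2 * m + 1 ≤ 8 * N
    · refine ⟨1, 8 * N - (d), ?_, ?_⟩
      · omega
      · have e1 := uA_p2 N m (8 * N - (d)) hm hN (by omega) (by omega) (by omega)
        have e2 := vA_p6 N m (8 * N - (d)) hm hN (by omega) (by omega) (by omega)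
        simp only [dif]; omega
    by_cases h1_17 : d + 1 ≤ 8 * N
    · refine ⟨1, 10 * N - (1 + d), ?_, ?_⟩
      · omega
      · have e1 := uA_p1 N m (10 * N - (1 + d)) hm hN (by omega) (by omega) (by omega)
        have e2 := vA_p2 N m (10 * N - (1 + d)) hm hN (by omega) (by omega) (by omega)
        simp only [dif]; omega
    by_cases h1_18 : d + 1 ≤ 10 * N
    · refine ⟨0, 12 * N - (1 + d), ?_, ?_⟩
      · omega
      · have e1 := uA_p1 N m (12 * N - (1 + d)) hm hN (by omega) (by omega) (by omega)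
        have hs : shiftIdx (4 * N) (1) (12 * N - (1 + d)) = (12 * N - (1 + d)) + (1) := by
          unfold shiftIdx; split_ifs <;> omega
        have e2 := uA_p2 N m ((12 * N - (1 + d)) + (1)) hm hN (by omega) (by omega) (by omega)
        simp only [dif]; rw [hs]; omega
    by_cases h1_19 : d ≤ 10 * N + 1
    · refine ⟨0, 4 * N - (1), ?_, ?_⟩
      · omega
      · have e1 := uA_p2 N m (4 * N - (1)) hm hN (by omega) (by omega) (by omega)
        have hs : shiftIdx (4 * N) (1) (4 * N - (1)) = (4 * N - (1)) + (1) - 4 * N := by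
          unfold shiftIdx; split_ifs <;> omega
        have e2 := uA_p0 N m ((4 * N - (1)) + (1) - 4 * N) hm hN (by omega) (by omega) (by omega)
        simp only [dif]; rw [hs]; omega
    refine ⟨0, 12 * N - (d), ?_, ?_⟩
    · omega
    · have e1 := uA_p2 N m (12 * N - (d)) hm hN (by omega) (by omega) (by omega)
      have hs : shiftIdx (4 * N) (1) (12 * N - (d)) = (12 * N - (d)) + (1) := by
        unfold shiftIdx; split_ifs <;> omega
      have e2 := uA_p0 N m ((12 * N - (d)) + (1)) hm hN (by omega) (by omega) (by omega)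
      simp only [dif]; rw [hs]; omega

lemma inj_uA (N m : ℕ) (hm : 1 ≤ m) (hN : 4 * m + 3 ≤ N) : ∀ i < 4 * N, ∀ j < 4 * N, uA N m i = uA N m j → i = j := by
  intro i hi j hj h
  unfold uA at h
  split_ifs at h <;> omega

lemma inj_vA (N m : ℕ) (hm : 1 ≤ m) (hN : 4 * m + 3 ≤ N) : ∀ i < 4 * N, ∀ j < 4 * N, vA N m i = vA N m j → i = j := by
  intro i hi j hj h
  unfold vA at h
  split_ifs at h <;> omega

lemma ne_uvA (N m : ℕ) (hm : 1 ≤ m) (hN : 4 * m + 3 ≤ N) : ∀ i < 4 * N, ∀ j < 4 * N, uA N m i ≠ vA N m j := by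
  intro i hi j hj h
  unfold uA vA at h
  split_ifs at h <;> omega

lemma le_uA (N m : ℕ) (hm : 1 ≤ m) (hN : 4 * m + 3 ≤ N) : ∀ i < 4 * N, uA N m i ≤ 3 * (4 * N) := by
  intro i hi
  unfold uA
  split_ifs <;> omega

lemma le_vA (N m : ℕ) (hm : 1 ≤ m) (hN : 4 * m + 3 ≤ N) : ∀ i < 4 * N, vA N m i ≤ 3 * (4 * N) := by
  intro i hi
  unfold vA
  split_ifs <;> omega

theorem gracefulA (N m : ℕ) (hm : 1 ≤ m) (hN : 4 * m + 3 ≤ N) : IsGraceful (genPetersen (4 * N) (4 * m + 3)) :=
  graceful_of_labels (4 * N) (4 * m + 3) (by omega) (by omega) (uA N m) (vA N m)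
    (inj_uA N m hm hN) (inj_vA N m hm hN) (ne_uvA N m hm hN) (le_uA N m hm hN) (le_vA N m hm hN)
    (surjA N m hm hN)

end Pool.Agent.Helper20.Graceful
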