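import Pool.Agent.Helper20.GracefulCore

/-!
# `P(4N, 3)` is graceful for `3 ≤ N`
-/

namespace Pool.Agent.Helper20.Graceful

open Pool.Agent.Helper20.Graceful

/-- labels of the vertices `u_i`, `i < 4 N` -/
def uC (N m i : ℕ) : ℕ :=
  if i % 2 = 0 then
    if i < 2 * N then 12 * N - (i / 2)
    else 12 * N - (1 + i / 2)
  else
    i / 2

/-- labels of the vertices `v_i`, `i < 4 N` -/
def vC (N m i : ℕ) : ℕ :=
  if i % 2 = 0 then
    if i + 2 < 4 * N then 4 * N + i / 2
    else 10 * N - (1)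
  else
    if i + 3 < 2 * N then 8 * N - (1 + i / 2)
    else if i + 3 < 4 * N then 8 * N - (4 + i / 2)
    else 10 * N - (1 + i / 2)

lemma uC_p0 (N m i : ℕ) (hN : 3 ≤ N) (hp : i % 2 = 0) (h1 : 0 ≤ i) (h2 : i + 2 ≤ 2 * N) :
    uC N m i + i / 2 = 12 * N := by
  unfold uC; split_ifs <;> omega

lemma uC_p1 (N m i : ℕ) (hN : 3 ≤ N) (hp : i % 2 = 0) (h1 : 2 * N ≤ i) (h2 : i + 2 ≤ 4 * N) :
    uC N m i + 1 + i / 2 = 12 * N := by
  unfold uC; split_ifs <;> omega

lemma uC_p2 (N m i : ℕ) (hN : 3 ≤ N) (hp : i % 2 = 1) (h1 : 1 ≤ i) (h2 : i + 1 ≤ 4 * N) :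
    uC N m i = i / 2 := by
  unfold uC; split_ifs <;> omega

lemma vC_p0 (N m i : ℕ) (hN : 3 ≤ N) (hp : i % 2 = 0) (h1 : 0 ≤ i) (h2 : i + 4 ≤ 4 * N) :
    vC N m i = 4 * N + i / 2 := by
  unfold vC; split_ifs <;> omega

lemma vC_p1 (N m i : ℕ) (hN : 3 ≤ N) (hp : i % 2 = 0) (h1 : 4 * N ≤ i + 2) (h2 : i + 2 ≤ 4 * N) :
    vC N m i + 1 = 10 * N := by
  unfold vC; split_ifs <;> omega

lemma vC_p2 (N m i : ℕ) (hN : 3 ≤ N) (hp : i % 2 = 1) (h1 : 1 ≤ i) (h2 : i + 5 ≤ 2 * N) :
    vC N m i + 1 + i / 2 = 8 * N := by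
  unfold vC; split_ifs <;> omega

lemma vC_p3 (N m i : ℕ) (hN : 3 ≤ N) (hp : i % 2 = 1) (h1 : 2 * N ≤ i + 3) (h2 : i + 5 ≤ 4 * N) :
    vC N m i + 4 + i / 2 = 8 * N := by
  unfold vC; split_ifs <;> omega

lemma vC_p4 (N m i : ℕ) (hN : 3 ≤ N) (hp : i % 2 = 1) (h1 : 4 * N ≤ i + 3) (h2 : i + 1 ≤ 4 * N) :
    vC N m i + 1 + i / 2 = 10 * N := by
  unfold vC; split_ifs <;> omega

lemma surjC (N m : ℕ) (hN : 3 ≤ N) (d : ℕ) (hd1 : 1 ≤ d) (hd2 : d ≤ 3 * (4 * N)) :
    ∃ t : Fin 3, ∃ i < 4 * N, dif (uC N m) (vC N m) (4 * N) (3) t i = d := by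
  rcases Nat.mod_two_eq_zero_or_one d with hq | hq
  · by_cases h0_0 : d + 2 ≤ 2 * N
    · refine ⟨2, 4 * N - (5 + d), ?_, ?_⟩
      · omega
      · have e1 := vC_p3 N m (4 * N - (5 + d)) hN (by omega) (by omega) (by omega)
        have hs : shiftIdx (4 * N) (3) (4 * N - (5 + d)) = (4 * N - (5 + d)) + (3) := by
          unfold shiftIdx; split_ifs <;> omega
        have e2 := vC_p0 N m ((4 * N - (5 + d)) + (3)) hN (by omega) (by omega) (by omega)
        simp only [dif]; rw [hs]; omega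
    by_cases h0_1 : d ≤ 2 * N
    · refine ⟨2, 4 * N - (2), ?_, ?_⟩
      · omega
      · have e1 := vC_p1 N m (4 * N - (2)) hN (by omega) (by omega) (by omega)
        have hs : shiftIdx (4 * N) (3) (4 * N - (2)) = (4 * N - (2)) + (3) - 4 * N := by
          unfold shiftIdx; split_ifs <;> omega
        have e2 := vC_p2 N m ((4 * N - (2)) + (3) - 4 * N) hN (by omega) (by omega) (by omega)
        simp only [dif]; rw [hs]; omega
    by_cases h0_2 : d ≤ 2 * N + 4
    · refine ⟨2, 6 * N - (2 + d), ?_, ?_⟩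
      · omega
      · have e1 := vC_p0 N m (6 * N - (2 + d)) hN (by omega) (by omega) (by omega)
        have hs : shiftIdx (4 * N) (3) (6 * N - (2 + d)) = (6 * N - (2 + d)) + (3) := by
          unfold shiftIdx; split_ifs <;> omega
        have e2 := vC_p4 N m ((6 * N - (2 + d)) + (3)) hN (by omega) (by omega) (by omega)
        simp only [dif]; rw [hs]; omega
    by_cases h0_3 : d + 2 ≤ 4 * N
    · refine ⟨2, 4 * N - (2 + d), ?_, ?_⟩
      · omega
      · have e1 := vC_p0 N m (4 * N - (2 + d)) hN (by omega) (by omega) (by omega)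
        have hs : shiftIdx (4 * N) (3) (4 * N - (2 + d)) = (4 * N - (2 + d)) + (3) := by
          unfold shiftIdx; split_ifs <;> omega
        have e2 := vC_p2 N m ((4 * N - (2 + d)) + (3)) hN (by omega) (by omega) (by omega)
        simp only [dif]; rw [hs]; omega
    by_cases h0_4 : d ≤ 4 * N
    · refine ⟨2, 4 * N - (5), ?_, ?_⟩
      · omega
      · have e1 := vC_p3 N m (4 * N - (5)) hN (by omega) (by omega) (by omega)
        have hs : shiftIdx (4 * N) (3) (4 * N - (5)) = (4 * N - (5)) + (3) := by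
          unfold shiftIdx; split_ifs <;> omega
        have e2 := vC_p1 N m ((4 * N - (5)) + (3)) hN (by omega) (by omega) (by omega)
        simp only [dif]; rw [hs]; omega
    by_cases h0_5 : d ≤ 6 * N
    · refine ⟨1, 8 * N - (3 + d), ?_, ?_⟩
      · omega
      · have e1 := uC_p2 N m (8 * N - (3 + d)) hN (by omega) (by omega) (by omega)
        have e2 := vC_p3 N m (8 * N - (3 + d)) hN (by omega) (by omega) (by omega)
        simp only [dif]; omega
    by_cases h0_6 : d ≤ 8 * N
    · refine ⟨1, 8 * N - (d), ?_, ?_⟩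
      · omega
      · have e1 := uC_p0 N m (8 * N - (d)) hN (by omega) (by omega) (by omega)
        have e2 := vC_p0 N m (8 * N - (d)) hN (by omega) (by omega) (by omega)
        simp only [dif]; omega
    by_cases h0_7 : d ≤ 10 * N
    · refine ⟨0, 12 * N - (1 + d), ?_, ?_⟩
      · omega
      · have e1 := uC_p2 N m (12 * N - (1 + d)) hN (by omega) (by omega) (by omega)
        have hs : shiftIdx (4 * N) (1) (12 * N - (1 + d)) = (12 * N - (1 + d)) + (1) := by
          unfold shiftIdx; split_ifs <;> omega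
        have e2 := uC_p1 N m ((12 * N - (1 + d)) + (1)) hN (by omega) (by omega) (by omega)
        simp only [dif]; rw [hs]; omega
    refine ⟨0, 12 * N - (d), ?_, ?_⟩
    · omega
    · have e1 := uC_p0 N m (12 * N - (d)) hN (by omega) (by omega) (by omega)
      have hs : shiftIdx (4 * N) (1) (12 * N - (d)) = (12 * N - (d)) + (1) := by
        unfold shiftIdx; split_ifs <;> omega
      have e2 := uC_p2 N m ((12 * N - (d)) + (1)) hN (by omega) (by omega) (by omega)
      simp only [dif]; rw [hs]; omega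
  · by_cases h1_0 : d ≤ 1
    · refine ⟨1, 4 * N - (2), ?_, ?_⟩
      · omega
      · have e1 := uC_p1 N m (4 * N - (2)) hN (by omega) (by omega) (by omega)
        have e2 := vC_p1 N m (4 * N - (2)) hN (by omega) (by omega) (by omega)
        simp only [dif]; omega
    by_cases h1_1 : d ≤ 2 * N + 1
    · refine ⟨2, 4 * N - (5 + d), ?_, ?_⟩
      · omega
      · have e1 := vC_p0 N m (4 * N - (5 + d)) hN (by omega) (by omega) (by omega)
        have hs : shiftIdx (4 * N) (3) (4 * N - (5 + d)) = (4 * N - (5 + d)) + (3) := by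
          unfold shiftIdx; split_ifs <;> omega
        have e2 := vC_p3 N m ((4 * N - (5 + d)) + (3)) hN (by omega) (by omega) (by omega)
        simp only [dif]; rw [hs]; omega
    by_cases h1_2 : d + 3 ≤ 4 * N
    · refine ⟨2, 4 * N - (2 + d), ?_, ?_⟩
      · omega
      · have e1 := vC_p2 N m (4 * N - (2 + d)) hN (by omega) (by omega) (by omega)
        have hs : shiftIdx (4 * N) (3) (4 * N - (2 + d)) = (4 * N - (2 + d)) + (3) := by
          unfold shiftIdx; split_ifs <;> omega
        have e2 := vC_p0 N m ((4 * N - (2 + d)) + (3)) hN (by omega) (by omega) (by omega)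
        simp only [dif]; rw [hs]; omega
    by_cases h1_3 : d ≤ 4 * N + 1
    · refine ⟨2, 8 * N - (2 + d), ?_, ?_⟩
      · omega
      · have e1 := vC_p4 N m (8 * N - (2 + d)) hN (by omega) (by omega) (by omega)
        have hs : shiftIdx (4 * N) (3) (8 * N - (2 + d)) = (8 * N - (2 + d)) + (3) - 4 * N := by
          unfold shiftIdx; split_ifs <;> omega
        have e2 := vC_p0 N m ((8 * N - (2 + d)) + (3) - 4 * N) hN (by omega) (by omega) (by omega)
        simp only [dif]; rw [hs]; omega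
    by_cases h1_4 : d + 1 ≤ 6 * N
    · refine ⟨1, 8 * N - (1 + d), ?_, ?_⟩
      · omega
      · have e1 := uC_p1 N m (8 * N - (1 + d)) hN (by omega) (by omega) (by omega)
        have e2 := vC_p0 N m (8 * N - (1 + d)) hN (by omega) (by omega) (by omega)
        simp only [dif]; omega
    by_cases h1_5 : d ≤ 6 * N + 3
    · refine ⟨1, 10 * N - (d), ?_, ?_⟩
      · omega
      · have e1 := uC_p2 N m (10 * N - (d)) hN (by omega) (by omega) (by omega)
        have e2 := vC_p4 N m (10 * N - (d)) hN (by omega) (by omega) (by omega)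
        simp only [dif]; omega
    by_cases h1_6 : d + 1 ≤ 8 * N
    · refine ⟨1, 8 * N - (d), ?_, ?_⟩
      · omega
      · have e1 := uC_p2 N m (8 * N - (d)) hN (by omega) (by omega) (by omega)
        have e2 := vC_p2 N m (8 * N - (d)) hN (by omega) (by omega) (by omega)
        simp only [dif]; omega
    by_cases h1_7 : d + 1 ≤ 10 * N
    · refine ⟨0, 12 * N - (1 + d), ?_, ?_⟩
      · omega
      · have e1 := uC_p1 N m (12 * N - (1 + d)) hN (by omega) (by omega) (by omega)
        have hs : shiftIdx (4 * N) (1) (12 * N - (1 + d)) = (12 * N - (1 + d)) + (1) := by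
          unfold shiftIdx; split_ifs <;> omega
        have e2 := uC_p2 N m ((12 * N - (1 + d)) + (1)) hN (by omega) (by omega) (by omega)
        simp only [dif]; rw [hs]; omega
    by_cases h1_8 : d ≤ 10 * N + 1
    · refine ⟨0, 4 * N - (1), ?_, ?_⟩
      · omega
      · have e1 := uC_p2 N m (4 * N - (1)) hN (by omega) (by omega) (by omega)
        have hs : shiftIdx (4 * N) (1) (4 * N - (1)) = (4 * N - (1)) + (1) - 4 * N := by
          unfold shiftIdx; split_ifs <;> omega
        have e2 := uC_p0 N m ((4 * N - (1)) + (1) - 4 * N) hN (by omega) (by omega) (by omega)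
        simp only [dif]; rw [hs]; omega
    refine ⟨0, 12 * N - (d), ?_, ?_⟩
    · omega
    · have e1 := uC_p2 N m (12 * N - (d)) hN (by omega) (by omega) (by omega)
      have hs : shiftIdx (4 * N) (1) (12 * N - (d)) = (12 * N - (d)) + (1) := by
        unfold shiftIdx; split_ifs <;> omega
      have e2 := uC_p0 N m ((12 * N - (d)) + (1)) hN (by omega) (by omega) (by omega)
      simp only [dif]; rw [hs]; omega

lemma inj_uC (N m : ℕ) (hN : 3 ≤ N) : ∀ i < 4 * N, ∀ j < 4 * N, uC N m i = uC N m j → i = j := by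
  intro i hi j hj h
  unfold uC at h
  split_ifs at h <;> omega

lemma inj_vC (N m : ℕ) (hN : 3 ≤ N) : ∀ i < 4 * N, ∀ j < 4 * N, vC N m i = vC N m j → i = j := by
  intro i hi j hj h
  unfold vC at h
  split_ifs at h <;> omega

lemma ne_uvC (N m : ℕ) (hN : 3 ≤ N) : ∀ i < 4 * N, ∀ j < 4 * N, uC N m i ≠ vC N m j := by
  intro i hi j hj h
  unfold uC vC at h
  split_ifs at h <;> omega

lemma le_uC (N m : ℕ) (hN : 3 ≤ N) : ∀ i < 4 * N, uC N m i ≤ 3 * (4 * N) := by
  intro i hi
  unfold uC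
  split_ifs <;> omega

lemma le_vC (N m : ℕ) (hN : 3 ≤ N) : ∀ i < 4 * N, vC N m i ≤ 3 * (4 * N) := by
  intro i hi
  unfold vC
  split_ifs <;> omega

theorem gracefulC (N m : ℕ) (hN : 3 ≤ N) : IsGraceful (genPetersen (4 * N) (3)) :=
  graceful_of_labels (4 * N) (3) (by omega) (by omega) (uC N m) (vC N m)
    (inj_uC N m hN) (inj_vC N m hN) (ne_uvC N m hN) (le_uC N m hN) (le_vC N m hN)
    (surjC N m hN)

end Pool.Agent.Helper20.Graceful
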