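import Pool.Agent.Helper20.GracefulDefs

/-!
# From an arithmetic labelling to a graceful labelling of `P(n,k)`
-/

namespace Pool.Agent.Helper20.Graceful

/-- cyclic shift of an index `i < n` by `k ≤ n` -/
def shiftIdx (n k i : ℕ) : ℕ := if i + k < n then i + k else i + k - n

lemma shiftIdx_lt {n k i : ℕ} (hi : i < n) (hk : k ≤ n) : shiftIdx n k i < n := by
  unfold shiftIdx; split_ifs <;> omega

lemma val_add_nat (n k : ℕ) (hn : 0 < n) (hk : k < n) (i : ZMod n) :
    (i + (k : ZMod n)).val = shiftIdx n k i.val := by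
  haveI : NeZero n := ⟨hn.ne'⟩
  have hi := ZMod.val_lt i
  rw [ZMod.val_add, ZMod.val_natCast, Nat.mod_eq_of_lt hk]
  unfold shiftIdx
  split_ifs with h
  · exact Nat.mod_eq_of_lt h
  · rw [Nat.mod_eq_sub_mod (by omega)]
    exact Nat.mod_eq_of_lt (by omega)

/-- difference of labels on the `j`-th kind of edge with index `i` -/
def dif (u v : ℕ → ℕ) (n k : ℕ) (t : Fin 3) (i : ℕ) : ℕ :=
  match t with
  | 0 => ((u i : ℤ) - u (shiftIdx n 1 i)).natAbs
  | 1 => ((u i : ℤ) - v i).natAbs
  | 2 => ((v i : ℤ) - v (shiftIdx n k i)).natAbs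

/-- the ends of the edge of kind `t` with index `i` -/
def ends (n k : ℕ) (t : Fin 3) (i : ZMod n) : (ZMod n ⊕ ZMod n) × (ZMod n ⊕ ZMod n) :=
  match t with
  | 0 => (Sum.inl i, Sum.inl (i + 1))
  | 1 => (Sum.inl i, Sum.inr i)
  | 2 => (Sum.inr i, Sum.inr (i + (k : ZMod n)))

theorem graceful_of_labels (n k : ℕ) (hn : 2 ≤ n) (hk : k < n) (u v : ℕ → ℕ)
    (hu : ∀ i < n, ∀ j < n, u i = u j → i = j)
    (hv : ∀ i < n, ∀ j < n, v i = v j → i = j)
    (huv : ∀ i < n, ∀ j < n, u i ≠ v j)
    (bu : ∀ i < n, u i ≤ 3 * n) (bv : ∀ i < n, v i ≤ 3 * n)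
    (surj : ∀ d, 1 ≤ d → d ≤ 3 * n → ∃ t : Fin 3, ∃ i < n, dif u v n k t i = d) :
    IsGraceful (genPetersen n k) := by
  haveI : NeZero n := ⟨by omega⟩
  classical
  set f : ZMod n ⊕ ZMod n → ℕ := fun x => Sum.elim (fun i => u i.val) (fun i => v i.val) x with hf
  -- the difference of the labels along an indexed edge
  have hD : ∀ (t : Fin 3) (i : ZMod n),
      ((f (ends n k t i).1 : ℤ) - f (ends n k t i).2).natAbs = dif u v n k t i.val := by
    intro t i
    fin_cases t
    · have h1 : ((i + 1 : ZMod n)).val = shiftIdx n 1 i.val := by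
        have := val_add_nat n 1 (by omega) (by omega) i
        simpa using this
      simp [ends, dif, hf, h1]
    · simp [ends, dif, hf]
    · have h1 := val_add_nat n k (by omega) hk i
      simp [ends, dif, hf, h1]
  -- the map `(t,i) ↦ difference` is a bijection onto `{1..3n}`
  let g : Fin 3 × ZMod n → ℕ := fun p => dif u v n k p.1 p.2.val
  have hcard : (Finset.univ : Finset (Fin 3 × ZMod n)).card = 3 * n := by
    rw [Finset.card_univ, Fintype.card_prod, Fintype.card_fin, ZMod.card]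
  have hsub : Finset.Icc 1 (3 * n) ⊆ Finset.univ.image g := by
    intro d hd
    rw [Finset.mem_Icc] at hd
    obtain ⟨t, i, hi, h⟩ := surj d hd.1 hd.2
    rw [Finset.mem_image]
    refine ⟨(t, (i : ZMod n)), Finset.mem_univ _, ?_⟩
    simp only [g]
    rw [ZMod.val_natCast, Nat.mod_eq_of_lt hi]
    exact h
  have himg : (Finset.univ.image g).card ≤ 3 * n := by
    rw [← hcard]; exact Finset.card_image_le
  have heq : Finset.Icc 1 (3 * n) = Finset.univ.image g := by
    apply Finset.eq_of_subset_of_card_le hsub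
    rw [Nat.card_Icc]; omega
  have hginj : Function.Injective g := by
    have : (Finset.univ.image g).card = (Finset.univ : Finset (Fin 3 × ZMod n)).card := by
      rw [← heq, hcard, Nat.card_Icc]; omega
    have h2 := Finset.card_image_iff.mp this
    intro a b hab
    exact h2 (Finset.mem_coe.mpr (Finset.mem_univ _)) (Finset.mem_coe.mpr (Finset.mem_univ _)) hab
  have hgpos : ∀ p, 1 ≤ g p := by
    intro p
    have : g p ∈ Finset.univ.image g := Finset.mem_image_of_mem _ (Finset.mem_univ _)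
    rw [← heq, Finset.mem_Icc] at this
    exact this.1
  -- indexed edges are edges
  have hne : ∀ (t : Fin 3) (i : ZMod n), (ends n k t i).1 ≠ (ends n k t i).2 := by
    intro t i h
    have h1 := hD t i
    rw [h] at h1
    have h2 := hgpos (t, i)
    simp only [g] at h2
    rw [← h1] at h2
    simp at h2
  have hadj : ∀ (t : Fin 3) (i : ZMod n),
      (genPetersen n k).Adj (ends n k t i).1 (ends n k t i).2 := by
    intro t i
    unfold genPetersen
    rw [SimpleGraph.fromRel_adj]
    refine ⟨hne t i, Or.inl ?_⟩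
    fin_cases t
    · exact Or.inl ⟨i, rfl, rfl⟩
    · exact Or.inr (Or.inl ⟨i, rfl, rfl⟩)
    · exact Or.inr (Or.inr ⟨i, rfl, rfl⟩)
  -- every edge is an indexed edge
  have hall : ∀ a b, (genPetersen n k).Adj a b →
      ∃ (t : Fin 3) (i : ZMod n), s(a, b) = s((ends n k t i).1, (ends n k t i).2) := by
    have aux : ∀ a b : ZMod n ⊕ ZMod n,
        ((∃ i : ZMod n, a = Sum.inl i ∧ b = Sum.inl (i + 1)) ∨
        (∃ i : ZMod n, a = Sum.inl i ∧ b = Sum.inr i) ∨
        (∃ i : ZMod n, a = Sum.inr i ∧ b = Sum.inr (i + (k : ZMod n)))) →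
        ∃ (t : Fin 3) (i : ZMod n), s(a, b) = s((ends n k t i).1, (ends n k t i).2) := by
      rintro a b (⟨i, rfl, rfl⟩ | ⟨i, rfl, rfl⟩ | ⟨i, rfl, rfl⟩)
      · exact ⟨0, i, rfl⟩
      · exact ⟨1, i, rfl⟩
      · exact ⟨2, i, rfl⟩
    intro a b hab
    unfold genPetersen at hab
    rw [SimpleGraph.fromRel_adj] at hab
    rcases hab.2 with h | h
    · exact aux a b h
    · obtain ⟨t, i, hti⟩ := aux b a h
      exact ⟨t, i, by rw [← hti, Sym2.eq_swap]⟩
  -- number of edges
  have hncard : 3 * n ≤ (genPetersen n k).edgeSet.ncard := by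
    let e : Fin 3 × ZMod n → Sym2 (ZMod n ⊕ ZMod n) :=
      fun p => s((ends n k p.1 p.2).1, (ends n k p.1 p.2).2)
    have einj : Function.Injective e := by
      rintro ⟨t, i⟩ ⟨t', i'⟩ h
      apply hginj
      simp only [g]
      rw [← hD, ← hD]
      have h' : s((ends n k t i).1, (ends n k t i).2) =
          s((ends n k t' i').1, (ends n k t' i').2) := h
      rw [Sym2.eq_iff] at h'
      rcases h' with ⟨h1, h2⟩ | ⟨h1, h2⟩
      · rw [h1, h2]
      · rw [h1, h2, ← Int.natAbs_neg]; congr 1; ring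
    have h1 : (Finset.univ.image e).card = 3 * n := by
      rw [Finset.card_image_of_injective _ einj, hcard]
    have h2 : ((Finset.univ.image e : Finset (Sym2 (ZMod n ⊕ ZMod n))) :
        Set (Sym2 (ZMod n ⊕ ZMod n))) ⊆ (genPetersen n k).edgeSet := by
      intro x hx
      rw [Finset.mem_coe, Finset.mem_image] at hx
      obtain ⟨p, -, rfl⟩ := hx
      rw [SimpleGraph.mem_edgeSet]
      exact hadj p.1 p.2
    have h3 := Set.ncard_le_ncard h2 (Set.toFinite _)
    rw [Set.ncard_coe_finset, h1] at h3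
    exact h3
  refine ⟨f, ?_, ?_, ?_⟩
  · rintro (i | i) (j | j) h
    · simp only [hf, Sum.elim_inl] at h
      have := hu _ (ZMod.val_lt i) _ (ZMod.val_lt j) h
      rw [ZMod.val_injective n this]
    · exact absurd h (huv _ (ZMod.val_lt i) _ (ZMod.val_lt j))
    · exact absurd h.symm (huv _ (ZMod.val_lt j) _ (ZMod.val_lt i))
    · simp only [hf, Sum.elim_inr] at h
      have := hv _ (ZMod.val_lt i) _ (ZMod.val_lt j) h
      rw [ZMod.val_injective n this]
  · rintro (i | i)
    · exact (bu _ (ZMod.val_lt i)).trans hncard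
    · exact (bv _ (ZMod.val_lt i)).trans hncard
  · intro a b c d hab hcd h
    obtain ⟨t, i, hti⟩ := hall a b hab
    obtain ⟨t', i', hti'⟩ := hall c d hcd
    have key : ∀ (x y : ZMod n ⊕ ZMod n) (t : Fin 3) (i : ZMod n),
        s(x, y) = s((ends n k t i).1, (ends n k t i).2) →
        ((f x : ℤ) - f y).natAbs = dif u v n k t i.val := by
      intro x y t i hxy
      rw [← hD]
      rw [Sym2.eq_iff] at hxy
      rcases hxy with ⟨h1, h2⟩ | ⟨h1, h2⟩
      · rw [h1, h2]
      · rw [h1, h2, ← Int.natAbs_neg]; congr 1; ring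
    rw [key a b t i hti, key c d t' i' hti'] at h
    have h2 : g (t, i) = g (t', i') := h
    have h3 := hginj h2
    rw [hti, hti']
    simp only [Prod.mk.injEq] at h3
    rw [h3.1, h3.2]

end Pool.Agent.Helper20.Graceful
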