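import Mathlib

/-!
# Graceful labelings and generalized Petersen graphs
-/

namespace Pool.Agent.Helper20.Graceful

/-- A graph `G` with `q` edges is graceful if its vertices can be given pairwise distinct labels
in `{0, 1, ..., q}` such that the absolute differences of the end labels of the `q` edges are
pairwise distinct. -/
def IsGraceful {V : Type*} (G : SimpleGraph V) : Prop :=
  ∃ f : V → ℕ, Function.Injective f ∧ (∀ x, f x ≤ G.edgeSet.ncard) ∧
    ∀ a b c d : V, G.Adj a b → G.Adj c d →
      ((f a : ℤ) - f b).natAbs = ((f c : ℤ) - f d).natAbs → s(a, b) = s(c, d)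

/-- The generalized Petersen graph `P(n,k)`: the vertices are `u_i = Sum.inl i` and
`v_i = Sum.inr i` for `i : ZMod n`, the edges are `u_i u_{i+1}`, `u_i v_i` and `v_i v_{i+k}`. -/
def genPetersen (n k : ℕ) : SimpleGraph (ZMod n ⊕ ZMod n) :=
  SimpleGraph.fromRel (fun x y =>
    (∃ i : ZMod n, x = Sum.inl i ∧ y = Sum.inl (i + 1)) ∨
    (∃ i : ZMod n, x = Sum.inl i ∧ y = Sum.inr i) ∨
    (∃ i : ZMod n, x = Sum.inr i ∧ y = Sum.inr (i + (k : ZMod n))))

end Pool.Agent.Helper20.Graceful
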