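import Pool.Agent.Helper20.RPStrip

/-!
# Log-convexity along chains of reflected strips
-/

set_option autoImplicit false

namespace Pool.Agent.Helper20.RP

open SimpleGraph Finset

/-- `p` counts the colourings with at least one colour -/
def WeakCP {V : Type} (G : SimpleGraph V) (p : Polynomial ℝ) : Prop :=
  ∀ N : ℕ, p.eval ((N : ℝ) + 1) = (Nat.card (G.Coloring (Fin (N + 1))) : ℝ)

theorem weak_of_cp {V : Type} {G : SimpleGraph V} {p : Polynomial ℝ}
    (h : IsChromaticPolynomial G p) : WeakCP G p := by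
  intro N
  have := h (N + 1)
  push_cast at this
  exact this

theorem weak_unique {V : Type} {G : SimpleGraph V} {p p' : Polynomial ℝ}
    (h : WeakCP G p) (h' : WeakCP G p') : p = p' := by
  apply Polynomial.eq_of_infinite_eval_eq
  apply Set.infinite_of_injective_forall_mem (f := fun N : ℕ => ((N : ℝ) + 1))
  · intro N M h
    simpa using h
  · intro N
    simp only [Set.mem_ofPred_eq]
    rw [h N, h' N]

theorem exists_weak {V : Type} [Finite V] (G : SimpleGraph V) : ∃ p, WeakCP G p := by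
  have _ : Fintype V := Fintype.ofFinite _
  have b : Fin 0 ↪ V := Function.Embedding.ofIsEmpty
  have hb : NoCross G b := by
    intro i
    exact i.elim0
  have hx := expands_bdCount hb
  obtain ⟨T, fT, σ, m, r, hh, hF⟩ := hx
  refine ⟨∑ t, Polynomial.C (σ t) * Polynomial.X ^ m t, ?_⟩
  intro N
  have hd : ∀ β : Fin 0 → Fin (N + 1), β = fun i => i.elim0 := fun β => funext fun i => i.elim0
  have h1 : ∑ β : Fin 0 → Fin (N + 1), bdCount G b N β = bdCount G b N (fun i => i.elim0) := by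
    rw [Finset.sum_eq_single (fun i => i.elim0)]
    · intro β _ hβ
      exact absurd (hd β) hβ
    · intro h
      exact absurd (Finset.mem_univ _) h
  rw [card_eq_sum G b N, h1, hF]
  rw [Polynomial.eval_finsetSum]
  apply Finset.sum_congr rfl
  intro t _
  have h2 : potts univ (r t) N (fun i : Fin 0 => i.elim0) = 1 := by
    unfold potts
    rw [if_pos]
    intro i
    exact i.elim0
  rw [h2, mul_one, Polynomial.eval_mul, Polynomial.eval_C, Polynomial.eval_pow, Polynomial.eval_X]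

/-- Cauchy-Schwarz for gluings, with polynomials counting colourings with `N ≥ 1` colours -/
theorem gluing_cs' {n : ℕ} {V₁ V₂ W₁₁ W₁₂ W₂₂ : Type} [Finite V₁] [Finite V₂]
    {D₁ : SimpleGraph V₁} {b₁ : Fin n ↪ V₁} {D₂ : SimpleGraph V₂} {b₂ : Fin n ↪ V₂}
    (h₁ : NoCross D₁ b₁) (h₂ : NoCross D₂ b₂)
    {G₁₁ : SimpleGraph W₁₁} {G₁₂ : SimpleGraph W₁₂} {G₂₂ : SimpleGraph W₂₂}
    (hG₁₁ : IsGluing D₁ b₁ D₁ b₁ G₁₁) (hG₁₂ : IsGluing D₁ b₁ D₂ b₂ G₁₂)
    (hG₂₂ : IsGluing D₂ b₂ D₂ b₂ G₂₂) {p₁₁ p₁₂ p₂₂ : Polynomial ℝ}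
    (hp₁₁ : WeakCP G₁₁ p₁₁) (hp₁₂ : WeakCP G₁₂ p₁₂)
    (hp₂₂ : WeakCP G₂₂ p₂₂) {q : ℝ} (hq : 4 ≤ q) :
    0 ≤ p₁₁.eval q ∧ 0 ≤ p₂₂.eval q ∧ (p₁₂.eval q) ^ 2 ≤ p₁₁.eval q * p₂₂.eval q := by
  have _ : Fintype V₁ := Fintype.ofFinite _
  have _ : Fintype V₂ := Fintype.ofFinite _
  let F : Bool → (N : ℕ) → (Fin n → Fin (N + 1)) → ℝ := fun a =>
    if a then bdCount D₁ b₁ else bdCount D₂ b₂
  let p : Bool → Bool → Polynomial ℝ := fun a a' =>
    if a then (if a' then p₁₁ else p₁₂) else (if a' then p₁₂ else p₂₂)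
  have hF : ∀ a, Expands (F a) := by
    intro a
    cases a
    · exact expands_bdCount h₂
    · exact expands_bdCount h₁
  have hp : ∀ a b (N : ℕ), (p a b).eval ((N : ℝ) + 1) = ∑ β, F a N β * F b N β := by
    have k11 := fun N : ℕ => hp₁₁ N
    have k12 := fun N : ℕ => hp₁₂ N
    have k22 := fun N : ℕ => hp₂₂ N
    simp only [card_gluing hG₁₁, card_gluing hG₁₂, card_gluing hG₂₂] at k11 k12 k22
    intro a a' N
    cases a <;> cases a'
    · exact k22 N
    · have := k12 N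
      simp only [p, F, if_true, Bool.false_eq_true, if_false]
      rw [this]
      apply Finset.sum_congr rfl
      intro β _
      ring
    · exact k12 N
    · exact k11 N
  obtain ⟨w, μ, hμ, hw⟩ := core F hF p hp q hq
  have e11 : p₁₁.eval q = _ := hw true true
  have e12 : p₁₂.eval q = _ := hw true false
  have e22 : p₂₂.eval q = _ := hw false false
  refine ⟨?_, ?_, ?_⟩
  · rw [e11]
    exact Finset.sum_nonneg fun x _ => Finset.sum_nonneg fun y _ =>
      mul_nonneg (mul_self_nonneg _) (hμ y).le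
  · rw [e22]
    exact Finset.sum_nonneg fun x _ => Finset.sum_nonneg fun y _ =>
      mul_nonneg (mul_self_nonneg _) (hμ y).le
  · rw [e11, e12, e22]
    exact cs _ _ μ hμ

/-- a log-convex sequence -/
theorem logconvex_bound (a : ℕ → ℝ) (h0 : 0 < a 0) (h1 : 0 < a 1)
    (hlc : ∀ k, a (k + 1) ^ 2 ≤ a k * a (k + 2)) :
    ∀ k, 0 < a k ∧ a 1 * a k ≤ a 0 * a (k + 1) := by
  intro k
  induction k with
  | zero => exact ⟨h0, by linarith⟩
  | succ k ih =>
    obtain ⟨hk, hr⟩ := ih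
    have hk1 : 0 < a (k + 1) := by
      by_contra hcon
      have : a (k + 1) ≤ 0 := not_lt.1 hcon
      have h2 : 0 < a 1 * a k := mul_pos h1 hk
      nlinarith
    refine ⟨hk1, ?_⟩
    have h2 := hlc k
    -- a1 a(k+1) ≤ a0 a(k+2); multiply by a k
    have h3 : a k * (a 1 * a (k + 1)) ≤ a k * (a 0 * a (k + 1 + 1)) := by
      calc a k * (a 1 * a (k + 1)) = (a 1 * a k) * a (k + 1) := by ring
        _ ≤ (a 0 * a (k + 1)) * a (k + 1) := mul_le_mul_of_nonneg_right hr hk1.le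
        _ = a 0 * a (k + 1) ^ 2 := by ring
        _ ≤ a 0 * (a k * a (k + 2)) := mul_le_mul_of_nonneg_left h2 h0.le
        _ = a k * (a 0 * a (k + 1 + 1)) := by ring
    exact le_of_mul_le_mul_left h3 hk

theorem logconvex_pow (a : ℕ → ℝ) (h0 : 0 < a 0) (h1 : 0 < a 1)
    (hlc : ∀ k, a (k + 1) ^ 2 ≤ a k * a (k + 2)) (k : ℕ) :
    a 0 * (a 1 / a 0) ^ k ≤ a k := by
  have h := logconvex_bound a h0 h1 hlc
  induction k with
  | zero => simp
  | succ k ih =>
    have h2 := (h k).2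
    have h3 : a 1 / a 0 * a k ≤ a (k + 1) := by
      rw [div_mul_eq_mul_div, div_le_iff₀ h0]
      linarith
    calc a 0 * (a 1 / a 0) ^ (k + 1) = a 1 / a 0 * (a 0 * (a 1 / a 0) ^ k) := by ring
      _ ≤ a 1 / a 0 * a k := mul_le_mul_of_nonneg_left ih (div_nonneg h1.le h0.le)
      _ ≤ a (k + 1) := h3

/-- **Chains.** Lower bound for the chromatic polynomial of a strip with an odd number of rows. -/
theorem strip_chain {m : ℕ} {R : SimpleGraph (Fin m)} {E : ℕ → Fin m → Fin m → Prop}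
    (hR : Pathlike R) (hE : Tri E) (hM : Mirror E) {p₀ p₁ : Polynomial ℝ}
    (h₀ : WeakCP (strip R E 0) p₀) (h₁ : WeakCP (strip R E 1) p₁) {q : ℝ} (hq : 4 ≤ q)
    (hp₀ : 0 < p₀.eval q) (hp₁ : p₁.eval q ≠ 0) (k : ℕ) {p : Polynomial ℝ}
    (hp : WeakCP (strip R E (2 * k)) p) :
    p₀.eval q * ((p₁.eval q / p₀.eval q) ^ 2) ^ k ≤ p.eval q := by
  have hex : ∀ L : ℕ, ∃ P, WeakCP (strip R E L) P := fun L => exists_weak _
  choose P hP using hex
  have e0 : P (2 * 0) = p₀ := weak_unique (hP 0) h₀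
  have e1 : P 1 = p₁ := weak_unique (hP 1) h₁
  have ek : P (2 * k) = p := weak_unique (hP _) hp
  let a : ℕ → ℝ := fun k => (P (2 * k)).eval q
  have hlc : ∀ k, a (k + 1) ^ 2 ≤ a k * a (k + 2) := by
    intro k
    have hg1 : IsGluing (strip R E k) (lastRow m k) (strip R E k) (lastRow m k)
      (strip R E (2 * k)) := strip_gluing hM (by ring)
    have hg2 : IsGluing (strip R E k) (lastRow m k) (strip R E (k + 2)) (lastRow m (k + 2))
      (strip R E (2 * (k + 1))) := strip_gluing hM (by ring)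
    have hg3 : IsGluing (strip R E (k + 2)) (lastRow m (k + 2)) (strip R E (k + 2))
      (lastRow m (k + 2)) (strip R E (2 * (k + 2))) := strip_gluing hM (by ring)
    exact (gluing_cs' (strip_noCross hR hE k) (strip_noCross hR hE (k + 2)) hg1 hg2 hg3
      (hP _) (hP _) (hP _) hq).2.2
  have ha0 : a 0 = p₀.eval q := by simp only [a]; rw [e0]
  have h01 : (p₁.eval q) ^ 2 ≤ a 1 * a 0 := by
    have hg1 : IsGluing (strip R E 1) (lastRow m 1) (strip R E 1) (lastRow m 1)
      (strip R E (2 * 1)) := strip_gluing hM (by ring)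
    have hg2 : IsGluing (strip R E 1) (lastRow m 1) (strip R E 0) (lastRow m 0)
      (strip R E 1) := strip_gluing_row 1
    have hg3 : IsGluing (strip R E 0) (lastRow m 0) (strip R E 0)
      (lastRow m 0) (strip R E (2 * 0)) := strip_gluing hM (by ring)
    exact (gluing_cs' (strip_noCross hR hE 1) (strip_noCross hR hE 0) hg1 hg2 hg3
      (hP _) h₁ (hP _) hq).2.2
  have ha0' : 0 < a 0 := by rw [ha0]; exact hp₀
  have hpos : 0 < (p₁.eval q) ^ 2 := by positivity
  have ha1 : 0 < a 1 := by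
    by_contra hcon
    have : a 1 ≤ 0 := not_lt.1 hcon
    nlinarith
  have hmain := logconvex_pow a ha0' ha1 hlc k
  have hak : a k = p.eval q := by simp only [a]; rw [ek]
  rw [hak] at hmain
  refine le_trans ?_ hmain
  rw [ha0]
  apply mul_le_mul_of_nonneg_left _ hp₀.le
  apply pow_le_pow_left₀ (by positivity)
  rw [ha0] at h01
  rw [div_pow, div_le_div_iff₀ (by positivity) hp₀]
  calc (p₁.eval q) ^ 2 * p₀.eval q ≤ (a 1 * p₀.eval q) * p₀.eval q :=
        mul_le_mul_of_nonneg_right h01 hp₀.le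
    _ = a 1 * (p₀.eval q) ^ 2 := by ring

end Pool.Agent.Helper20.RP
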