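import Pool.Agent.Helper20.RPGraph

set_option autoImplicit false

namespace Pool.Agent.Helper20.RP

open Finset Function

theorem exists_rho {q : ℝ} (hq : 4 ≤ q) :
    ∃ ρ : Bool → ℝ, (∀ a, 0 < ρ a) ∧ ∑ a, ρ a = q ∧ ∑ a, (ρ a)⁻¹ = 1 := by
  have hd : 0 ≤ q ^ 2 - 4 * q := by nlinarith
  set s := Real.sqrt (q ^ 2 - 4 * q) with hs
  have hs0 : 0 ≤ s := Real.sqrt_nonneg _
  have hs2 : s ^ 2 = q ^ 2 - 4 * q := Real.sq_sqrt hd
  have hsq : s < q := by
    by_contra h
    have h1 : q ≤ s := not_lt.1 h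
    nlinarith
  have h1 : 0 < (q + s) / 2 := by linarith
  have h2 : 0 < (q - s) / 2 := by linarith
  refine ⟨fun a => if a then (q + s) / 2 else (q - s) / 2, ?_, ?_, ?_⟩
  · intro a
    cases a
    · simpa using h2
    · simpa using h1
  · simp; ring
  · simp only [Fintype.sum_bool, if_true, Bool.false_eq_true, if_false]
    have h3 : (q + s) ≠ 0 := by linarith
    have h4 : (q - s) ≠ 0 := by linarith
    field_simp
    nlinarith

/-- The polynomials given by pairings of expandable functions are, at a real `q ≥ 4`, inner products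
of real vectors. -/
theorem core {n : ℕ} {ι : Type} (F : ι → (N : ℕ) → (Fin n → Fin (N + 1)) → ℝ)
    (hF : ∀ a, Expands (F a)) (p : ι → ι → Polynomial ℝ)
    (hp : ∀ a b (N : ℕ), (p a b).eval ((N : ℝ) + 1) = ∑ β, F a N β * F b N β)
    (q : ℝ) (hq : 4 ≤ q) :
    ∃ (w : ι → RV (Fin n)) (μ : (Fin n → Bool) → ℝ), (∀ y, 0 < μ y) ∧
      ∀ a b, (p a b).eval q = ∑ x, ∑ y, w a x y * w b x y * μ y := by
  obtain ⟨ρ, hρ, hρ1, hρ2⟩ := exists_rho hq
  obtain ⟨st, hst⟩ := exists_states (α := Fin n) hρ hρ1 hρ2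
  choose T fT σ m r hr hexp using hF
  refine ⟨fun a x y => ∑ t : T a, σ a t * q ^ m a t * st (r a t) x y, fun y => ∏ i, ρ (y i),
    fun y => Finset.prod_pos (fun i _ => hρ _), ?_⟩
  intro a b
  have hE : ∀ (t : T a) (s : T b), ∃ e : ℕ,
      (∀ N : ℕ, ∑ c, potts univ (r a t) N c * potts univ (r b s) N c = ((N : ℝ) + 1) ^ e) ∧
      ∑ x, ∑ y, st (r a t) x y * st (r b s) x y * ∏ i, ρ (y i) = q ^ e := fun t s =>
    hst _ _ (hr a t).1 (hr a t).2 (hr b s).1 (hr b s).2
  choose e he1 he2 using hE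
  -- the polynomial
  have hpoly : p a b = ∑ t : T a, ∑ s : T b, Polynomial.C (σ a t * σ b s) *
      Polynomial.X ^ (m a t + m b s + e t s) := by
    apply Polynomial.eq_of_infinite_eval_eq
    apply Set.infinite_of_injective_forall_mem (f := fun N : ℕ => ((N : ℝ) + 1))
    · intro N M h
      simpa using h
    · intro N
      simp only [Set.mem_ofPred_eq]
      rw [hp a b N]
      simp only [Polynomial.eval_finsetSum, Polynomial.eval_mul, Polynomial.eval_C,
        Polynomial.eval_pow, Polynomial.eval_X]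
      simp only [hexp]
      have h1 : ∀ β : Fin n → Fin (N + 1),
          (∑ t : T a, σ a t * ((N : ℝ) + 1) ^ m a t * potts univ (r a t) N β) *
          (∑ t : T b, σ b t * ((N : ℝ) + 1) ^ m b t * potts univ (r b t) N β) =
          ∑ t : T a, ∑ s : T b, (σ a t * σ b s) * ((N : ℝ) + 1) ^ (m a t + m b s) *
            (potts univ (r a t) N β * potts univ (r b s) N β) := by
        intro β
        rw [Finset.sum_mul_sum]
        apply Finset.sum_congr rfl
        intro t _
        apply Finset.sum_congr rfl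
        intro s _
        rw [pow_add]
        ring
      simp only [h1]
      rw [Finset.sum_comm]
      apply Finset.sum_congr rfl
      intro t _
      rw [Finset.sum_comm]
      apply Finset.sum_congr rfl
      intro s _
      rw [← Finset.mul_sum, he1 t s N, pow_add _ (m a t + m b s)]
      ring
  rw [hpoly]
  simp only [Polynomial.eval_finsetSum, Polynomial.eval_mul, Polynomial.eval_C,
        Polynomial.eval_pow, Polynomial.eval_X]
  have h2 : ∀ (x y : Fin n → Bool),
      (∑ t : T a, σ a t * q ^ m a t * st (r a t) x y) *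
      (∑ t : T b, σ b t * q ^ m b t * st (r b t) x y) * ∏ i, ρ (y i) =
      ∑ t : T a, ∑ s : T b, (σ a t * σ b s) * q ^ (m a t + m b s) *
        (st (r a t) x y * st (r b s) x y * ∏ i, ρ (y i)) := by
    intro x y
    rw [Finset.sum_mul_sum, Finset.sum_mul]
    apply Finset.sum_congr rfl
    intro t _
    rw [Finset.sum_mul]
    apply Finset.sum_congr rfl
    intro s _
    rw [pow_add]
    ring
  simp only [h2]
  have h3 : ∀ (t : T a) (s : T b), (σ a t * σ b s) * q ^ (m a t + m b s + e t s) =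
      ∑ x, ∑ y, (σ a t * σ b s) * q ^ (m a t + m b s) *
        (st (r a t) x y * st (r b s) x y * ∏ i, ρ (y i)) := by
    intro t s
    simp only [← Finset.mul_sum]
    rw [he2 t s, pow_add _ (m a t + m b s)]
    ring
  simp only [h3]
  -- reorder
  have h4 : ∀ t : T a, ∑ s : T b, ∑ x, ∑ y, (σ a t * σ b s) * q ^ (m a t + m b s) *
        (st (r a t) x y * st (r b s) x y * ∏ i, ρ (y i)) =
      ∑ x, ∑ y, ∑ s : T b, (σ a t * σ b s) * q ^ (m a t + m b s) *
        (st (r a t) x y * st (r b s) x y * ∏ i, ρ (y i)) := by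
    intro t
    rw [Finset.sum_comm]
    apply Finset.sum_congr rfl
    intro x _
    rw [Finset.sum_comm]
  simp only [h4]
  rw [Finset.sum_comm]
  apply Finset.sum_congr rfl
  intro x _
  rw [Finset.sum_comm]

/-- colourings of a gluing -/
theorem card_gluing {V₁ V₂ V : Type} [Fintype V₁] [Fintype V₂] {n : ℕ} {D₁ : SimpleGraph V₁}
    {b₁ : Fin n ↪ V₁} {D₂ : SimpleGraph V₂} {b₂ : Fin n ↪ V₂} {G : SimpleGraph V}
    (h : IsGluing D₁ b₁ D₂ b₂ G) (N : ℕ) :
    (Nat.card (G.Coloring (Fin (N + 1))) : ℝ) =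
      ∑ β, bdCount D₁ b₁ N β * bdCount D₂ b₂ N β := by
  classical
  obtain ⟨f₁, f₂, hag, hmeet, hcov, rfl⟩ := h
  have e : (D₁.map f₁ ⊔ D₂.map f₂).Coloring (Fin (N + 1)) ≃
      {p : (V₁ → Fin (N + 1)) × (V₂ → Fin (N + 1)) // (∀ u v, D₁.Adj u v → p.1 u ≠ p.1 v) ∧
        (∀ u v, D₂.Adj u v → p.2 u ≠ p.2 v) ∧ ∀ i, p.1 (b₁ i) = p.2 (b₂ i)} := by
    refine Equiv.ofBijective (fun c => ⟨(fun x => c (f₁ x), fun y => c (f₂ y)), ?_, ?_, ?_⟩) ⟨?_, ?_⟩
    · intro u v huv
      apply c.valid
      left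
      exact (SimpleGraph.map_adj _ _ _ _).2 ⟨u, v, huv, rfl, rfl⟩
    · intro u v huv
      apply c.valid
      right
      exact (SimpleGraph.map_adj _ _ _ _).2 ⟨u, v, huv, rfl, rfl⟩
    · intro i
      simp only
      rw [hag]
    · intro c c' hcc
      have h1 := congrArg Subtype.val hcc
      simp only [Prod.mk.injEq] at h1
      ext v
      rcases hcov v with ⟨x, rfl⟩ | ⟨y, rfl⟩
      · exact congrArg _ (congrFun h1.1 x)
      · exact congrArg _ (congrFun h1.2 y)
    · rintro ⟨⟨c1, c2⟩, hc1, hc2, hc⟩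
      simp only at hc1 hc2 hc
      let c : V → Fin (N + 1) := fun v => if hx : ∃ x, f₁ x = v then c1 hx.choose else
        if hy : ∃ y, f₂ y = v then c2 hy.choose else 0
      have e1 : ∀ x, c (f₁ x) = c1 x := by
        intro x
        have hx : ∃ x', f₁ x' = f₁ x := ⟨x, rfl⟩
        simp only [c]
        rw [dif_pos hx]
        rw [f₁.injective hx.choose_spec]
      have e2 : ∀ y, c (f₂ y) = c2 y := by
        intro y
        by_cases hx : ∃ x, f₁ x = f₂ y
        · obtain ⟨x, hx⟩ := hx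
          obtain ⟨i, rfl, rfl⟩ := hmeet x y hx
          rw [← hx, e1, hc]
        · have hy : ∃ y', f₂ y' = f₂ y := ⟨y, rfl⟩
          simp only [c]
          rw [dif_neg hx, dif_pos hy]
          rw [f₂.injective hy.choose_spec]
      refine ⟨SimpleGraph.Coloring.mk c ?_, ?_⟩
      · intro u v huv
        rcases huv with huv | huv
        · obtain ⟨x, y, hxy, rfl, rfl⟩ := (SimpleGraph.map_adj _ _ _ _).1 huv
          rw [e1, e1]; exact hc1 x y hxy
        · obtain ⟨x, y, hxy, rfl, rfl⟩ := (SimpleGraph.map_adj _ _ _ _).1 huv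
          rw [e2, e2]; exact hc2 x y hxy
      · apply Subtype.ext
        apply Prod.ext
        · funext x; exact e1 x
        · funext y; exact e2 y
  rw [Nat.card_congr e]
  have h1 : ∀ {V' : Type} [Fintype V'] (D : SimpleGraph V') (b : Fin n ↪ V')
      (β : Fin n → Fin (N + 1)), bdCount D b N β = ∑ c : V' → Fin (N + 1),
      if (∀ u v, D.Adj u v → c u ≠ c v) ∧ ∀ i, c (b i) = β i then (1 : ℝ) else 0 := by
    intro V' _ D b β
    unfold bdCount
    rw [Nat.card_eq_fintype_card, Fintype.card_subtype]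
    rw [Finset.card_eq_sum_ones, Nat.cast_sum, Finset.sum_filter]
    apply Finset.sum_congr rfl
    intro c _
    split_ifs <;> simp
  rw [Nat.card_eq_fintype_card, Fintype.card_subtype]
  rw [Finset.card_eq_sum_ones, Nat.cast_sum, Finset.sum_filter]
  rw [Fintype.sum_prod_type]
  simp only [h1, Finset.sum_mul_sum, Nat.cast_one]
  refine Eq.trans ?_ Finset.sum_comm
  apply Finset.sum_congr rfl
  intro c1 _
  refine Eq.trans ?_ Finset.sum_comm
  apply Finset.sum_congr rfl
  intro c2 _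
  by_cases hp1 : ∀ u v, D₁.Adj u v → c1 u ≠ c1 v
  · by_cases hp2 : ∀ u v, D₂.Adj u v → c2 u ≠ c2 v
    · by_cases hc : ∀ i, c1 (b₁ i) = c2 (b₂ i)
      · rw [if_pos ⟨hp1, hp2, hc⟩]
        rw [Finset.sum_eq_single (fun i => c1 (b₁ i))]
        · rw [if_pos ⟨hp1, fun i => rfl⟩, if_pos ⟨hp2, fun i => (hc i).symm⟩]; simp
        · intro β _ hβ
          rw [if_neg]
          · simp
          · rintro ⟨_, h⟩
            exact hβ (funext fun i => (h i).symm)
        · simp
      · rw [if_neg (fun hh => hc hh.2.2)]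
        symm
        apply Finset.sum_eq_zero
        intro β _
        by_cases hβ : ∀ i, c1 (b₁ i) = β i
        · rw [if_neg (c := (∀ u v, D₂.Adj u v → c2 u ≠ c2 v) ∧ ∀ i, c2 (b₂ i) = β i)]
          · simp
          · rintro ⟨_, h⟩
            exact hc (fun i => (hβ i).trans (h i).symm)
        · rw [if_neg (fun hh => hβ hh.2)]; simp
    · rw [if_neg (fun hh => hp2 hh.2.1)]
      symm
      apply Finset.sum_eq_zero
      intro β _
      rw [if_neg (c := (∀ u v, D₂.Adj u v → c2 u ≠ c2 v) ∧ ∀ i, c2 (b₂ i) = β i)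
        (fun hh => hp2 hh.1)]
      simp
  · rw [if_neg (fun hh => hp1 hh.1)]
    symm
    apply Finset.sum_eq_zero
    intro β _
    rw [if_neg (fun hh => hp1 hh.1)]
    simp

end Pool.Agent.Helper20.RP
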