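import Pool.Agent.Helper20.RPChain

/-!
# Chromatic polynomials of paths and of two-row strips
-/

set_option autoImplicit false

namespace Pool.Agent.Helper20.RP

open SimpleGraph Finset

/-- counting walks with constant in-degree -/
theorem card_transfer {X : Type} [Finite X] (A : X → Prop) (R : X → X → Prop) (K : ℕ)
    (hK : ∀ y, A y → Nat.card {x // A x ∧ R x y} = K) (k : ℕ) :
    Nat.card {c : Fin (k + 1) → X // (∀ i, A (c i)) ∧ ∀ i : Fin k, R (c i.castSucc) (c i.succ)} =
      Nat.card {x // A x} * K ^ k := by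
  classical
  have _ : Fintype X := Fintype.ofFinite _
  induction k with
  | zero =>
    rw [pow_zero, mul_one]
    refine Nat.card_congr ⟨fun c => ⟨c.1 0, c.2.1 0⟩, fun x => ⟨fun _ => x.1, fun _ => x.2,
      fun i => i.elim0⟩, ?_, ?_⟩
    · rintro ⟨c, hc⟩
      apply Subtype.ext
      funext i
      have : i = 0 := Fin.ext (by have := i.isLt; simp)
      rw [this]
    · rintro ⟨x, hx⟩
      rfl
  | succ k ih =>
    have e : {c : Fin (k + 2) → X // (∀ i, A (c i)) ∧ ∀ i : Fin (k + 1),
        R (c i.castSucc) (c i.succ)} ≃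
        Σ c' : {c : Fin (k + 1) → X // (∀ i, A (c i)) ∧ ∀ i : Fin k, R (c i.castSucc) (c i.succ)},
          {x // A x ∧ R x (c'.1 0)} :=
      { toFun := fun c => ⟨⟨fun i => c.1 i.succ, fun i => c.2.1 _, fun i => by
            have := c.2.2 i.succ
            rwa [← Fin.succ_castSucc] at this⟩, ⟨c.1 0, c.2.1 0, c.2.2 0⟩⟩
        invFun := fun p => ⟨Fin.cons p.2.1 p.1.1, by
            intro i
            refine Fin.cases ?_ ?_ i
            · simpa using p.2.2.1
            · intro j; simpa using p.1.2.1 j, by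
            intro i
            refine Fin.cases ?_ ?_ i
            · simpa using p.2.2.2
            · intro j
              rw [← Fin.succ_castSucc, Fin.cons_succ, Fin.cons_succ]
              exact p.1.2.2 j⟩
        left_inv := by
          rintro ⟨c, hc⟩
          apply Subtype.ext
          funext i
          refine Fin.cases ?_ ?_ i
          · simp
          · intro j; simp
        right_inv := by
          rintro ⟨⟨c, hc⟩, ⟨x, hx⟩⟩
          rfl }
    rw [Nat.card_congr e, Nat.card_sigma]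
    have h1 : ∀ c' : {c : Fin (k + 1) → X // (∀ i, A (c i)) ∧
        ∀ i : Fin k, R (c i.castSucc) (c i.succ)}, Nat.card {x // A x ∧ R x (c'.1 0)} = K :=
      fun c' => hK _ (c'.2.1 0)
    simp only [h1]
    rw [Finset.sum_const, Finset.card_univ, ← Nat.card_eq_fintype_card, ih]
    simp only [smul_eq_mul]
    ring

/-- colourings as functions -/
theorem card_coloring {V C : Type} (G : SimpleGraph V) :
    Nat.card (G.Coloring C) = Nat.card {c : V → C // ∀ u v, G.Adj u v → c u ≠ c v} := by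
  refine Nat.card_congr ⟨fun c => ⟨fun v => c v, fun u v h => c.valid h⟩,
    fun c => SimpleGraph.Coloring.mk c.1 (fun {u v} h => c.2 u v h), ?_, ?_⟩
  · intro c; ext; rfl
  · intro c; rfl

theorem card_avoid1 (n : ℕ) (y : Fin n) : Nat.card {x : Fin n // x ≠ y} = n - 1 := by
  rw [Nat.card_eq_fintype_card, Fintype.card_subtype_compl, Fintype.card_fin]
  simp

theorem weak_path {m : ℕ} (E : ℕ → Fin (m + 1) → Fin (m + 1) → Prop) :
    WeakCP (strip (pathGraph (m + 1)) E 0) (Polynomial.X * (Polynomial.X - 1) ^ m) := by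
  intro N
  rw [card_coloring]
  have e : {c : Fin (0 + 1) × Fin (m + 1) → Fin (N + 1) //
      ∀ u v, (strip (pathGraph (m + 1)) E 0).Adj u v → c u ≠ c v} ≃
      {c : Fin (m + 1) → Fin (N + 1) // (∀ _ : Fin (m + 1), True) ∧
        ∀ i : Fin m, c i.castSucc ≠ c i.succ} :=
    { toFun := fun c => ⟨fun i => c.1 (0, i), fun _ => trivial, fun i => by
          apply c.2
          refine Or.inl ⟨rfl, ?_⟩
          rw [pathGraph_adj]
          left; simp⟩
      invFun := fun c => ⟨fun u => c.1 u.2, by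
          intro u v h
          have hu := u.1.isLt
          have hv := v.1.isLt
          rcases strip_adj.1 h with h | h | h
          · have h2 := h.2
            rw [pathGraph_adj] at h2
            rcases h2 with h2 | h2
            · have h3 := c.2.2 ⟨u.2.val, by have := v.2.isLt; omega⟩
              have e1 : (⟨u.2.val, by have := v.2.isLt; omega⟩ : Fin m).castSucc = u.2 :=
                Fin.ext rfl
              have e2 : (⟨u.2.val, by have := v.2.isLt; omega⟩ : Fin m).succ = v.2 :=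
                Fin.ext (by simp [h2])
              rw [e1, e2] at h3
              exact h3
            · have h3 := c.2.2 ⟨v.2.val, by have := u.2.isLt; omega⟩
              have e1 : (⟨v.2.val, by have := u.2.isLt; omega⟩ : Fin m).castSucc = v.2 :=
                Fin.ext rfl
              have e2 : (⟨v.2.val, by have := u.2.isLt; omega⟩ : Fin m).succ = u.2 :=
                Fin.ext (by simp [h2])
              rw [e1, e2] at h3
              exact h3.symm
          · omega
          · omega⟩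
      left_inv := by
        rintro ⟨c, hc⟩
        apply Subtype.ext
        funext u
        have : u.1 = 0 := Fin.ext (by have := u.1.isLt; simp)
        simp only
        congr 1
        exact Prod.ext this.symm rfl
      right_inv := by
        rintro ⟨c, hc⟩
        rfl }
  rw [Nat.card_congr e]
  have h := card_transfer (X := Fin (N + 1)) (fun _ => True) (fun x y => x ≠ y) N (by
    intro y _
    have := card_avoid1 (N + 1) y
    simpa using this) m
  rw [h]
  simp

/-- the properness of a colouring of a two-row strip -/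
theorem card_two_rows {m N : ℕ} (E : ℕ → Fin (m + 1) → Fin (m + 1) → Prop) (b : Prop)
    (hE : ∀ i j : Fin (m + 1), E 0 i j ↔ (i = j ∨ (b ∧ j.val + 1 = i.val))) :
    Nat.card ((strip (pathGraph (m + 1)) E 1).Coloring (Fin N)) =
    Nat.card {c : Fin (m + 1) → Fin N × Fin N // (∀ i, (c i).1 ≠ (c i).2) ∧
      ∀ i : Fin m, (fun x y : Fin N × Fin N => x.1 ≠ y.1 ∧ x.2 ≠ y.2 ∧ (b → x.2 ≠ y.1))
        (c i.castSucc) (c i.succ)} := by
  rw [card_coloring]
  refine Nat.card_congr
    { toFun := fun c => ⟨fun i => (c.1 (0, i), c.1 (1, i)), ?_, ?_⟩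
      invFun := fun c => ⟨fun u => if u.1 = 0 then (c.1 u.2).1 else (c.1 u.2).2, ?_⟩
      left_inv := ?_
      right_inv := ?_ }
  · intro i
    apply c.2
    refine Or.inr (Or.inl ⟨rfl, ?_⟩)
    exact (hE i i).2 (Or.inl rfl)
  · intro i
    refine ⟨?_, ?_, ?_⟩
    · apply c.2
      refine Or.inl ⟨rfl, ?_⟩
      rw [pathGraph_adj]; left; simp
    · apply c.2
      refine Or.inl ⟨rfl, ?_⟩
      rw [pathGraph_adj]; left; simp
    · intro hb
      apply c.2
      refine Or.inr (Or.inr ⟨rfl, ?_⟩)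
      exact (hE _ _).2 (Or.inr ⟨hb, by simp⟩)
  · obtain ⟨c, hc1, hc2⟩ := c
    simp only at hc2
    -- consecutive positions
    have hstep : ∀ x y : Fin (m + 1), x.val + 1 = y.val → (c x).1 ≠ (c y).1 ∧ (c x).2 ≠ (c y).2 ∧
        (b → (c x).2 ≠ (c y).1) := by
      intro x y hxy
      have h3 := hc2 ⟨x.val, by have := y.isLt; omega⟩
      have e1 : (⟨x.val, by have := y.isLt; omega⟩ : Fin m).castSucc = x := Fin.ext rfl
      have e2 : (⟨x.val, by have := y.isLt; omega⟩ : Fin m).succ = y := Fin.ext (by simp [hxy])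
      rw [e1, e2] at h3
      exact h3
    have hdir : ∀ u v : Fin (1 + 1) × Fin (m + 1), ((u.1 = v.1 ∧ u.2.val + 1 = v.2.val) ∨
        (u.1.val + 1 = v.1.val ∧ E u.1.val u.2 v.2)) →
        (if u.1 = 0 then (c u.2).1 else (c u.2).2) ≠ (if v.1 = 0 then (c v.2).1 else (c v.2).2) := by
      intro u v h
      rcases h with h | h
      · have h3 := hstep _ _ h.2
        rw [h.1]
        by_cases h0 : v.1 = 0
        · rw [if_pos h0, if_pos h0]; exact h3.1
        · rw [if_neg h0, if_neg h0]; exact h3.2.1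
      · have hv := v.1.isLt
        have hu0 : u.1 = 0 := Fin.ext (by simp; omega)
        have hv1 : v.1 ≠ 0 := by
          intro hh; rw [hh] at h; simp at h
        rw [if_pos hu0, if_neg hv1]
        have h2 := h.2
        rw [hu0] at h2
        rcases (hE _ _).1 h2 with h4 | ⟨hb, h4⟩
        · rw [h4]; exact hc1 _
        · exact fun hh => (hstep _ _ h4).2.2 hb hh.symm
    intro u v h
    simp only
    rcases strip_adj.1 h with h | h | h
    · have h2 := h.2
      rw [pathGraph_adj] at h2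
      rcases h2 with h2 | h2
      · exact hdir u v (Or.inl ⟨h.1, h2⟩)
      · exact (hdir v u (Or.inl ⟨h.1.symm, h2⟩)).symm
    · exact hdir u v (Or.inr h)
    · exact (hdir v u (Or.inr h)).symm
  · rintro ⟨c, hc⟩
    apply Subtype.ext
    funext u
    simp only
    by_cases h0 : u.1 = 0
    · rw [if_pos h0]
      congr 1
      exact Prod.ext h0.symm rfl
    · rw [if_neg h0]
      have h1 : u.1 = 1 := by
        have := u.1.isLt
        have h2 : u.1.val ≠ 0 := fun hh => h0 (Fin.ext hh)
        exact Fin.ext (by simp; omega)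
      congr 1
      exact Prod.ext h1.symm rfl
  · rintro ⟨c, hc⟩
    apply Subtype.ext
    funext i
    simp

theorem card_pairs_ne (n : ℕ) : Nat.card {x : Fin n × Fin n // x.1 ≠ x.2} = n * (n - 1) := by
  have e : {x : Fin n × Fin n // x.1 ≠ x.2} ≃ Σ a : Fin n, {b : Fin n // b ≠ a} :=
    { toFun := fun x => ⟨x.1.1, ⟨x.1.2, x.2.symm⟩⟩
      invFun := fun x => ⟨(x.1, x.2.1), x.2.2.symm⟩
      left_inv := fun x => rfl
      right_inv := fun x => rfl }
  rw [Nat.card_congr e, Nat.card_sigma]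
  simp [card_avoid1]

theorem card_avoid2 (n : ℕ) (y z : Fin n) (h : y ≠ z) :
    Nat.card {x : Fin n // x ≠ y ∧ x ≠ z} = n - 2 := by
  rw [Nat.card_eq_fintype_card, Fintype.card_subtype]
  have : (univ.filter (fun x : Fin n => x ≠ y ∧ x ≠ z)) = ({y, z} : Finset (Fin n))ᶜ := by
    ext x; simp
  rw [this, Finset.card_compl, Fintype.card_fin, Finset.card_pair h]

/-- in-degree for the square ladder -/
theorem card_square (n : ℕ) (y : Fin n × Fin n) (hy : y.1 ≠ y.2) :
    Nat.card {x : Fin n × Fin n // x.1 ≠ x.2 ∧ (x.1 ≠ y.1 ∧ x.2 ≠ y.2 ∧ (False → x.2 ≠ y.1))} =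
      (n - 1) + (n - 2) * (n - 2) := by
  classical
  have e : {x : Fin n × Fin n // x.1 ≠ x.2 ∧ (x.1 ≠ y.1 ∧ x.2 ≠ y.2 ∧ (False → x.2 ≠ y.1))} ≃
      Σ a : {a : Fin n // a ≠ y.1}, {b : Fin n // b ≠ a.1 ∧ b ≠ y.2} :=
    { toFun := fun x => ⟨⟨x.1.1, x.2.2.1⟩, ⟨x.1.2, x.2.1.symm, x.2.2.2.1⟩⟩
      invFun := fun x => ⟨(x.1.1, x.2.1), x.2.2.1.symm, x.1.2, x.2.2.2, fun h => h.elim⟩
      left_inv := fun x => rfl
      right_inv := fun x => rfl }
  rw [Nat.card_congr e, Nat.card_sigma]
  have h1 : ∀ a : {a : Fin n // a ≠ y.1}, Nat.card {b : Fin n // b ≠ a.1 ∧ b ≠ y.2} =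
      if a.1 = y.2 then n - 1 else n - 2 := by
    intro a
    split_ifs with h
    · rw [h]
      simpa using card_avoid1 n y.2
    · exact card_avoid2 n _ _ h
  simp only [h1]
  have a0 : {a : Fin n // a ≠ y.1} := ⟨y.2, hy.symm⟩
  rw [← Finset.add_sum_erase univ _ (Finset.mem_univ (⟨y.2, hy.symm⟩ : {a : Fin n // a ≠ y.1}))]
  simp only [if_true]
  congr 1
  rw [Finset.sum_congr rfl (g := fun _ => n - 2)]
  · rw [Finset.sum_const, Finset.card_erase_of_mem (Finset.mem_univ _), Finset.card_univ,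
      ← Nat.card_eq_fintype_card, card_avoid1]
    simp only [smul_eq_mul]
    congr 1
  · intro a ha
    rw [if_neg]
    intro hh
    exact (Finset.mem_erase.1 ha).1 (Subtype.ext hh)

/-- in-degree for the triangular ladder -/
theorem card_tri (n : ℕ) (y : Fin n × Fin n) (hy : y.1 ≠ y.2) :
    Nat.card {x : Fin n × Fin n // x.1 ≠ x.2 ∧ (x.1 ≠ y.1 ∧ x.2 ≠ y.2 ∧ (True → x.2 ≠ y.1))} =
      (n - 2) * (n - 2) := by
  classical
  have e : {x : Fin n × Fin n // x.1 ≠ x.2 ∧ (x.1 ≠ y.1 ∧ x.2 ≠ y.2 ∧ (True → x.2 ≠ y.1))} ≃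
      Σ b : {b : Fin n // b ≠ y.1 ∧ b ≠ y.2}, {a : Fin n // a ≠ b.1 ∧ a ≠ y.1} :=
    { toFun := fun x => ⟨⟨x.1.2, x.2.2.2.2 trivial, x.2.2.2.1⟩, ⟨x.1.1, x.2.1, x.2.2.1⟩⟩
      invFun := fun x => ⟨(x.2.1, x.1.1), x.2.2.1, x.2.2.2, x.1.2.2, fun _ => x.1.2.1⟩
      left_inv := fun x => rfl
      right_inv := fun x => rfl }
  rw [Nat.card_congr e, Nat.card_sigma]
  have h1 : ∀ b : {b : Fin n // b ≠ y.1 ∧ b ≠ y.2}, Nat.card {a : Fin n // a ≠ b.1 ∧ a ≠ y.1} =
      n - 2 := fun b => card_avoid2 n _ _ b.2.1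
  simp only [h1]
  rw [Finset.sum_const, Finset.card_univ, ← Nat.card_eq_fintype_card, card_avoid2 n _ _ hy]
  rfl

theorem weak_square {m : ℕ} (E : ℕ → Fin (m + 1) → Fin (m + 1) → Prop)
    (hE : ∀ i j : Fin (m + 1), E 0 i j ↔ i = j) :
    WeakCP (strip (pathGraph (m + 1)) E 1)
      (Polynomial.X * (Polynomial.X - 1) * (Polynomial.X ^ 2 - 3 * Polynomial.X + 3) ^ m) := by
  intro N
  rw [card_two_rows E False (by intro i j; simp [hE])]
  rw [card_transfer (X := Fin (N + 1) × Fin (N + 1)) (fun x => x.1 ≠ x.2)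
    (fun x y => x.1 ≠ y.1 ∧ x.2 ≠ y.2 ∧ (False → x.2 ≠ y.1)) _ (card_square (N + 1)) m]
  rw [card_pairs_ne]
  simp only [Polynomial.eval_mul, Polynomial.eval_X, Polynomial.eval_sub, Polynomial.eval_one,
    Polynomial.eval_pow, Polynomial.eval_add, Polynomial.eval_ofNat]
  rcases N with _ | N
  · simp
  · have e1 : N + 1 + 1 - 1 = N + 1 := by omega
    have e2 : N + 1 + 1 - 2 = N := by omega
    rw [e1, e2]
    push_cast
    ring

theorem weak_tri {m : ℕ} (E : ℕ → Fin (m + 1) → Fin (m + 1) → Prop)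
    (hE : ∀ i j : Fin (m + 1), E 0 i j ↔ (i = j ∨ j.val + 1 = i.val)) :
    WeakCP (strip (pathGraph (m + 1)) E 1)
      (Polynomial.X * (Polynomial.X - 1) * (Polynomial.X - 2) ^ (2 * m)) := by
  intro N
  rw [card_two_rows E True (by intro i j; simp [hE])]
  rw [card_transfer (X := Fin (N + 1) × Fin (N + 1)) (fun x => x.1 ≠ x.2)
    (fun x y => x.1 ≠ y.1 ∧ x.2 ≠ y.2 ∧ (True → x.2 ≠ y.1)) _ (card_tri (N + 1)) m]
  rw [card_pairs_ne]
  simp only [Polynomial.eval_mul, Polynomial.eval_X, Polynomial.eval_sub, Polynomial.eval_one,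
    Polynomial.eval_pow, Polynomial.eval_ofNat]
  rcases N with _ | N
  · simp
  · have e1 : N + 1 + 1 - 1 = N + 1 := by omega
    have e2 : N + 1 + 1 - 2 = N := by omega
    rw [e1, e2, pow_mul]
    push_cast
    ring

end Pool.Agent.Helper20.RP
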