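import Mathlib

/-!
# Definitions for the reflection positivity of chromatic polynomials
-/

set_option autoImplicit false

namespace Pool.Agent.Helper20

/-- `NoCross D b`: in the graph `D` with the boundary vertices `b 0, b 1, …, b (n-1)` (in this
order) any walk from `b i` to `b k` and any walk from `b j` to `b l`, where `i < j < k < l`, have a
common vertex. Every plane graph `D` with `b 0, …, b (n-1)` on the boundary of its outer face in
this cyclic order has this property. -/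
def NoCross {V : Type} {n : ℕ} (D : SimpleGraph V) (b : Fin n ↪ V) : Prop :=
  ∀ i j k l : Fin n, i < j → j < k → k < l →
    ∀ (w : D.Walk (b i) (b k)) (w' : D.Walk (b j) (b l)), ∃ v, v ∈ w.support ∧ v ∈ w'.support

/-- `IsGluing D₁ b₁ D₂ b₂ G`: the graph `G` is obtained from `D₁` and `D₂` by identifying the
boundary vertex `b₁ i` of `D₁` with the boundary vertex `b₂ i` of `D₂` for every `i`. -/
def IsGluing {V₁ V₂ V : Type} {n : ℕ} (D₁ : SimpleGraph V₁) (b₁ : Fin n ↪ V₁)
    (D₂ : SimpleGraph V₂) (b₂ : Fin n ↪ V₂) (G : SimpleGraph V) : Prop :=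
  ∃ (f₁ : V₁ ↪ V) (f₂ : V₂ ↪ V),
    (∀ i, f₁ (b₁ i) = f₂ (b₂ i)) ∧
    (∀ x y, f₁ x = f₂ y → ∃ i, x = b₁ i ∧ y = b₂ i) ∧
    (∀ v, v ∈ Set.range f₁ ∨ v ∈ Set.range f₂) ∧
    G = D₁.map f₁ ⊔ D₂.map f₂

/-- `p` is the chromatic polynomial of the graph `G`. -/
def IsChromaticPolynomial {V : Type} (G : SimpleGraph V) (p : Polynomial ℝ) : Prop :=
  ∀ N : ℕ, p.eval (N : ℝ) = (Nat.card (G.Coloring (Fin N)) : ℝ)

end Pool.Agent.Helper20
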