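import Mathlib

set_option autoImplicit false

namespace Pool.Agent.Helper20

/-- The strip of the triangular lattice with `L` rows of `m` vertices each. The vertex `(r, i)` lies
in row `r` at the horizontal position `2 * i + r % 2`; two vertices are adjacent when they lie in the
same row at distance `2`, or in consecutive rows at horizontal distance `1`. -/
def triangularStrip (L m : ℕ) : SimpleGraph (Fin L × Fin m) where
  Adj u v :=
    (u.1 = v.1 ∧ (u.2.val + 1 = v.2.val ∨ v.2.val + 1 = u.2.val)) ∨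
    ((u.1.val + 1 = v.1.val ∨ v.1.val + 1 = u.1.val) ∧
      (2 * u.2.val + u.1.val % 2 + 1 = 2 * v.2.val + v.1.val % 2 ∨
        2 * v.2.val + v.1.val % 2 + 1 = 2 * u.2.val + u.1.val % 2))
  symm := ⟨by
    intro u v h
    rcases h with ⟨h1, h2⟩ | ⟨h1, h2⟩
    · exact Or.inl ⟨h1.symm, h2.symm⟩
    · exact Or.inr ⟨h1.symm, h2.symm⟩⟩
  loopless := ⟨by
    intro u h
    rcases h with ⟨_, h2⟩ | ⟨h1, _⟩ <;> omega⟩

end Pool.Agent.Helper20
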