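import Pool.Agent.Helper20.RPCount
import Pool.Agent.Helper20.TriStripDef

/-!
# Square grids and triangular strips
-/

set_option autoImplicit false

namespace Pool.Agent.Helper20

open SimpleGraph RP

theorem RP.pathlike_path (m : ℕ) : Pathlike (pathGraph m) := by
  intro i j h
  rw [pathGraph_adj] at h
  exact h

/-- the equality pattern -/
def RP.eqPat (m : ℕ) : ℕ → Fin m → Fin m → Prop := fun _ i j => i = j

/-- the triangular pattern -/
def RP.triPat (m : ℕ) : ℕ → Fin m → Fin m → Prop := fun r i j =>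
  (2 * i.val + r % 2 + 1 = 2 * j.val + (r + 1) % 2 ∨
    2 * j.val + (r + 1) % 2 + 1 = 2 * i.val + r % 2)

theorem RP.tri_eqPat (m : ℕ) : Tri (eqPat m) := by
  intro r i j h
  have h' : i = j := h
  subst h'
  omega

theorem RP.mirror_eqPat (m : ℕ) : Mirror (eqPat m) := fun _ _ _ => eq_comm

theorem RP.tri_triPat (m : ℕ) : Tri (triPat m) := fun _ _ _ h => h

theorem RP.mirror_triPat (m : ℕ) : Mirror (triPat m) := by
  intro r i j
  simp only [triPat]
  omega

theorem RP.strip_eq_box (m L : ℕ) :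
    strip (pathGraph m) (eqPat m) L = pathGraph (L + 1) □ pathGraph m := by
  ext u v
  rw [strip_adj, boxProd_adj, pathGraph_adj, pathGraph_adj]
  simp only [eqPat]
  constructor
  · rintro (h | h | h)
    · exact Or.inr ⟨h.2, h.1⟩
    · exact Or.inl ⟨Or.inl h.1, h.2⟩
    · exact Or.inl ⟨Or.inr h.1, h.2.symm⟩
  · rintro (⟨h1 | h1, h2⟩ | ⟨h1, h2⟩)
    · exact Or.inr (Or.inl ⟨h1, h2⟩)
    · exact Or.inr (Or.inr ⟨h1, h2.symm⟩)
    · exact Or.inl ⟨h2, h1⟩

theorem RP.strip_eq_tri (m L : ℕ) :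
    strip (pathGraph m) (triPat m) L = triangularStrip (L + 1) m := by
  ext u v
  rw [strip_adj, pathGraph_adj]
  simp only [triPat, triangularStrip]
  constructor
  · rintro (h | ⟨h1, h2⟩ | ⟨h1, h2⟩)
    · exact Or.inl h
    · right
      rw [← h1]
      exact ⟨Or.inl rfl, h2⟩
    · right
      rw [← h1]
      exact ⟨Or.inr rfl, h2.symm⟩
  · rintro (h | ⟨h1 | h1, h2⟩)
    · exact Or.inl h
    · right; left
      rw [← h1] at h2
      exact ⟨h1, h2⟩
    · right; right
      rw [← h1] at h2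
      exact ⟨h1, h2.symm⟩

theorem RP.path_pos {q : ℝ} (hq : 4 ≤ q) (m : ℕ) :
    (Polynomial.X * (Polynomial.X - 1) ^ m : Polynomial ℝ).eval q = q * (q - 1) ^ m := by
  simp

/-- **Square grids.** -/
theorem square_grid (k m : ℕ) (p : Polynomial ℝ)
    (hp : IsChromaticPolynomial (pathGraph (2 * k + 1) □ pathGraph (m + 1)) p)
    (q : ℝ) (hq : 4 ≤ q) :
    q * (q - 1) ^ m * (((q - 1) * ((q ^ 2 - 3 * q + 3) / (q - 1)) ^ m) ^ 2) ^ k ≤ p.eval q := by
  rw [← strip_eq_box] at hp
  have h0 := weak_path (m := m) (eqPat (m + 1))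
  have h1 := weak_square (m := m) (eqPat (m + 1)) (fun i j => Iff.rfl)
  have hq1 : 0 < q - 1 := by linarith
  have hq0 : 0 < q := by linarith
  have hq3 : 0 < q ^ 2 - 3 * q + 3 := by nlinarith
  have e0 : (Polynomial.X * (Polynomial.X - 1) ^ m : Polynomial ℝ).eval q = q * (q - 1) ^ m :=
    path_pos hq m
  have e1 : (Polynomial.X * (Polynomial.X - 1) * (Polynomial.X ^ 2 - 3 * Polynomial.X + 3) ^ m :
      Polynomial ℝ).eval q = q * (q - 1) * (q ^ 2 - 3 * q + 3) ^ m := by
    simp
  have hpos0 : 0 < q * (q - 1) ^ m := by positivity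
  have hpos1 : 0 < q * (q - 1) * (q ^ 2 - 3 * q + 3) ^ m := by positivity
  have hmain := strip_chain (pathlike_path (m + 1)) (tri_eqPat (m + 1)) (mirror_eqPat (m + 1))
    h0 h1 hq (by rw [e0]; exact hpos0) (by rw [e1]; exact hpos1.ne') k (weak_of_cp hp)
  rw [e0, e1] at hmain
  refine le_trans (le_of_eq ?_) hmain
  congr 3
  rw [div_pow, eq_div_iff hpos0.ne']
  field_simp

/-- **Triangular strips.** -/
theorem triangular_strip (k m : ℕ) (p : Polynomial ℝ)
    (hp : IsChromaticPolynomial (triangularStrip (2 * k + 1) (m + 1)) p)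
    (q : ℝ) (hq : 4 ≤ q) :
    q * (q - 1) ^ m * (((q - 1) * ((q - 2) ^ 2 / (q - 1)) ^ m) ^ 2) ^ k ≤ p.eval q := by
  rw [← strip_eq_tri] at hp
  have h0 := weak_path (m := m) (triPat (m + 1))
  have h1 := weak_tri (m := m) (triPat (m + 1)) (fun i j => by
    simp only [triPat]
    constructor
    · intro h
      by_cases hij : i = j
      · exact Or.inl hij
      · right
        have : i.val ≠ j.val := fun hh => hij (Fin.ext hh)
        omega
    · rintro (rfl | h)
      · omega
      · omega)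
  have hq1 : 0 < q - 1 := by linarith
  have hq0 : 0 < q := by linarith
  have hq3 : 0 < q - 2 := by linarith
  have e0 : (Polynomial.X * (Polynomial.X - 1) ^ m : Polynomial ℝ).eval q = q * (q - 1) ^ m :=
    path_pos hq m
  have e1 : (Polynomial.X * (Polynomial.X - 1) * (Polynomial.X - 2) ^ (2 * m) :
      Polynomial ℝ).eval q = q * (q - 1) * (q - 2) ^ (2 * m) := by
    simp
  have hpos0 : 0 < q * (q - 1) ^ m := by positivity
  have hpos1 : 0 < q * (q - 1) * (q - 2) ^ (2 * m) := by positivity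
  have hmain := strip_chain (pathlike_path (m + 1)) (tri_triPat (m + 1)) (mirror_triPat (m + 1))
    h0 h1 hq (by rw [e0]; exact hpos0) (by rw [e1]; exact hpos1.ne') k (weak_of_cp hp)
  rw [e0, e1] at hmain
  refine le_trans (le_of_eq ?_) hmain
  congr 3
  rw [div_pow, eq_div_iff hpos0.ne', pow_mul]
  field_simp

end Pool.Agent.Helper20
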