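import Mathlib

/-!
# States of noncrossing partitions

For a real `q ≥ 4` every noncrossing partition of a finite linear order gets a vector (`RV`), and the
inner product of two such vectors is `q ^ e` where `N ^ e` is, for every number `N` of colours, the
number of colourings constant on the classes of both partitions.
-/

set_option autoImplicit false

namespace Pool.Agent.Helper20.RP

open Finset Function

variable {α : Type} [LinearOrder α]

/-- families of functions of colourings with `N + 1` colours -/
abbrev PV (α : Type) := (N : ℕ) → (α → Fin (N + 1)) → ℝ

/-- functions of two two-valued labellings -/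
abbrev RV (α : Type) := (α → Bool) → (α → Bool) → ℝ

/-- generated pairs (combinatorial state, real state) -/
inductive Gen (ρ : Bool → ℝ) : Finset α → PV α → RV α → Prop
  | nil : Gen ρ ∅ (fun _ _ => 1) (fun _ _ => 1)
  | ins {S : Finset α} {V : PV α} {v : RV α} (i : α) (hi : i ∉ S) (h : Gen ρ S V v) :
      Gen ρ (insert i S) V (fun x y => if x i = y i then v x y else 0)
  | dup {S : Finset α} {V : PV α} {v : RV α} (i j : α) (hi : i ∈ S) (hj : j ∉ S) (hij : i < j)
      (hadj : ∀ k ∈ S, i < k → k < j → False) (h : Gen ρ S V v) :
      Gen ρ (insert j S) (fun N c => if c i = c j then V N c else 0)
        (fun x y => if y i = x j then (ρ (x j))⁻¹ * v x (update y i (y j)) else 0)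
  | rel {S : Finset α} {V : PV α} {v : RV α} (i j : α) (hi : i ∈ S) (hj : j ∉ S)
      (hadj : ∀ k ∈ S, k ≠ i → (k < i ↔ k < j)) (h : Gen ρ S V v) :
      Gen ρ (insert j (S.erase i)) (fun N c => V N (update c i (c j)))
        (fun x y => v (update x i (x j)) (update y i (y j)))

variable {ρ : Bool → ℝ}

theorem Gen.depV {S : Finset α} {V : PV α} {v : RV α} (h : Gen ρ S V v) :
    ∀ (N : ℕ) (c c' : α → Fin (N + 1)), (∀ i ∈ S, c i = c' i) → V N c = V N c' := by
  induction h with
  | nil => intro N c c' _; rfl
  | ins i hi h ih =>
    intro N c c' hc
    exact ih N c c' (fun t ht => hc t (mem_insert_of_mem ht))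
  | dup i j hi hj hij hadj h ih =>
    intro N c c' hc
    have h1 := hc i (mem_insert_of_mem hi)
    have h2 := hc j (mem_insert_self _ _)
    simp only [h1, h2]
    rw [ih N c c' (fun t ht => hc t (mem_insert_of_mem ht))]
  | rel i j hi hj hadj h ih =>
    intro N c c' hc
    apply ih
    intro t ht
    have h2 := hc j (mem_insert_self _ _)
    by_cases hti : t = i
    · subst hti; simp [h2]
    · rw [update_of_ne hti, update_of_ne hti]
      exact hc t (mem_insert_of_mem (mem_erase.2 ⟨hti, ht⟩))

theorem Gen.depR {S : Finset α} {V : PV α} {v : RV α} (h : Gen ρ S V v) :
    ∀ (x x' y y' : α → Bool), (∀ i ∈ S, x i = x' i) → (∀ i ∈ S, y i = y' i) →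
      v x y = v x' y' := by
  induction h with
  | nil => intro x x' y y' _ _; rfl
  | ins i hi h ih =>
    intro x x' y y' hx hy
    have h1 := hx i (mem_insert_self _ _)
    have h2 := hy i (mem_insert_self _ _)
    simp only [h1, h2]
    rw [ih x x' y y' (fun t ht => hx t (mem_insert_of_mem ht))
      (fun t ht => hy t (mem_insert_of_mem ht))]
  | dup i j hi hj hij hadj h ih =>
    intro x x' y y' hx hy
    have h1 := hx j (mem_insert_self _ _)
    have h2 := hy i (mem_insert_of_mem hi)
    have h3 := hy j (mem_insert_self _ _)
    simp only [h1, h2, h3]
    rw [ih x x' (update y i (y' j)) (update y' i (y' j))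
      (fun t ht => hx t (mem_insert_of_mem ht)) ?_]
    intro t ht
    by_cases hti : t = i
    · subst hti; simp
    · rw [update_of_ne hti, update_of_ne hti]
      exact hy t (mem_insert_of_mem ht)
  | rel i j hi hj hadj h ih =>
    intro x x' y y' hx hy
    have h2 := hx j (mem_insert_self _ _)
    have h3 := hy j (mem_insert_self _ _)
    apply ih
    · intro t ht
      by_cases hti : t = i
      · subst hti; simp [h2]
      · rw [update_of_ne hti, update_of_ne hti]
        exact hx t (mem_insert_of_mem (mem_erase.2 ⟨hti, ht⟩))
    · intro t ht
      by_cases hti : t = i
      · subst hti; simp [h3]
      · rw [update_of_ne hti, update_of_ne hti]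
        exact hy t (mem_insert_of_mem (mem_erase.2 ⟨hti, ht⟩))

theorem Gen.congr' {S S' : Finset α} {V V' : PV α} {v v' : RV α} (h : Gen ρ S V v)
    (hS : S = S') (hV : ∀ N c, V N c = V' N c) (hv : ∀ x y, v x y = v' x y) : Gen ρ S' V' v' := by
  have h1 : V = V' := by funext N c; exact hV N c
  have h2 : v = v' := by funext x y; exact hv x y
  subst hS h1 h2
  exact h

/-- closure under contraction with a singleton -/
theorem Gen.contract {q : ℝ} (hρ : ∀ a, 0 < ρ a) (hq : ∑ a, ρ a = q)
    {S : Finset α} {V : PV α} {v : RV α} (h : Gen ρ S V v) :
    ∀ k ∈ S, ∃ (V' : PV α) (v' : RV α) (ε : ℕ), Gen ρ (S.erase k) V' v' ∧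
      (∀ N c, ∑ a, V N (update c k a) = ((N : ℝ) + 1) ^ ε * V' N c) ∧
      (∀ x y, ∑ a, ρ a * v (update x k a) (update y k a) = q ^ ε * v' x y) := by
  induction h with
  | nil => intro k hk; simp at hk
  | @ins S V v i hi h ih =>
    intro k hk
    by_cases hki : k = i
    · subst hki
      refine ⟨V, v, 1, ?_, ?_, ?_⟩
      · rw [erase_insert hi]; exact h
      · intro N c
        have : ∀ a, V N (update c k a) = V N c := by
          intro a
          apply h.depV
          intro t ht
          have : t ≠ k := fun hh => hi (hh ▸ ht)
          simp [update_of_ne this]
        simp [this]
      · intro x y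
        have : ∀ a, v (update x k a) (update y k a) = v x y := by
          intro a
          apply h.depR
          · intro t ht
            have : t ≠ k := fun hh => hi (hh ▸ ht)
            simp [update_of_ne this]
          · intro t ht
            have : t ≠ k := fun hh => hi (hh ▸ ht)
            simp [update_of_ne this]
        simp only [update_self, if_true, this]
        rw [← Finset.sum_mul, hq, pow_one]
    · have hkS : k ∈ S := by
        rcases mem_insert.1 hk with h1 | h1
        · exact absurd h1 hki
        · exact h1
      obtain ⟨V', v', ε, hG, hV, hv⟩ := ih k hkS
      refine ⟨V', fun x y => if x i = y i then v' x y else 0, ε, ?_, hV, ?_⟩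
      · have h1 : (insert i S).erase k = insert i (S.erase k) := by
          rw [erase_insert_of_ne (Ne.symm hki)]
        rw [h1]
        exact Gen.ins i (fun hh => hi (mem_of_mem_erase hh)) hG
      · intro x y
        have hik : i ≠ k := Ne.symm hki
        simp only [update_of_ne hik]
        split_ifs with hxy
        · exact hv x y
        · simp
  | @dup S V v i j hi hj hij hadj h ih =>
    intro k hk
    have hji : j ≠ i := ne_of_gt hij
    have hije : i ≠ j := ne_of_lt hij
    by_cases hkj : k = j
    · subst hkj
      refine ⟨V, v, 0, ?_, ?_, ?_⟩
      · rw [erase_insert hj]; exact h
      · intro N c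
        have : ∀ a, V N (update c k a) = V N c := by
          intro a
          apply h.depV
          intro t ht
          have : t ≠ k := fun hh => hj (hh ▸ ht)
          simp [update_of_ne this]
        simp [this, update_of_ne hije]
      · intro x y
        have : ∀ a b, v (update x k a) (update (update y k b) i a) = v x (update y i a) := by
          intro a b
          apply h.depR
          · intro t ht
            have : t ≠ k := fun hh => hj (hh ▸ ht)
            simp [update_of_ne this]
          · intro t ht
            have : t ≠ k := fun hh => hj (hh ▸ ht)
            by_cases hti : t = i
            · subst hti; simp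
            · simp [update_of_ne this, update_of_ne hti]
        simp only [update_self, update_of_ne hije, this]
        rw [Finset.sum_eq_single (y i)]
        · have := (hρ (y i)).ne'
          simp only [if_true, update_eq_self]
          field_simp
        · intro b _ hb
          rw [if_neg (Ne.symm hb)]; simp
        · simp
    · by_cases hki : k = i
      · subst hki
        refine ⟨fun N c => V N (update c k (c j)), fun x y => v (update x k (x j)) (update y k (y j)),
          0, ?_, ?_, ?_⟩
        · have h1 : (insert j S).erase k = insert j (S.erase k) := by
            rw [erase_insert_of_ne hji]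
          rw [h1]
          refine Gen.rel k j hi hj ?_ h
          intro t ht htk
          constructor
          · intro h1; exact h1.trans hij
          · intro h1
            by_contra h2
            exact hadj t ht (lt_of_le_of_ne (not_lt.1 h2) (Ne.symm htk)) h1
        · intro N c
          simp only [update_self, update_of_ne hji]
          simp
        · intro x y
          simp only [update_self, update_of_ne hji, update_idem]
          rw [Finset.sum_eq_single (x j)]
          · have := (hρ (x j)).ne'
            simp only [if_true]
            field_simp
          · intro b _ hb
            rw [if_neg hb]; simp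
          · simp
      · have hkS : k ∈ S := by
          rcases mem_insert.1 hk with h1 | h1
          · exact absurd h1 hkj
          · exact h1
        obtain ⟨V', v', ε, hG, hV, hv⟩ := ih k hkS
        have hik : i ≠ k := Ne.symm hki
        have hjk : j ≠ k := Ne.symm hkj
        refine ⟨fun N c => if c i = c j then V' N c else 0,
          fun x y => if y i = x j then (ρ (x j))⁻¹ * v' x (update y i (y j)) else 0, ε, ?_, ?_, ?_⟩
        · have h1 : (insert j S).erase k = insert j (S.erase k) := by
            rw [erase_insert_of_ne hjk]
          rw [h1]
          refine Gen.dup i j (mem_erase.2 ⟨hik, hi⟩) (fun hh => hj (mem_of_mem_erase hh)) hij ?_ hG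
          intro t ht
          exact hadj t (mem_of_mem_erase ht)
        · intro N c
          simp only [update_of_ne hik, update_of_ne hjk]
          split_ifs with hc
          · exact hV N c
          · simp
        · intro x y
          simp only [update_of_ne hik, update_of_ne hjk]
          split_ifs with hc
          · rw [mul_left_comm, ← hv x (update y i (y j)), Finset.mul_sum]
            apply Finset.sum_congr rfl
            intro a _
            rw [update_comm hik]
            ring
          · simp
  | @rel S V v i j hi hj hadj h ih =>
    intro k hk
    have hije : i ≠ j := fun hh => hj (hh ▸ hi)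
    by_cases hkj : k = j
    · subst hkj
      obtain ⟨V', v', ε, hG, hV, hv⟩ := ih i hi
      refine ⟨V', v', ε, ?_, ?_, ?_⟩
      · have h1 : (insert k (S.erase i)).erase k = S.erase i := by
          rw [erase_insert]; exact fun hh => hj (mem_of_mem_erase hh)
        rw [h1]; exact hG
      · intro N c
        rw [← hV N c]
        apply Finset.sum_congr rfl
        intro a _
        apply h.depV
        intro t ht
        have htk : t ≠ k := fun hh => hj (hh ▸ ht)
        by_cases hti : t = i
        · subst hti; simp
        · simp [update_of_ne hti, update_of_ne htk]
      · intro x y
        rw [← hv x y]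
        apply Finset.sum_congr rfl
        intro a _
        congr 1
        apply h.depR
        · intro t ht
          have htk : t ≠ k := fun hh => hj (hh ▸ ht)
          by_cases hti : t = i
          · subst hti; simp
          · simp [update_of_ne hti, update_of_ne htk]
        · intro t ht
          have htk : t ≠ k := fun hh => hj (hh ▸ ht)
          by_cases hti : t = i
          · subst hti; simp
          · simp [update_of_ne hti, update_of_ne htk]
    · have hkS : k ∈ S.erase i := by
        rcases mem_insert.1 hk with h1 | h1
        · exact absurd h1 hkj
        · exact h1
      have hki : k ≠ i := (mem_erase.1 hkS).1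
      have hik : i ≠ k := Ne.symm hki
      have hjk : j ≠ k := Ne.symm hkj
      obtain ⟨V', v', ε, hG, hV, hv⟩ := ih k (mem_of_mem_erase hkS)
      refine ⟨fun N c => V' N (update c i (c j)),
        fun x y => v' (update x i (x j)) (update y i (y j)), ε, ?_, ?_, ?_⟩
      · have h1 : (insert j (S.erase i)).erase k = insert j ((S.erase k).erase i) := by
          rw [erase_insert_of_ne hjk, erase_right_comm]
        rw [h1]
        refine Gen.rel i j (mem_erase.2 ⟨hik, hi⟩) (fun hh => hj (mem_of_mem_erase hh)) ?_ hG
        intro t ht
        exact hadj t (mem_of_mem_erase ht)
      · intro N c
        simp only [update_of_ne hjk]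
        rw [← hV]
        apply Finset.sum_congr rfl
        intro a _
        rw [update_comm hik]
      · intro x y
        simp only [update_of_ne hjk]
        rw [← hv]
        apply Finset.sum_congr rfl
        intro a _
        rw [update_comm hik, update_comm hik]

/-- closure under merging of two adjacent points `k < l` (the point `l` is removed) -/
theorem Gen.merge (hρ : ∀ a, 0 < ρ a) (hq : ∑ a, (ρ a)⁻¹ = 1)
    {S : Finset α} {V : PV α} {v : RV α} (h : Gen ρ S V v) :
    ∀ k ∈ S, ∀ l ∈ S, k < l → (∀ t ∈ S, k < t → t < l → False) →
      Gen ρ (S.erase l) (fun N c => V N (update c l (c k)))
        (fun x y => ∑ a, v (update x l a) (update (update y k a) l (y k))) := by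
  induction h with
  | nil => intro k hk; simp at hk
  | @ins S V v i hi h ih =>
    intro k hk l hl hkl hadj
    have hkle : k ≠ l := ne_of_lt hkl
    have hlke : l ≠ k := ne_of_gt hkl
    by_cases hik : i = k
    · subst hik
      have hlS : l ∈ S := by
        rcases mem_insert.1 hl with h1 | h1
        · exact absurd h1 hlke
        · exact h1
      refine (Gen.rel l i hlS hi ?_ h).congr' ?_ ?_ ?_
      · intro t ht htl
        constructor
        · intro h1
          by_contra h2
          have hti : t ≠ i := fun hh => hi (hh ▸ ht)
          exact hadj t (mem_insert_of_mem ht) (lt_of_le_of_ne (not_lt.1 h2) (Ne.symm hti)) h1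
        · intro h1
          exact h1.trans hkl
      · rw [erase_insert_of_ne hkle]
      · intro N c; rfl
      · intro x y
        simp only [update_self, update_of_ne hkle]
        rw [Finset.sum_eq_single (x i)]
        · rw [if_pos rfl]
          apply h.depR
          · intro t ht; rfl
          · intro t ht
            have hti : t ≠ i := fun hh => hi (hh ▸ ht)
            by_cases htl : t = l
            · subst htl; simp
            · simp [update_of_ne htl, update_of_ne hti]
        · intro b _ hb
          rw [if_neg (Ne.symm hb)]
        · simp
    · by_cases hil : i = l
      · subst hil
        have hkS : k ∈ S := by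
          rcases mem_insert.1 hk with h1 | h1
          · exact absurd h1 hkle
          · exact h1
        refine h.congr' ?_ ?_ ?_
        · rw [erase_insert hi]
        · intro N c
          apply h.depV
          intro t ht
          have hti : t ≠ i := fun hh => hi (hh ▸ ht)
          simp [update_of_ne hti]
        · intro x y
          simp only [update_self]
          rw [Finset.sum_eq_single (y k)]
          · rw [if_pos rfl]
            apply h.depR
            · intro t ht
              have hti : t ≠ i := fun hh => hi (hh ▸ ht)
              simp [update_of_ne hti]
            · intro t ht
              have hti : t ≠ i := fun hh => hi (hh ▸ ht)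
              simp [update_of_ne hti]
          · intro b _ hb
            rw [if_neg hb]
          · simp
      · have hkS : k ∈ S := by
          rcases mem_insert.1 hk with h1 | h1
          · exact absurd h1.symm hik
          · exact h1
        have hlS : l ∈ S := by
          rcases mem_insert.1 hl with h1 | h1
          · exact absurd h1.symm hil
          · exact h1
        have hG := ih k hkS l hlS hkl (fun t ht => hadj t (mem_insert_of_mem ht))
        refine (Gen.ins i (fun hh => hi (mem_of_mem_erase hh)) hG).congr' ?_ ?_ ?_
        · rw [erase_insert_of_ne hil]
        · intro N c; rfl
        · intro x y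
          simp only [update_of_ne hil, update_of_ne hik]
          split_ifs with hxy
          · rfl
          · simp
  | @dup S V v i j hi hj hij hadj' h ih =>
    intro k hk l hl hkl hadj
    have hkle : k ≠ l := ne_of_lt hkl
    have hlke : l ≠ k := ne_of_gt hkl
    have hji : j ≠ i := ne_of_gt hij
    have hije : i ≠ j := ne_of_lt hij
    have hSj : ∀ t ∈ S, t ≠ j := fun t ht hh => hj (hh ▸ ht)
    by_cases hlj : l = j
    · subst hlj
      have hkS : k ∈ S := by
        rcases mem_insert.1 hk with h1 | h1
        · exact absurd h1 hkle
        · exact h1
      have hki : k = i := by
        by_contra hki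
        rcases lt_or_gt_of_ne hki with h1 | h1
        · exact hadj i (mem_insert_of_mem hi) h1 hij
        · exact hadj' k hkS h1 hkl
      subst hki
      refine h.congr' ?_ ?_ ?_
      · rw [erase_insert hj]
      · intro N c
        simp only [update_self, update_of_ne hkle, if_true]
        apply h.depV
        intro t ht
        simp [update_of_ne (hSj t ht)]
      · intro x y
        simp only [update_self, update_of_ne hkle, if_true]
        have : ∀ a, v (update x l a) (update (update (update y k a) l (y k)) k (y k)) = v x y := by
          intro a
          apply h.depR
          · intro t ht
            simp [update_of_ne (hSj t ht)]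
          · intro t ht
            by_cases htk : t = k
            · subst htk; simp
            · simp [update_of_ne (hSj t ht), update_of_ne htk]
        simp only [this]
        rw [← Finset.sum_mul, hq, one_mul]
    · have hlS : l ∈ S := by
        rcases mem_insert.1 hl with h1 | h1
        · exact absurd h1 hlj
        · exact h1
      by_cases hkj : k = j
      · subst hkj
        have hil : i < l := hij.trans hkl
        have hile : i ≠ l := ne_of_lt hil
        have hadjil : ∀ t ∈ S, i < t → t < l → False := by
          intro t ht h1 h2
          rcases lt_trichotomy t k with h3 | h3 | h3
          · exact hadj' t ht h1 h3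
          · exact hSj t ht h3
          · exact hadj t (mem_insert_of_mem ht) h3 h2
        have hG := ih i hi l hlS hil hadjil
        refine (Gen.dup i k (mem_erase.2 ⟨hile, hi⟩) (fun hh => hj (mem_of_mem_erase hh)) hij ?_
          hG).congr' ?_ ?_ ?_
        · intro t ht
          exact hadj' t (mem_of_mem_erase ht)
        · rw [erase_insert_of_ne hkle]
        · intro N c
          simp only [update_of_ne hkle, update_of_ne hile]
          split_ifs with hc
          · rw [hc]
          · rfl
        · intro x y
          simp only [update_self, update_of_ne hkle, update_of_ne hile, update_of_ne hije]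
          split_ifs with hc
          · rw [Finset.mul_sum]
            apply Finset.sum_congr rfl
            intro a _
            congr 1
            apply h.depR
            · intro t ht; rfl
            · intro t ht
              by_cases hti : t = i
              · subst hti; simp [update_of_ne hile]
              · by_cases htl : t = l
                · subst htl; simp [update_of_ne hti]
                · simp [update_of_ne hti, update_of_ne htl, update_of_ne (hSj t ht)]
          · simp
      · have hkS : k ∈ S := by
          rcases mem_insert.1 hk with h1 | h1
          · exact absurd h1 hkj
          · exact h1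
        have hjk : j ≠ k := Ne.symm hkj
        have hjl : j ≠ l := Ne.symm hlj
        have hG := ih k hkS l hlS hkl (fun t ht => hadj t (mem_insert_of_mem ht))
        by_cases hli : l = i
        · subst hli
          have hkj' : k < j := hkl.trans hij
          refine (Gen.dup k j (mem_erase.2 ⟨hkle, hkS⟩) (fun hh => hj (mem_of_mem_erase hh)) hkj' ?_
            hG).congr' ?_ ?_ ?_
          · intro t ht h1 h2
            have htS := mem_of_mem_erase ht
            have htl := (mem_erase.1 ht).1
            rcases lt_or_gt_of_ne htl with h3 | h3
            · exact hadj t (mem_insert_of_mem htS) h1 h3
            · exact hadj' t htS h3 h2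
          · rw [erase_insert_of_ne hjl]
          · intro N c
            simp only [update_self, update_of_ne hji]
          · intro x y
            simp only [update_self, update_of_ne hji, update_of_ne hjk, update_of_ne hkle,
              update_idem]
            split_ifs with hc
            · rw [Finset.mul_sum]
            · simp
        · have hil : i ≠ l := Ne.symm hli
          have hik : i ≠ k := by
            intro hik
            subst hik
            -- then j lies strictly between i and l
            have h1 : j < l := by
              rcases lt_or_gt_of_ne hjl with h2 | h2
              · exact h2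
              · exact absurd h2 (fun h2 => hadj' l hlS hkl h2)
            exact hadj j (mem_insert_self _ _) hij h1
          refine (Gen.dup i j (mem_erase.2 ⟨hil, hi⟩) (fun hh => hj (mem_of_mem_erase hh)) hij ?_
            hG).congr' ?_ ?_ ?_
          · intro t ht
            exact hadj' t (mem_of_mem_erase ht)
          · rw [erase_insert_of_ne hjl]
          · intro N c
            simp only [update_of_ne hjl, update_of_ne hil]
          · intro x y
            simp only [update_of_ne hjl, update_of_ne hil, update_of_ne hik, update_of_ne hjk,
              update_of_ne (Ne.symm hik)]
            split_ifs with hc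
            · rw [Finset.mul_sum]
              apply Finset.sum_congr rfl
              intro a _
              congr 1
              apply h.depR
              · intro t ht; rfl
              · intro t ht
                by_cases hti : t = i
                · subst hti; simp [update_of_ne hil, update_of_ne hik]
                · by_cases htl : t = l
                  · subst htl; simp [update_of_ne hti]
                  · by_cases htk : t = k
                    · subst htk; simp [update_of_ne hti, update_of_ne htl]
                    · simp [update_of_ne hti, update_of_ne htl, update_of_ne htk]
            · simp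
  | @rel S V v i j hi hj hadj' h ih =>
    intro k hk l hl hkl hadj
    have hkle : k ≠ l := ne_of_lt hkl
    have hlke : l ≠ k := ne_of_gt hkl
    have hije : i ≠ j := fun hh => hj (hh ▸ hi)
    have hji : j ≠ i := Ne.symm hije
    have hSj : ∀ t ∈ S, t ≠ j := fun t ht hh => hj (hh ▸ ht)
    by_cases hkj : k = j
    · subst hkj
      have hlSi : l ∈ S.erase i := by
        rcases mem_insert.1 hl with h1 | h1
        · exact absurd h1 hlke
        · exact h1
      have hlS := mem_of_mem_erase hlSi
      have hli : l ≠ i := (mem_erase.1 hlSi).1
      have hile : i ≠ l := Ne.symm hli
      have hil : i < l := by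
        rcases lt_or_gt_of_ne hile with h1 | h1
        · exact h1
        · exact absurd ((hadj' l hlS hli).1 h1) (not_lt.2 hkl.le)
      have hadjil : ∀ t ∈ S, i < t → t < l → False := by
        intro t ht h1 h2
        have hti : t ≠ i := ne_of_gt h1
        have h3 : ¬ t < k := fun h4 => absurd ((hadj' t ht hti).2 h4) (not_lt.2 h1.le)
        exact hadj t (mem_insert_of_mem (mem_erase.2 ⟨hti, ht⟩))
          (lt_of_le_of_ne (not_lt.1 h3) (Ne.symm (hSj t ht))) h2
      have hG := ih i hi l hlS hil hadjil
      refine (Gen.rel i k (mem_erase.2 ⟨hile, hi⟩) (fun hh => hj (mem_of_mem_erase hh)) ?_
        hG).congr' ?_ ?_ ?_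
      · intro t ht
        exact hadj' t (mem_of_mem_erase ht)
      · rw [erase_insert_of_ne hkle, erase_right_comm]
      · intro N c
        simp only [update_self, update_of_ne hkle]
        rw [update_comm hile]
      · intro x y
        simp only [update_self, update_of_ne hkle]
        apply Finset.sum_congr rfl
        intro a _
        apply h.depR
        · intro t ht
          by_cases hti : t = i
          · subst hti; simp [update_of_ne hile]
          · by_cases htl : t = l
            · subst htl; simp [update_of_ne hti]
            · simp [update_of_ne hti, update_of_ne htl]
        · intro t ht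
          by_cases hti : t = i
          · subst hti; simp [update_of_ne hile]
          · by_cases htl : t = l
            · subst htl; simp [update_of_ne hti]
            · simp [update_of_ne hti, update_of_ne htl, update_of_ne (hSj t ht)]
    · have hkSi : k ∈ S.erase i := by
        rcases mem_insert.1 hk with h1 | h1
        · exact absurd h1 hkj
        · exact h1
      have hkS := mem_of_mem_erase hkSi
      have hki : k ≠ i := (mem_erase.1 hkSi).1
      have hik : i ≠ k := Ne.symm hki
      have hjk : j ≠ k := Ne.symm hkj
      by_cases hlj : l = j
      · subst hlj
        have hki' : k < i := (hadj' k hkS hki).2 hkl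
        have hadjki : ∀ t ∈ S, k < t → t < i → False := by
          intro t ht h1 h2
          have hti : t ≠ i := ne_of_lt h2
          exact hadj t (mem_insert_of_mem (mem_erase.2 ⟨hti, ht⟩)) h1 ((hadj' t ht hti).1 h2)
        have hG := ih k hkS i hi hki' hadjki
        refine hG.congr' ?_ ?_ ?_
        · rw [erase_insert]; exact fun hh => hj (mem_of_mem_erase hh)
        · intro N c
          simp only [update_self]
          apply h.depV
          intro t ht
          by_cases hti : t = i
          · subst hti; simp
          · simp [update_of_ne hti, update_of_ne (hSj t ht)]
        · intro x y
          simp only [update_self]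
          apply Finset.sum_congr rfl
          intro a _
          apply h.depR
          · intro t ht
            by_cases hti : t = i
            · subst hti; simp
            · simp [update_of_ne hti, update_of_ne (hSj t ht)]
          · intro t ht
            by_cases hti : t = i
            · subst hti; simp
            · simp [update_of_ne hti, update_of_ne (hSj t ht)]
      · have hlSi : l ∈ S.erase i := by
          rcases mem_insert.1 hl with h1 | h1
          · exact absurd h1 hlj
          · exact h1
        have hlS := mem_of_mem_erase hlSi
        have hli : l ≠ i := (mem_erase.1 hlSi).1
        have hil : i ≠ l := Ne.symm hli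
        have hjl : j ≠ l := Ne.symm hlj
        have hadjkl : ∀ t ∈ S, k < t → t < l → False := by
          intro t ht h1 h2
          by_cases hti : t = i
          · subst hti
            have h3 : k < j := (hadj' k hkS hki).1 h1
            have h4 : ¬ l < j := fun h5 => absurd ((hadj' l hlS hli).2 h5) (not_lt.2 h2.le)
            exact hadj j (mem_insert_self _ _) h3 (lt_of_le_of_ne (not_lt.1 h4) hjl)
          · exact hadj t (mem_insert_of_mem (mem_erase.2 ⟨hti, ht⟩)) h1 h2
        have hG := ih k hkS l hlS hkl hadjkl
        refine (Gen.rel i j (mem_erase.2 ⟨hil, hi⟩) (fun hh => hj (mem_of_mem_erase hh)) ?_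
          hG).congr' ?_ ?_ ?_
        · intro t ht
          exact hadj' t (mem_of_mem_erase ht)
        · rw [erase_insert_of_ne hjl, erase_right_comm]
        · intro N c
          simp only [update_of_ne hjl, update_of_ne hki]
          rw [update_comm hil]
        · intro x y
          simp only [update_of_ne hjl, update_of_ne hjk, update_of_ne hki]
          apply Finset.sum_congr rfl
          intro a _
          apply h.depR
          · intro t ht
            by_cases hti : t = i
            · subst hti; simp [update_of_ne hil]
            · by_cases htl : t = l
              · subst htl; simp [update_of_ne hti]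
              · simp [update_of_ne hti, update_of_ne htl]
          · intro t ht
            by_cases hti : t = i
            · subst hti; simp [update_of_ne hil, update_of_ne hik]
            · by_cases htl : t = l
              · subst htl; simp [update_of_ne hti]
              · by_cases htk : t = k
                · subst htk; simp [update_of_ne hti, update_of_ne htl]
                · simp [update_of_ne hti, update_of_ne htl, update_of_ne htk]

end Pool.Agent.Helper20.RP
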