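import Pool.Agent.Helper20.RPState
import Pool.Agent.Helper20.RPDefs

set_option autoImplicit false

namespace Pool.Agent.Helper20.RP

open Finset Function

/-- number of extensions of a partial function -/
theorem card_ext {K C ι : Type} [Fintype K] [Fintype C] [Nonempty C] (π : ι → K)
    (β : ι → C) [Decidable (∀ i j, π i = π j → β i = β j)] :
    Nat.card {g : K → C // ∀ i, g (π i) = β i} =
      if (∀ i j, π i = π j → β i = β j) then
        Fintype.card C ^ Nat.card {k : K // k ∉ Set.range π} else 0 := by
  classical
  split_ifs with h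
  · -- equivalence with functions on the complement of the range
    have e : {g : K → C // ∀ i, g (π i) = β i} ≃ ({k : K // k ∉ Set.range π} → C) := by
      refine Equiv.ofBijective (fun g k => g.1 k.1) ⟨?_, ?_⟩
      · intro g g' hgg
        apply Subtype.ext
        funext k
        by_cases hk : k ∈ Set.range π
        · obtain ⟨i, rfl⟩ := hk
          rw [g.2 i, g'.2 i]
        · exact congrFun hgg ⟨k, hk⟩
      · intro f
        refine ⟨⟨fun k => if hk : k ∈ Set.range π then β hk.choose else f ⟨k, hk⟩, ?_⟩, ?_⟩
        · intro i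
          have hk : π i ∈ Set.range π := ⟨i, rfl⟩
          simp only [dif_pos hk]
          exact h _ _ hk.choose_spec
        · funext k
          simp only
          rw [dif_neg k.2]
    rw [Nat.card_congr e, Nat.card_fun, Nat.card_eq_fintype_card (α := C)]
  · rw [Nat.card_eq_zero]
    left
    constructor
    rintro ⟨g, hg⟩
    apply h
    intro i j hij
    rw [← hg i, ← hg j, hij]

/-- the edge `e` is monochromatic -/
def Mono {V C : Type} (c : V → C) (e : Sym2 V) : Prop := (e.map c).IsDiag

theorem mono_mk {V C : Type} (c : V → C) (u v : V) : Mono c s(u, v) ↔ c u = c v := by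
  simp [Mono]

theorem reach_of_mono {V C : Type} (c : V → C) (A : Set (Sym2 V)) (h : ∀ e ∈ A, Mono c e)
    {u v : V} (huv : (SimpleGraph.fromEdgeSet A).Reachable u v) : c u = c v := by
  obtain ⟨w⟩ := huv
  induction w with
  | nil => rfl
  | cons hadj _ ih =>
    rw [SimpleGraph.fromEdgeSet_adj] at hadj
    rw [← ih]
    exact (mono_mk c _ _).1 (h _ hadj.1)

/-- the number of colourings with a given boundary colouring for which all edges of `A` are
monochromatic -/
theorem card_mono {V C : Type} [Fintype V] [Fintype C] [Nonempty C] {n : ℕ}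
    (A : Set (Sym2 V)) (b : Fin n → V) (β : Fin n → C)
    [Decidable (∀ i j, (SimpleGraph.fromEdgeSet A).Reachable (b i) (b j) → β i = β j)] :
    Nat.card {c : V → C // (∀ e ∈ A, Mono c e) ∧ ∀ i, c (b i) = β i} =
      if (∀ i j, (SimpleGraph.fromEdgeSet A).Reachable (b i) (b j) → β i = β j) then
        Fintype.card C ^ Nat.card {k : (SimpleGraph.fromEdgeSet A).ConnectedComponent //
          k ∉ Set.range (fun i => (SimpleGraph.fromEdgeSet A).connectedComponentMk (b i))}
      else 0 := by
  classical
  have e : {g : (SimpleGraph.fromEdgeSet A).ConnectedComponent → C //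
      ∀ i, g ((SimpleGraph.fromEdgeSet A).connectedComponentMk (b i)) = β i} ≃
      {c : V → C // (∀ e ∈ A, Mono c e) ∧ ∀ i, c (b i) = β i} := by
    refine Equiv.ofBijective (fun g => ⟨fun v => g.1
      ((SimpleGraph.fromEdgeSet A).connectedComponentMk v), ?_, ?_⟩) ⟨?_, ?_⟩
    · intro e he
      induction e using Sym2.ind with
      | _ u v =>
        rw [mono_mk]
        by_cases huv : u = v
        · rw [huv]
        · have h' : (SimpleGraph.fromEdgeSet A).connectedComponentMk u =
              (SimpleGraph.fromEdgeSet A).connectedComponentMk v := by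
            apply SimpleGraph.ConnectedComponent.sound
            apply SimpleGraph.Adj.reachable
            rw [SimpleGraph.fromEdgeSet_adj]
            exact ⟨he, huv⟩
          rw [h']
    · exact g.2
    · intro g g' hgg
      apply Subtype.ext
      funext k
      induction k using SimpleGraph.ConnectedComponent.ind with
      | _ v =>
        have := congrArg Subtype.val hgg
        exact congrFun this v
    · rintro ⟨c, hc1, hc2⟩
      refine ⟨⟨fun k => Quot.lift c (fun u v huv => reach_of_mono c A hc1 huv) k, ?_⟩, ?_⟩
      · intro i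
        exact hc2 i
      · apply Subtype.ext
        funext v
        rfl
  rw [← Nat.card_congr e]
  have h := card_ext (K := (SimpleGraph.fromEdgeSet A).ConnectedComponent)
    (fun i => (SimpleGraph.fromEdgeSet A).connectedComponentMk (b i)) β
  simp only [SimpleGraph.ConnectedComponent.eq] at h
  exact h

/-- `F` is a combination of indicators of noncrossing partitions -/
def Expands {n : ℕ} (F : (N : ℕ) → (Fin n → Fin (N + 1)) → ℝ) : Prop :=
  ∃ (T : Type) (_ : Fintype T) (σ : T → ℝ) (m : T → ℕ) (r : T → Fin n → Fin n → Prop),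
    (∀ t, Equivalence (r t) ∧ NonCrossing (r t)) ∧
    ∀ N β, F N β = ∑ t, σ t * ((N : ℝ) + 1) ^ m t * potts univ (r t) N β

/-- the number of proper colourings of `D` with a given boundary colouring -/
noncomputable def bdCount {V : Type} {n : ℕ} (D : SimpleGraph V) (b : Fin n ↪ V) (N : ℕ)
    (β : Fin n → Fin (N + 1)) : ℝ :=
  (Nat.card {c : V → Fin (N + 1) // (∀ u v, D.Adj u v → c u ≠ c v) ∧ ∀ i, c (b i) = β i} : ℝ)

theorem noncrossing_of_noCross {V : Type} {n : ℕ} {D : SimpleGraph V} {b : Fin n ↪ V}
    (h : NoCross D b) (A : Set (Sym2 V)) (hA : A ⊆ D.edgeSet) :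
    Equivalence (fun i j => (SimpleGraph.fromEdgeSet A).Reachable (b i) (b j)) ∧
    NonCrossing (fun i j => (SimpleGraph.fromEdgeSet A).Reachable (b i) (b j)) := by
  refine ⟨⟨fun i => SimpleGraph.Reachable.refl _, fun h => h.symm, fun h h' => h.trans h'⟩, ?_⟩
  intro i j k l hij hjk hkl ⟨w⟩ ⟨w'⟩
  have hle : SimpleGraph.fromEdgeSet A ≤ D := by
    intro u v huv
    rw [SimpleGraph.fromEdgeSet_adj] at huv
    exact hA huv.1
  obtain ⟨v, hv, hv'⟩ := h i j k l hij hjk hkl (w.mapLe hle) (w'.mapLe hle)
  rw [SimpleGraph.Walk.support_mapLe_eq_support] at hv hv'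
  classical
  exact (w.takeUntil v hv).reachable.trans (w'.takeUntil v hv').reachable.symm

theorem expands_bdCount {V : Type} [Fintype V] {n : ℕ} {D : SimpleGraph V} {b : Fin n ↪ V}
    (h : NoCross D b) : Expands (bdCount D b) := by
  classical
  refine ⟨{A : Finset (Sym2 V) // A ∈ D.edgeFinset.powerset}, inferInstance,
    fun A => (-1) ^ A.1.card,
    fun A => Nat.card {k : (SimpleGraph.fromEdgeSet (A.1 : Set (Sym2 V))).ConnectedComponent //
      k ∉ Set.range (fun i => (SimpleGraph.fromEdgeSet (A.1 : Set (Sym2 V))).connectedComponentMk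
        (b i))},
    fun A i j => (SimpleGraph.fromEdgeSet (A.1 : Set (Sym2 V))).Reachable (b i) (b j), ?_, ?_⟩
  · rintro ⟨A, hA⟩
    apply noncrossing_of_noCross h
    intro e he
    have := (Finset.mem_powerset.1 hA) he
    simpa using this
  · intro N β
    -- the count as a sum of products
    have h1 : bdCount D b N β = ∑ c : V → Fin (N + 1), (if ∀ i, c (b i) = β i then (1 : ℝ) else 0) *
        ∏ e ∈ D.edgeFinset, ((if Mono c e then (-1 : ℝ) else 0) + 1) := by
      unfold bdCount
      rw [Nat.card_eq_fintype_card, Fintype.card_subtype]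
      rw [Finset.card_eq_sum_ones, Nat.cast_sum, Finset.sum_filter]
      apply Finset.sum_congr rfl
      intro c _
      by_cases hc : ∀ i, c (b i) = β i
      · by_cases hp : ∀ u v, D.Adj u v → c u ≠ c v
        · rw [if_pos ⟨hp, hc⟩, if_pos hc]
          rw [Finset.prod_eq_one]
          · simp
          · intro e he
            have : ¬ Mono c e := by
              induction e using Sym2.ind with
              | _ u v =>
                rw [mono_mk]
                apply hp
                simpa using he
            rw [if_neg this]; simp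
        · rw [if_neg (fun hh => hp hh.1), if_pos hc]
          push Not at hp
          obtain ⟨u, v, huv, hcuv⟩ := hp
          rw [Finset.prod_eq_zero (i := s(u, v))]
          · simp
          · simpa using huv
          · rw [if_pos ((mono_mk c u v).2 hcuv)]; simp
      · rw [if_neg (fun hh => hc hh.2), if_neg hc]; simp
    rw [h1]
    simp only [Finset.prod_add, Finset.prod_const_one, mul_one]
    simp only [Finset.mul_sum]
    rw [Finset.sum_comm]
    refine Eq.trans (Finset.sum_congr rfl ?_) (Finset.sum_coe_sort (D.edgeFinset.powerset) (fun A =>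
      (-1 : ℝ) ^ A.card * ((N : ℝ) + 1) ^ Nat.card
        {k : (SimpleGraph.fromEdgeSet (A : Set (Sym2 V))).ConnectedComponent //
          k ∉ Set.range (fun i => (SimpleGraph.fromEdgeSet (A : Set (Sym2 V))).connectedComponentMk
            (b i))} *
        potts univ (fun i j => (SimpleGraph.fromEdgeSet (A : Set (Sym2 V))).Reachable (b i) (b j))
          N β)).symm
    intro A hA
    have h2 := card_mono (C := Fin (N + 1)) (A : Set (Sym2 V)) b β
    have h3 : (Nat.card {c : V → Fin (N + 1) // (∀ e ∈ (A : Set (Sym2 V)), Mono c e) ∧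
        ∀ i, c (b i) = β i} : ℝ) =
        ∑ c : V → Fin (N + 1), (if ∀ i, c (b i) = β i then (1 : ℝ) else 0) *
        ∏ e ∈ A, (if Mono c e then (1 : ℝ) else 0) := by
      rw [Nat.card_eq_fintype_card, Fintype.card_subtype]
      rw [Finset.card_eq_sum_ones, Nat.cast_sum, Finset.sum_filter]
      apply Finset.sum_congr rfl
      intro c _
      by_cases hc : ∀ i, c (b i) = β i
      · by_cases hp : ∀ e ∈ A, Mono c e
        · rw [if_pos ⟨by simpa using hp, hc⟩, if_pos hc]
          rw [Finset.prod_eq_one]
          · simp
          · intro e he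
            rw [if_pos (hp e he)]
        · rw [if_neg (fun hh => hp (by simpa using hh.1)), if_pos hc]
          push Not at hp
          obtain ⟨e, he, hce⟩ := hp
          rw [Finset.prod_eq_zero he]
          · simp
          · rw [if_neg hce]
      · rw [if_neg (fun hh => hc hh.2), if_neg hc]; simp
    have h4 : ∀ c : V → Fin (N + 1), ∏ e ∈ A, (if Mono c e then (-1 : ℝ) else 0) =
        (-1) ^ A.card * ∏ e ∈ A, (if Mono c e then (1 : ℝ) else 0) := by
      intro c
      rw [← Finset.prod_const, ← Finset.prod_mul_distrib]
      apply Finset.prod_congr rfl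
      intro e _
      split_ifs <;> simp
    simp only [h4]
    have h5 : ∑ c : V → Fin (N + 1), (if ∀ i, c (b i) = β i then (1 : ℝ) else 0) *
        ((-1) ^ A.card * ∏ e ∈ A, (if Mono c e then (1 : ℝ) else 0)) =
        (-1) ^ A.card * ∑ c : V → Fin (N + 1), (if ∀ i, c (b i) = β i then (1 : ℝ) else 0) *
        ∏ e ∈ A, (if Mono c e then (1 : ℝ) else 0) := by
      rw [Finset.mul_sum]
      apply Finset.sum_congr rfl
      intro c _
      ring
    rw [h5, ← h3, h2, mul_assoc]
    congr 1
    unfold potts
    by_cases h6 : ∀ i j, (SimpleGraph.fromEdgeSet (A : Set (Sym2 V))).Reachable (b i) (b j) →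
        β i = β j
    · rw [if_pos h6, if_pos (fun i _ j _ => h6 i j)]
      simp
    · rw [if_neg h6, if_neg (fun hh => h6 (fun i j => hh i (mem_univ _) j (mem_univ _)))]
      simp

end Pool.Agent.Helper20.RP
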