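import Pool.Agent.Helper20.RPCore

set_option autoImplicit false

namespace Pool.Agent.Helper20

open Finset Function RP

theorem RP.noCross_bot {n : ℕ} : NoCross (⊥ : SimpleGraph (Fin n)) (Function.Embedding.refl _) := by
  intro i j k l hij hjk hkl w w'
  exfalso
  have hik : i ≠ k := (hij.trans hjk).ne
  cases w with
  | nil => exact hik rfl
  | cons h _ => exact (SimpleGraph.bot_adj _ _).1 h

theorem RP.bdCount_bot {n : ℕ} (N : ℕ) (β : Fin n → Fin (N + 1)) :
    bdCount (⊥ : SimpleGraph (Fin n)) (Function.Embedding.refl _) N β = 1 := by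
  unfold bdCount
  have : Nat.card {c : Fin n → Fin (N + 1) // (∀ u v, (⊥ : SimpleGraph (Fin n)).Adj u v →
      c u ≠ c v) ∧ ∀ i, c ((Function.Embedding.refl (Fin n)) i) = β i} = 1 := by
    rw [Nat.card_eq_one_iff_unique]
    constructor
    · constructor
      rintro ⟨c, _, hc⟩ ⟨c', _, hc'⟩
      apply Subtype.ext
      funext i
      exact (hc i).trans (hc' i).symm
    · exact ⟨⟨β, fun u v h => absurd h (by simp), fun i => rfl⟩⟩
  rw [this]; simp

theorem RP.card_eq_sum {V : Type} [Fintype V] {n : ℕ} (D : SimpleGraph V) (b : Fin n ↪ V) (N : ℕ) :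
    (Nat.card (D.Coloring (Fin (N + 1))) : ℝ) = ∑ β, bdCount D b N β := by
  have hg : IsGluing D b (⊥ : SimpleGraph (Fin n)) (Function.Embedding.refl _) D := by
    refine ⟨Function.Embedding.refl _, b, fun i => rfl, fun x y h => ⟨y, h, rfl⟩,
      fun v => Or.inl ⟨v, rfl⟩, ?_⟩
    ext u v
    simp [SimpleGraph.map_adj]
  rw [card_gluing hg N]
  simp [bdCount_bot]

/-- Cauchy-Schwarz from the representation by vectors. -/
theorem RP.cs {n : ℕ} (w w' : RV (Fin n)) (μ : (Fin n → Bool) → ℝ) (hμ : ∀ y, 0 < μ y) :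
    (∑ x, ∑ y, w x y * w' x y * μ y) ^ 2 ≤
      (∑ x, ∑ y, w x y * w x y * μ y) * (∑ x, ∑ y, w' x y * w' x y * μ y) := by
  have h := Finset.sum_mul_sq_le_sq_mul_sq (univ : Finset ((Fin n → Bool) × (Fin n → Bool)))
    (fun p => w p.1 p.2 * Real.sqrt (μ p.2)) (fun p => w' p.1 p.2 * Real.sqrt (μ p.2))
  have e1 : ∀ (u u' : RV (Fin n)), ∑ p : (Fin n → Bool) × (Fin n → Bool),
      (u p.1 p.2 * Real.sqrt (μ p.2)) * (u' p.1 p.2 * Real.sqrt (μ p.2)) =
      ∑ x, ∑ y, u x y * u' x y * μ y := by
    intro u u'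
    rw [Fintype.sum_prod_type]
    apply Finset.sum_congr rfl
    intro x _
    apply Finset.sum_congr rfl
    intro y _
    have := Real.mul_self_sqrt (hμ y).le
    calc _ = u x y * u' x y * (Real.sqrt (μ y) * Real.sqrt (μ y)) := by ring
      _ = _ := by rw [this]
  rw [e1 w w'] at h
  have e2 : ∀ (u : RV (Fin n)), ∑ p : (Fin n → Bool) × (Fin n → Bool),
      (u p.1 p.2 * Real.sqrt (μ p.2)) ^ 2 = ∑ x, ∑ y, u x y * u x y * μ y := by
    intro u
    rw [← e1 u u]
    apply Finset.sum_congr rfl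
    intro p _
    ring
  rw [e2 w, e2 w'] at h
  exact h

/-- **Reflection positivity.** -/
theorem reflection_positivity (n : ℕ) (ι : Type) [Fintype ι] (V : ι → Type) [∀ a, Finite (V a)]
    (D : ∀ a, SimpleGraph (V a)) (b : ∀ a, Fin n ↪ V a) (hD : ∀ a, NoCross (D a) (b a))
    (W : ι → ι → Type) (G : ∀ a a', SimpleGraph (W a a'))
    (hG : ∀ a a', IsGluing (D a) (b a) (D a') (b a') (G a a'))
    (p : ι → ι → Polynomial ℝ) (hp : ∀ a a', IsChromaticPolynomial (G a a') (p a a'))
    (q : ℝ) (hq : 4 ≤ q) (c : ι → ℝ) :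
    0 ≤ ∑ a, ∑ a', c a * c a' * (p a a').eval q := by
  have _ : ∀ a, Fintype (V a) := fun a => Fintype.ofFinite _
  obtain ⟨w, μ, hμ, hw⟩ := core (fun a => bdCount (D a) (b a)) (fun a => expands_bdCount (hD a)) p
    (fun a a' N => by
      have h1 := hp a a' (N + 1)
      rw [card_gluing (hG a a') N] at h1
      rw [← h1]; push_cast; rfl) q hq
  have h1 : ∑ a, ∑ a', c a * c a' * (p a a').eval q =
      ∑ x, ∑ y, (∑ a, c a * w a x y) ^ 2 * μ y := by
    simp only [hw]
    have h2 : ∀ x y, (∑ a, c a * w a x y) ^ 2 * μ y =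
        ∑ a, ∑ a', c a * c a' * (w a x y * w a' x y * μ y) := by
      intro x y
      rw [pow_two, Finset.sum_mul_sum, Finset.sum_mul]
      apply Finset.sum_congr rfl
      intro a _
      rw [Finset.sum_mul]
      apply Finset.sum_congr rfl
      intro a' _
      ring
    simp only [h2]
    have h3 : ∀ a a', c a * c a' * ∑ x, ∑ y, w a x y * w a' x y * μ y =
        ∑ x, ∑ y, c a * c a' * (w a x y * w a' x y * μ y) := by
      intro a a'
      simp only [← Finset.mul_sum]
    simp only [h3]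
    have h4 : ∀ a, ∑ a', ∑ x, ∑ y, c a * c a' * (w a x y * w a' x y * μ y) =
        ∑ x, ∑ y, ∑ a', c a * c a' * (w a x y * w a' x y * μ y) := by
      intro a
      rw [Finset.sum_comm]
      apply Finset.sum_congr rfl
      intro x _
      rw [Finset.sum_comm]
    simp only [h4]
    rw [Finset.sum_comm]
    apply Finset.sum_congr rfl
    intro x _
    rw [Finset.sum_comm]
  rw [h1]
  apply Finset.sum_nonneg
  intro x _
  apply Finset.sum_nonneg
  intro y _
  exact mul_nonneg (sq_nonneg _) (hμ y).le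

/-- **Cauchy-Schwarz inequality** for the chromatic polynomials of gluings. -/
theorem gluing_cs (n : ℕ) (V₁ V₂ W₁₁ W₁₂ W₂₂ : Type) [Finite V₁] [Finite V₂]
    (D₁ : SimpleGraph V₁) (b₁ : Fin n ↪ V₁) (D₂ : SimpleGraph V₂) (b₂ : Fin n ↪ V₂)
    (h₁ : NoCross D₁ b₁) (h₂ : NoCross D₂ b₂)
    (G₁₁ : SimpleGraph W₁₁) (G₁₂ : SimpleGraph W₁₂) (G₂₂ : SimpleGraph W₂₂)
    (hG₁₁ : IsGluing D₁ b₁ D₁ b₁ G₁₁) (hG₁₂ : IsGluing D₁ b₁ D₂ b₂ G₁₂)
    (hG₂₂ : IsGluing D₂ b₂ D₂ b₂ G₂₂) (p₁₁ p₁₂ p₂₂ : Polynomial ℝ)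
    (hp₁₁ : IsChromaticPolynomial G₁₁ p₁₁) (hp₁₂ : IsChromaticPolynomial G₁₂ p₁₂)
    (hp₂₂ : IsChromaticPolynomial G₂₂ p₂₂) (q : ℝ) (hq : 4 ≤ q) :
    0 ≤ p₁₁.eval q ∧ 0 ≤ p₂₂.eval q ∧ (p₁₂.eval q) ^ 2 ≤ p₁₁.eval q * p₂₂.eval q := by
  have _ : Fintype V₁ := Fintype.ofFinite _
  have _ : Fintype V₂ := Fintype.ofFinite _
  let F : Bool → (N : ℕ) → (Fin n → Fin (N + 1)) → ℝ := fun a =>
    if a then bdCount D₁ b₁ else bdCount D₂ b₂
  let p : Bool → Bool → Polynomial ℝ := fun a a' =>
    if a then (if a' then p₁₁ else p₁₂) else (if a' then p₁₂ else p₂₂)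
  have hF : ∀ a, Expands (F a) := by
    intro a
    cases a
    · exact expands_bdCount h₂
    · exact expands_bdCount h₁
  have hp : ∀ a b (N : ℕ), (p a b).eval ((N : ℝ) + 1) = ∑ β, F a N β * F b N β := by
    have k11 := fun N : ℕ => hp₁₁ (N + 1)
    have k12 := fun N : ℕ => hp₁₂ (N + 1)
    have k22 := fun N : ℕ => hp₂₂ (N + 1)
    simp only [card_gluing hG₁₁, card_gluing hG₁₂, card_gluing hG₂₂] at k11 k12 k22
    push_cast at k11 k12 k22
    intro a a' N
    cases a <;> cases a'
    · exact k22 N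
    · have := k12 N
      simp only [p, F, if_true, Bool.false_eq_true, if_false]
      rw [this]
      apply Finset.sum_congr rfl
      intro β _
      ring
    · exact k12 N
    · exact k11 N
  obtain ⟨w, μ, hμ, hw⟩ := core F hF p hp q hq
  have e11 : p₁₁.eval q = _ := hw true true
  have e12 : p₁₂.eval q = _ := hw true false
  have e22 : p₂₂.eval q = _ := hw false false
  refine ⟨?_, ?_, ?_⟩
  · rw [e11]
    exact Finset.sum_nonneg fun x _ => Finset.sum_nonneg fun y _ =>
      mul_nonneg (mul_self_nonneg _) (hμ y).le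
  · rw [e22]
    exact Finset.sum_nonneg fun x _ => Finset.sum_nonneg fun y _ =>
      mul_nonneg (mul_self_nonneg _) (hμ y).le
  · rw [e11, e12, e22]
    exact cs _ _ μ hμ

/-- The chromatic polynomial of a double is bounded below by that of its half. -/
theorem double_bound (n : ℕ) (V W : Type) [Finite V] (D : SimpleGraph V) (b : Fin n ↪ V)
    (h : NoCross D b) (G : SimpleGraph W) (hG : IsGluing D b D b G) (p P : Polynomial ℝ)
    (hp : IsChromaticPolynomial D p) (hP : IsChromaticPolynomial G P) (q : ℝ) (hq : 4 ≤ q) :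
    (p.eval q) ^ 2 ≤ q ^ n * P.eval q := by
  have hg : IsGluing D b (⊥ : SimpleGraph (Fin n)) (Function.Embedding.refl _) D := by
    refine ⟨Function.Embedding.refl _, b, fun i => rfl, fun x y h => ⟨y, h, rfl⟩,
      fun v => Or.inl ⟨v, rfl⟩, ?_⟩
    ext u v
    simp [SimpleGraph.map_adj]
  have hg' : IsGluing (⊥ : SimpleGraph (Fin n)) (Function.Embedding.refl _)
      (⊥ : SimpleGraph (Fin n)) (Function.Embedding.refl _) (⊥ : SimpleGraph (Fin n)) := by
    refine ⟨Function.Embedding.refl _, Function.Embedding.refl _, fun i => rfl,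
      fun x y h => ⟨y, h, rfl⟩, fun v => Or.inl ⟨v, rfl⟩, ?_⟩
    ext u v
    simp [SimpleGraph.map_adj]
  have hbot : IsChromaticPolynomial (⊥ : SimpleGraph (Fin n)) (Polynomial.X ^ n) := by
    intro N
    have e : (⊥ : SimpleGraph (Fin n)).Coloring (Fin N) ≃ (Fin n → Fin N) :=
      { toFun := fun c i => c i
        invFun := fun f => SimpleGraph.Coloring.mk f (fun h => absurd h (by simp))
        left_inv := fun c => by ext; rfl
        right_inv := fun f => by funext i; rfl }
    rw [Nat.card_congr e]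
    simp
  have := gluing_cs n V (Fin n) W V (Fin n) D b ⊥ (Function.Embedding.refl _) h noCross_bot
    G D ⊥ hG hg hg' P p (Polynomial.X ^ n) hP hp hbot q hq
  have h3 := this.2.2
  rw [Polynomial.eval_pow, Polynomial.eval_X] at h3
  linarith

/-- **Reflection inequality**: the strongest form. -/
theorem reflection_inequality (n : ℕ) (ι : Type) [Fintype ι] (V : ι → Type)
    [∀ a, Finite (V a)] (D : ∀ a, SimpleGraph (V a)) (b : ∀ a, Fin n ↪ V a)
    (hD : ∀ a, NoCross (D a) (b a)) (W : ι → ι → Type) (G : ∀ a a', SimpleGraph (W a a'))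
    (hG : ∀ a a', IsGluing (D a) (b a) (D a') (b a') (G a a'))
    (p : ι → Polynomial ℝ) (hp : ∀ a, IsChromaticPolynomial (D a) (p a))
    (P : ι → ι → Polynomial ℝ) (hP : ∀ a a', IsChromaticPolynomial (G a a') (P a a'))
    (q : ℝ) (hq : 4 ≤ q) (c : ι → ℝ) :
    (∑ a, c a * (p a).eval q) ^ 2 ≤ q ^ n * ∑ a, ∑ a', c a * c a' * (P a a').eval q := by
  have _ : ∀ a, Fintype (V a) := fun a => Fintype.ofFinite _
  let F : Option ι → (N : ℕ) → (Fin n → Fin (N + 1)) → ℝ := fun a =>
    match a with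
    | none => bdCount (⊥ : SimpleGraph (Fin n)) (Function.Embedding.refl _)
    | some a => bdCount (D a) (b a)
  let R : Option ι → Option ι → Polynomial ℝ := fun a a' =>
    match a, a' with
    | none, none => Polynomial.X ^ n
    | none, some a' => p a'
    | some a, none => p a
    | some a, some a' => P a a'
  have hF : ∀ a, Expands (F a) := by
    intro a
    cases a
    · exact expands_bdCount noCross_bot
    · exact expands_bdCount (hD _)
  have hR : ∀ a a' (N : ℕ), (R a a').eval ((N : ℝ) + 1) = ∑ β, F a N β * F a' N β := by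
    intro a a' N
    rcases a with _ | a <;> rcases a' with _ | a'
    · simp [R, F, bdCount_bot]
    · have h1 := hp a' (N + 1)
      rw [card_eq_sum (D a') (b a') N] at h1
      push_cast at h1
      simp only [R, F, bdCount_bot, one_mul]
      exact h1
    · have h1 := hp a (N + 1)
      rw [card_eq_sum (D a) (b a) N] at h1
      push_cast at h1
      simp only [R, F, bdCount_bot, mul_one]
      exact h1
    · have h1 := hP a a' (N + 1)
      rw [card_gluing (hG a a') N] at h1
      push_cast at h1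
      exact h1
  obtain ⟨w, μ, hμ, hw⟩ := core F hF R hR q hq
  have e0 : q ^ n = ∑ x, ∑ y, w none x y * w none x y * μ y := by
    rw [← hw none none]; simp [R]
  have e1 : ∑ a, c a * (p a).eval q = ∑ x, ∑ y, w none x y * (∑ a, c a * w (some a) x y) * μ y := by
    have h1 : ∀ a, (p a).eval q = ∑ x, ∑ y, w none x y * w (some a) x y * μ y :=
      fun a => hw none (some a)
    simp only [h1]
    have h2 : ∀ a, c a * ∑ x, ∑ y, w none x y * w (some a) x y * μ y =
        ∑ x, ∑ y, c a * (w none x y * w (some a) x y * μ y) := by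
      intro a
      simp only [← Finset.mul_sum]
    simp only [h2]
    rw [Finset.sum_comm]
    apply Finset.sum_congr rfl
    intro x _
    rw [Finset.sum_comm]
    apply Finset.sum_congr rfl
    intro y _
    rw [Finset.mul_sum, Finset.sum_mul]
    apply Finset.sum_congr rfl
    intro a _
    ring
  have e2 : ∑ a, ∑ a', c a * c a' * (P a a').eval q =
      ∑ x, ∑ y, (∑ a, c a * w (some a) x y) * (∑ a, c a * w (some a) x y) * μ y := by
    have h0 : ∀ a a', (P a a').eval q = ∑ x, ∑ y, w (some a) x y * w (some a') x y * μ y :=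
      fun a a' => hw (some a) (some a')
    simp only [h0]
    have h2 : ∀ x y, (∑ a, c a * w (some a) x y) * (∑ a, c a * w (some a) x y) * μ y =
        ∑ a, ∑ a', c a * c a' * (w (some a) x y * w (some a') x y * μ y) := by
      intro x y
      rw [Finset.sum_mul_sum, Finset.sum_mul]
      apply Finset.sum_congr rfl
      intro a _
      rw [Finset.sum_mul]
      apply Finset.sum_congr rfl
      intro a' _
      ring
    simp only [h2]
    have h3 : ∀ a a', c a * c a' * ∑ x, ∑ y, w (some a) x y * w (some a') x y * μ y =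
        ∑ x, ∑ y, c a * c a' * (w (some a) x y * w (some a') x y * μ y) := by
      intro a a'
      simp only [← Finset.mul_sum]
    simp only [h3]
    have h4 : ∀ a, ∑ a', ∑ x, ∑ y, c a * c a' * (w (some a) x y * w (some a') x y * μ y) =
        ∑ x, ∑ y, ∑ a', c a * c a' * (w (some a) x y * w (some a') x y * μ y) := by
      intro a
      rw [Finset.sum_comm]
      apply Finset.sum_congr rfl
      intro x _
      rw [Finset.sum_comm]
    simp only [h4]
    rw [Finset.sum_comm]
    apply Finset.sum_congr rfl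
    intro x _
    rw [Finset.sum_comm]
  rw [e0, e1, e2]
  exact cs (w none) (fun x y => ∑ a, c a * w (some a) x y) μ hμ

end Pool.Agent.Helper20
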