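import Pool.Agent.Helper20.RPGram

set_option autoImplicit false

namespace Pool.Agent.Helper20.RP

open Finset Function

variable {α : Type} [LinearOrder α]

theorem sum_swap [Fintype α] {C : Type} [Fintype C] (i : α) (H : (α → C) → C → ℝ) :
    ∑ x, ∑ a, H x a = ∑ x, ∑ a, H (update x i a) (x i) := by
  rw [← Fintype.sum_prod_type', ← Fintype.sum_prod_type']
  have hinv : Function.Involutive
      (fun p : (α → C) × C => ((update p.1 i p.2, p.1 i) : (α → C) × C)) := by
    intro p
    simp
  refine (Fintype.sum_equiv hinv.toPerm _ _ ?_).symm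
  intro p
  rfl

theorem sum_upd [Fintype α] {C : Type} [Fintype C] (i : α) (F : (α → C) → ℝ) :
    (Fintype.card C : ℝ) * ∑ x, F x = ∑ x, ∑ a, F (update x i a) := by
  rw [← sum_swap i (fun x _ => F x)]
  simp [Finset.mul_sum]

theorem sum_upd2 [Fintype α] (i : α) (F : (α → Bool) → (α → Bool) → ℝ) :
    4 * ∑ x, ∑ y, F x y = ∑ x, ∑ y, ∑ a, ∑ b, F (update x i a) (update y i b) := by
  have h1 := sum_upd i (fun x => ∑ y, F x y)
  have h2 : ∀ (x : α → Bool), 2 * ∑ y, F x y = ∑ y, ∑ b, F x (update y i b) := by
    intro x
    have := sum_upd i (fun y => F x y)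
    simpa using this
  have h3 : (2 : ℝ) * ∑ x, ∑ y, F x y = ∑ x, ∑ a, ∑ y, F (update x i a) y := by
    simpa using h1
  have h4 : (4 : ℝ) * ∑ x, ∑ y, F x y = ∑ x, ∑ a, ∑ y, ∑ b, F (update x i a) (update y i b) := by
    have : (4 : ℝ) * ∑ x, ∑ y, F x y = 2 * (2 * ∑ x, ∑ y, F x y) := by ring
    rw [this, h3, Finset.mul_sum]
    apply Finset.sum_congr rfl
    intro x _
    rw [Finset.mul_sum]
    apply Finset.sum_congr rfl
    intro a _
    exact h2 _
  rw [h4]
  apply Finset.sum_congr rfl
  intro x _
  rw [Finset.sum_comm]

open Classical in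
/-- The indicator of the colourings constant on the classes of `r` within `S`. -/
noncomputable def potts (S : Finset α) (r : α → α → Prop) : PV α :=
  fun _ c => if ∀ i ∈ S, ∀ j ∈ S, r i j → c i = c j then 1 else 0

theorem potts_dep {S : Finset α} {r : α → α → Prop} {N : ℕ} {c c' : α → Fin (N + 1)}
    (h : ∀ i ∈ S, c i = c' i) : potts S r N c = potts S r N c' := by
  unfold potts
  congr 1
  apply propext
  constructor
  · intro H i hi j hj hij
    rw [← h i hi, ← h j hj]; exact H i hi j hj hij
  · intro H i hi j hj hij
    rw [h i hi, h j hj]; exact H i hi j hj hij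

theorem potts_isolated {S : Finset α} {r : α → α → Prop} (hr : Equivalence r) {i : α}
    (hi : ∀ j ∈ S, r i j → j = i) (N : ℕ) (c : α → Fin (N + 1)) :
    potts (S.erase i) r N c = potts S r N c := by
  unfold potts
  congr 1
  apply propext
  constructor
  · intro H a ha b hb hab
    by_cases hai : a = i
    · subst hai
      rw [hi b hb hab]
    · by_cases hbi : b = i
      · subst hbi
        rw [hi a ha (hr.symm hab)]
      · exact H a (mem_erase.2 ⟨hai, ha⟩) b (mem_erase.2 ⟨hbi, hb⟩) hab
  · intro H a ha b hb hab
    exact H a (mem_of_mem_erase ha) b (mem_of_mem_erase hb) hab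

theorem potts_pair {S : Finset α} {r : α → α → Prop} (hr : Equivalence r) {i j : α}
    (hi : i ∈ S) (hj : j ∈ S) (hne : i ≠ j) (hij : r i j) (N : ℕ) (c : α → Fin (N + 1)) :
    (if c i = c j then potts (S.erase j) r N c else 0) = potts S r N c := by
  have hi' : i ∈ S.erase j := mem_erase.2 ⟨hne, hi⟩
  unfold potts
  by_cases h : ∀ i ∈ S, ∀ j ∈ S, r i j → c i = c j
  · have h1 : c i = c j := h i hi j hj hij
    have h2 : ∀ a ∈ S.erase j, ∀ b ∈ S.erase j, r a b → c a = c b := by
      intro a ha b hb hab
      exact h a (mem_of_mem_erase ha) b (mem_of_mem_erase hb) hab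
    rw [if_pos h1, if_pos h2, if_pos h]
  · rw [if_neg h]
    by_cases h1 : c i = c j
    · rw [if_pos h1, if_neg]
      intro h2
      apply h
      intro a ha b hb hab
      by_cases haj : a = j
      · subst haj
        by_cases hbj : b = a
        · rw [hbj]
        · rw [← h1]
          exact h2 i hi' b (mem_erase.2 ⟨hbj, hb⟩) (hr.trans hij hab)
      · by_cases hbj : b = j
        · subst hbj
          rw [← h1]
          exact h2 a (mem_erase.2 ⟨haj, ha⟩) i hi' (hr.trans hab (hr.symm hij))
        · exact h2 a (mem_erase.2 ⟨haj, ha⟩) b (mem_erase.2 ⟨hbj, hb⟩) hab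
    · rw [if_neg h1]

/-- noncrossing relations -/
def NonCrossing (r : α → α → Prop) : Prop :=
  ∀ i j k l : α, i < j → j < k → k < l → r i k → r j l → r i j

theorem exists_removable {S : Finset α} {r : α → α → Prop} (hr : Equivalence r)
    (hn : NonCrossing r) (hS : S.Nonempty) :
    (∃ i ∈ S, ∀ j ∈ S, r i j → j = i) ∨
    (∃ i ∈ S, ∃ j ∈ S, i < j ∧ r i j ∧ ∀ t ∈ S, i < t → t < j → False) := by
  classical
  by_cases hA : ∃ i ∈ S, ∀ j ∈ S, r i j → j = i
  · exact Or.inl hA
  · right
    push_neg at hA
    let P : Finset (α × α) := (S ×ˢ S).filter (fun p => p.1 < p.2 ∧ r p.1 p.2)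
    have hP : P.Nonempty := by
      obtain ⟨s, hs⟩ := hS
      obtain ⟨t, ht, hst, hne⟩ := hA s hs
      rcases lt_or_gt_of_ne hne with h | h
      · exact ⟨(t, s), by simp [P, ht, hs, h, hr.symm hst]⟩
      · exact ⟨(s, t), by simp [P, ht, hs, h, hst]⟩
    obtain ⟨p, hp, hmin⟩ := Finset.exists_min_image P
      (fun p => (S.filter (fun t => p.1 < t ∧ t < p.2)).card) hP
    obtain ⟨i, j⟩ := p
    simp only [P, mem_filter, mem_product] at hp
    obtain ⟨⟨hi, hj⟩, hij, hrij⟩ := hp
    refine ⟨i, hi, j, hj, hij, hrij, ?_⟩
    intro t ht hit htj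
    -- any pair inside the closed interval, not equal to (i, j), contradicts minimality
    have key : ∀ a ∈ S, ∀ b ∈ S, a < b → r a b → i ≤ a → b ≤ j →
        (∃ s ∈ S, i < s ∧ s < j ∧ (s ≤ a ∨ b ≤ s)) → False := by
      intro a ha b hb hab hrab hia hbj ⟨s, hs, his, hsj, hsab⟩
      have h1 := hmin (a, b) (by simp [P, ha, hb, hab, hrab])
      have h2 : (S.filter (fun t => a < t ∧ t < b)) ⊂ (S.filter (fun t => i < t ∧ t < j)) := by
        rw [Finset.ssubset_iff_of_subset]
        · refine ⟨s, by simp [hs, his, hsj], ?_⟩
          simp only [mem_filter, not_and, not_lt]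
          intro _ has
          rcases hsab with h | h
          · exact absurd has (not_lt.2 h)
          · exact h
        · intro u hu
          simp only [mem_filter] at hu ⊢
          exact ⟨hu.1, lt_of_le_of_lt hia hu.2.1, lt_of_lt_of_le hu.2.2 hbj⟩
      have h3 := Finset.card_lt_card h2
      simp only at h1
      omega
    by_cases hrit : r i t
    · exact key i hi t ht hit hrit le_rfl htj.le ⟨t, ht, hit, htj, Or.inr le_rfl⟩
    · obtain ⟨t', ht', hrt, hne⟩ := hA t ht
      have h1 : t' ≠ i := by
        intro h; subst h; exact hrit (hr.symm hrt)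
      have h2 : t' ≠ j := by
        intro h; subst h; exact hrit (hr.trans hrij (hr.symm hrt))
      rcases lt_or_gt_of_ne h1 with h3 | h3
      · -- t' < i < t < j
        have := hn t' i t j h3 hit htj (hr.symm hrt) hrij
        exact hrit (hr.symm (hr.trans hrt this))
      · rcases lt_or_gt_of_ne h2 with h4 | h4
        · rcases lt_or_gt_of_ne hne with h5 | h5
          · exact key t' ht' t ht h5 (hr.symm hrt) h3.le htj.le ⟨t, ht, hit, htj, Or.inr le_rfl⟩
          · exact key t ht t' ht' h5 hrt hit.le h4.le ⟨t, ht, hit, htj, Or.inl le_rfl⟩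
        · exact hrit (hn i t j t' hit htj h4 hrij hrt)

theorem gen_empty {ρ : Bool → ℝ} {S : Finset α} {W : PV α} {w : RV α} (h : Gen ρ S W w)
    (hS : S = ∅) : (∀ N c, W N c = 1) ∧ (∀ x y, w x y = 1) := by
  cases h with
  | nil => exact ⟨fun _ _ => rfl, fun _ _ => rfl⟩
  | ins i hi h => exact absurd hS (by simp)
  | dup i j hi hj hij hadj h => exact absurd hS (by simp)
  | rel i j hi hj hadj h => exact absurd hS (by simp)

theorem exists_state [Fintype α] {ρ : Bool → ℝ} {q : ℝ} (hρ : ∀ a, 0 < ρ a) (hq : ∑ a, ρ a = q)
    (hq' : ∑ a, (ρ a)⁻¹ = 1) {r : α → α → Prop} (hr : Equivalence r) (hn : NonCrossing r) :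
    ∀ (m : ℕ) (S : Finset α), S.card = m → ∃ v : RV α, Gen ρ S (potts S r) v ∧
      ∀ (W : PV α) (w : RV α), Gen ρ S W w → ∃ e : ℕ,
        (∀ N : ℕ, ∑ c, potts S r N c * W N c = ((N : ℝ) + 1) ^ (e + Sᶜ.card)) ∧
        ∑ x, ∑ y, v x y * w x y * ∏ i ∈ S, ρ (y i) = q ^ e * 4 ^ Sᶜ.card := by
  intro m
  induction m with
  | zero =>
    intro S hS
    have hS0 : S = ∅ := Finset.card_eq_zero.1 hS
    subst hS0
    refine ⟨fun _ _ => 1, ?_, ?_⟩
    · refine Gen.nil.congr' rfl ?_ ?_
      · intro N c; simp [potts]
      · intro x y; rfl
    · intro W w hW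
      obtain ⟨h1, h2⟩ := gen_empty hW rfl
      refine ⟨0, ?_, ?_⟩
      · intro N
        simp [h1, potts]
      · simp only [h2]
        simp
        rw [← mul_pow]; norm_num
  | succ m ih =>
    intro S hS
    have hne : S.Nonempty := by
      rw [← Finset.card_pos]; omega
    rcases exists_removable hr hn hne with ⟨i, hi, hiso⟩ | ⟨i, hi, j, hj, hij, hrij, hadj⟩
    · -- isolated point
      have hcard : (S.erase i).card = m := by
        rw [Finset.card_erase_of_mem hi, hS]; rfl
      have hins : insert i (S.erase i) = S := Finset.insert_erase hi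
      have hcc : (S.erase i)ᶜ.card = Sᶜ.card + 1 := by
        rw [Finset.card_compl, Finset.card_compl, hcard, hS]
        have := Finset.card_le_univ S
        omega
      obtain ⟨v, hv, hgram⟩ := ih (S.erase i) hcard
      have hGS := (Gen.ins i (Finset.notMem_erase i S) hv).congr' hins
        (fun N c => potts_isolated hr hiso N c) (fun x y => rfl)
      refine ⟨_, hGS, ?_⟩
      intro W w hW
      obtain ⟨W', w', ε, hG, hWV, hWr⟩ := hW.contract hρ hq i hi
      obtain ⟨e, he1, he2⟩ := hgram W' w' hG
      refine ⟨e + ε, ?_, ?_⟩
      · intro N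
        have h1 := sum_upd i (fun c => potts S r N c * W N c)
        have h2 : ∑ x, ∑ a, potts S r N (update x i a) * W N (update x i a) =
            ((N : ℝ) + 1) ^ ε * ((N : ℝ) + 1) ^ (e + (S.erase i)ᶜ.card) := by
          rw [← he1 N, Finset.mul_sum]
          apply Finset.sum_congr rfl
          intro c _
          have h3 : ∀ a, potts S r N (update c i a) = potts (S.erase i) r N c := by
            intro a
            rw [← potts_isolated hr hiso]
            apply potts_dep
            intro t ht
            rw [update_of_ne (mem_erase.1 ht).1]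
          simp only [h3]
          rw [← Finset.mul_sum, hWV N c]
          ring
        rw [h2, hcc] at h1
        have h4 : ((N : ℝ) + 1) ≠ 0 := by positivity
        have h5 : ((Fintype.card (Fin (N + 1)) : ℕ) : ℝ) = (N : ℝ) + 1 := by simp
        rw [h5] at h1
        apply mul_left_cancel₀ h4
        rw [h1]
        ring
      · have h1 := sum_upd2 i (fun x y => (if x i = y i then v x y else 0) * w x y *
          ∏ t ∈ S, ρ (y t))
        have h2 : ∑ x, ∑ y, ∑ a, ∑ b,
            (if (update x i a) i = (update y i b) i then v (update x i a) (update y i b) else 0) *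
              w (update x i a) (update y i b) * ∏ t ∈ S, ρ ((update y i b) t) =
            q ^ ε * (q ^ e * 4 ^ (S.erase i)ᶜ.card) := by
          rw [← he2, Finset.mul_sum]
          apply Finset.sum_congr rfl
          intro x _
          rw [Finset.mul_sum]
          apply Finset.sum_congr rfl
          intro y _
          have h3 : ∀ a b, v (update x i a) (update y i b) = v x y := by
            intro a b
            apply hv.depR
            · intro t ht
              rw [update_of_ne (mem_erase.1 ht).1]
            · intro t ht
              rw [update_of_ne (mem_erase.1 ht).1]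
          have h4 : ∀ b, ∏ t ∈ S, ρ ((update y i b) t) = ρ b * ∏ t ∈ S.erase i, ρ (y t) := by
            intro b
            rw [← Finset.mul_prod_erase S _ hi, update_self]
            congr 1
            apply Finset.prod_congr rfl
            intro t ht
            rw [update_of_ne (mem_erase.1 ht).1]
          have h5 : ∀ a, ∑ b, (if a = b then v x y else 0) * w (update x i a) (update y i b) *
              (ρ b * ∏ t ∈ S.erase i, ρ (y t)) =
              v x y * (∏ t ∈ S.erase i, ρ (y t)) * (ρ a * w (update x i a) (update y i a)) := by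
            intro a
            rw [Finset.sum_eq_single a]
            · rw [if_pos rfl]; ring
            · intro b _ hb
              rw [if_neg (Ne.symm hb)]; ring
            · simp
          simp only [update_self, h3, h4, h5]
          rw [← Finset.mul_sum, hWr x y]
          ring
        rw [h2, hcc] at h1
        have h4 : (4 : ℝ) ≠ 0 := by norm_num
        apply mul_left_cancel₀ h4
        rw [h1]
        ring
    · -- adjacent pair
      have hne' : i ≠ j := ne_of_lt hij
      have hcard : (S.erase j).card = m := by
        rw [Finset.card_erase_of_mem hj, hS]; rfl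
      have hins : insert j (S.erase j) = S := Finset.insert_erase hj
      have hcc : (S.erase j)ᶜ.card = Sᶜ.card + 1 := by
        rw [Finset.card_compl, Finset.card_compl, hcard, hS]
        have := Finset.card_le_univ S
        omega
      have hi' : i ∈ S.erase j := mem_erase.2 ⟨hne', hi⟩
      obtain ⟨v, hv, hgram⟩ := ih (S.erase j) hcard
      have hGS := (Gen.dup i j hi' (Finset.notMem_erase j S) hij
        (fun t ht => hadj t (mem_of_mem_erase ht)) hv).congr' hins
        (fun N c => potts_pair hr hi hj hne' hrij N c) (fun x y => rfl)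
      refine ⟨_, hGS, ?_⟩
      intro W w hW
      have hG := hW.merge hρ hq' i hi j hj hij hadj
      obtain ⟨e, he1, he2⟩ := hgram _ _ hG
      refine ⟨e, ?_, ?_⟩
      · intro N
        have h1 := sum_upd j (fun c => potts S r N c * W N c)
        have h2 : ∑ x, ∑ a, potts S r N (update x j a) * W N (update x j a) =
            ((N : ℝ) + 1) ^ (e + (S.erase j)ᶜ.card) := by
          rw [← he1 N]
          apply Finset.sum_congr rfl
          intro c _
          have h3 : ∀ a, potts S r N (update c j a) =
              if c i = a then potts (S.erase j) r N c else 0 := by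
            intro a
            rw [← potts_pair hr hi hj hne' hrij]
            rw [update_self, update_of_ne hne']
            congr 1
            apply potts_dep
            intro t ht
            rw [update_of_ne (mem_erase.1 ht).1]
          simp only [h3]
          rw [Finset.sum_eq_single (c i)]
          · rw [if_pos rfl]
          · intro b _ hb
            rw [if_neg (Ne.symm hb)]; ring
          · simp
        rw [h2, hcc] at h1
        have h4 : ((N : ℝ) + 1) ≠ 0 := by positivity
        have h5 : ((Fintype.card (Fin (N + 1)) : ℕ) : ℝ) = (N : ℝ) + 1 := by simp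
        rw [h5] at h1
        apply mul_left_cancel₀ h4
        rw [h1]
        ring
      · have h1 := sum_upd2 j (fun x y =>
          (if y i = x j then (ρ (x j))⁻¹ * v x (update y i (y j)) else 0) * w x y *
          ∏ t ∈ S, ρ (y t))
        have hvx : ∀ (x : α → Bool) (y : α → Bool) a, v (update x j a) y = v x y := by
          intro x y a
          apply hv.depR
          · intro t ht
            rw [update_of_ne (mem_erase.1 ht).1]
          · intro t ht; rfl
        have hvy : ∀ (x : α → Bool) (y : α → Bool) a b,
            v x (update (update y j b) i a) = v x (update y i a) := by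
          intro x y a b
          apply hv.depR
          · intro t ht; rfl
          · intro t ht
            by_cases hti : t = i
            · subst hti; simp
            · simp [update_of_ne hti, update_of_ne (mem_erase.1 ht).1]
        have h4 : ∀ (y : α → Bool) b, ∏ t ∈ S, ρ ((update y j b) t) =
            ρ b * ∏ t ∈ S.erase j, ρ (y t) := by
          intro y b
          rw [← Finset.mul_prod_erase S _ hj, update_self]
          congr 1
          apply Finset.prod_congr rfl
          intro t ht
          rw [update_of_ne (mem_erase.1 ht).1]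
        have h2 : ∑ x, ∑ y, ∑ a, ∑ b,
            (if (update y j b) i = (update x j a) j then (ρ ((update x j a) j))⁻¹ *
              v (update x j a) (update (update y j b) i ((update y j b) j)) else 0) *
              w (update x j a) (update y j b) * ∏ t ∈ S, ρ ((update y j b) t) =
            q ^ e * 4 ^ (S.erase j)ᶜ.card := by
          rw [← he2]
          apply Finset.sum_congr rfl
          intro x _
          simp only [update_self, update_of_ne hne', hvx, hvy, h4]
          -- left side: sum over y a b
          have h5 : ∀ y : α → Bool, ∑ a, ∑ b, (if y i = a then (ρ a)⁻¹ * v x (update y i b) else 0) *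
              w (update x j a) (update y j b) * (ρ b * ∏ t ∈ S.erase j, ρ (y t)) =
              ∑ b, v x (update y i b) * w (update x j (y i)) (update y j b) *
                ∏ t ∈ S.erase j, ρ ((update y i b) t) := by
            intro y
            rw [Finset.sum_eq_single (y i)]
            · apply Finset.sum_congr rfl
              intro b _
              rw [if_pos rfl]
              rw [← Finset.mul_prod_erase (S.erase j) (fun t => ρ (y t)) hi',
                ← Finset.mul_prod_erase (S.erase j) (fun t => ρ ((update y i b) t)) hi']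
              have h6 : ∏ t ∈ (S.erase j).erase i, ρ ((update y i b) t) =
                  ∏ t ∈ (S.erase j).erase i, ρ (y t) := by
                apply Finset.prod_congr rfl
                intro t ht
                rw [update_of_ne (mem_erase.1 ht).1]
              rw [h6, update_self]
              have := (hρ (y i)).ne'
              field_simp
            · intro a _ ha
              simp [Ne.symm ha]
            · simp
          simp only [h5]
          rw [sum_swap i (fun y b => v x (update y i b) * w (update x j (y i)) (update y j b) *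
                ∏ t ∈ S.erase j, ρ ((update y i b) t))]
          apply Finset.sum_congr rfl
          intro y _
          simp only [update_idem, update_self, update_eq_self]
          rw [← Finset.sum_mul, ← Finset.mul_sum]
        rw [h2, hcc] at h1
        have h4' : (4 : ℝ) ≠ 0 := by norm_num
        apply mul_left_cancel₀ h4'
        rw [h1]
        ring

/-- The states of all noncrossing partitions with their Gram matrix. -/
theorem exists_states [Fintype α] {ρ : Bool → ℝ} {q : ℝ} (hρ : ∀ a, 0 < ρ a) (hq : ∑ a, ρ a = q)
    (hq' : ∑ a, (ρ a)⁻¹ = 1) :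
    ∃ st : (α → α → Prop) → RV α, ∀ r s : α → α → Prop, Equivalence r → NonCrossing r →
      Equivalence s → NonCrossing s → ∃ e : ℕ,
        (∀ N : ℕ, ∑ c, potts univ r N c * potts univ s N c = ((N : ℝ) + 1) ^ e) ∧
        ∑ x, ∑ y, st r x y * st s x y * ∏ i, ρ (y i) = q ^ e := by
  classical
  have H : ∀ r : α → α → Prop, ∃ v : RV α, (Equivalence r ∧ NonCrossing r) →
      Gen ρ univ (potts univ r) v ∧
      ∀ (W : PV α) (w : RV α), Gen ρ univ W w → ∃ e : ℕ,
        (∀ N : ℕ, ∑ c, potts univ r N c * W N c = ((N : ℝ) + 1) ^ e) ∧
        ∑ x, ∑ y, v x y * w x y * ∏ i, ρ (y i) = q ^ e := by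
    intro r
    by_cases hr : Equivalence r ∧ NonCrossing r
    · obtain ⟨v, hv, hg⟩ := exists_state hρ hq hq' hr.1 hr.2 _ univ rfl
      refine ⟨v, fun _ => ⟨hv, ?_⟩⟩
      intro W w hW
      obtain ⟨e, h1, h2⟩ := hg W w hW
      refine ⟨e, ?_, ?_⟩
      · intro N
        rw [h1 N]; simp
      · rw [h2]; simp
    · exact ⟨fun _ _ => 0, fun h => absurd h hr⟩
  choose st hst using H
  refine ⟨st, ?_⟩
  intro r s hr hrn hs hsn
  exact (hst r ⟨hr, hrn⟩).2 _ _ (hst s ⟨hs, hsn⟩).1

end Pool.Agent.Helper20.RP
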