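import Pool.Agent.Helper20.RPSweep
import Pool.Agent.Helper20.RPMain

/-!
# Strips: layered graphs built from a pattern by repeated reflection
-/

set_option autoImplicit false

namespace Pool.Agent.Helper20.RP

open SimpleGraph

variable {m : ℕ}

/-- the strip with `L + 1` rows, row graph `R` and pattern `E r` between rows `r` and `r + 1` -/
def strip (R : SimpleGraph (Fin m)) (E : ℕ → Fin m → Fin m → Prop) (L : ℕ) :
    SimpleGraph (Fin (L + 1) × Fin m) where
  Adj u v := (u.1 = v.1 ∧ R.Adj u.2 v.2) ∨ (u.1.val + 1 = v.1.val ∧ E u.1.val u.2 v.2) ∨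
    (v.1.val + 1 = u.1.val ∧ E v.1.val v.2 u.2)
  symm := ⟨by
    intro u v h
    rcases h with h | h | h
    · exact Or.inl ⟨h.1.symm, h.2.symm⟩
    · exact Or.inr (Or.inr h)
    · exact Or.inr (Or.inl h)⟩
  loopless := ⟨by
    intro u h
    rcases h with h | h | h
    · exact h.2.ne rfl
    · omega
    · omega⟩

theorem strip_adj {R : SimpleGraph (Fin m)} {E : ℕ → Fin m → Fin m → Prop} {L : ℕ}
    {u v : Fin (L + 1) × Fin m} : (strip R E L).Adj u v ↔
    (u.1 = v.1 ∧ R.Adj u.2 v.2) ∨ (u.1.val + 1 = v.1.val ∧ E u.1.val u.2 v.2) ∨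
    (v.1.val + 1 = u.1.val ∧ E v.1.val v.2 u.2) := Iff.rfl

/-- the last row -/
def lastRow (m L : ℕ) : Fin m ↪ Fin (L + 1) × Fin m where
  toFun i := (Fin.last L, i)
  inj' i j h := by simpa using h

theorem lastRow_apply (m L : ℕ) (i : Fin m) : lastRow m L i = (Fin.last L, i) := rfl

/-- a strip inside a longer one, from the bottom -/
def embA {i s : ℕ} (h : i ≤ s) : Fin (i + 1) × Fin m ↪ Fin (s + 1) × Fin m where
  toFun u := (⟨u.1.val, by omega⟩, u.2)
  inj' := by
    rintro ⟨u1, u2⟩ ⟨v1, v2⟩ h
    simp only [Prod.mk.injEq, Fin.mk.injEq] at h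
    exact Prod.ext (Fin.ext h.1) h.2

/-- a strip inside a longer one, reflected, from the top -/
def embB {j s : ℕ} (h : j ≤ s) : Fin (j + 1) × Fin m ↪ Fin (s + 1) × Fin m where
  toFun u := (⟨s - u.1.val, by omega⟩, u.2)
  inj' := by
    rintro ⟨u1, u2⟩ ⟨v1, v2⟩ h
    simp only [Prod.mk.injEq, Fin.mk.injEq] at h
    have := u1.isLt
    have := v1.isLt
    exact Prod.ext (Fin.ext (by simp only; omega)) h.2

theorem embA_fst {i s : ℕ} (h : i ≤ s) (u : Fin (i + 1) × Fin m) :
    (embA h u).1.val = u.1.val := rfl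
theorem embA_snd {i s : ℕ} (h : i ≤ s) (u : Fin (i + 1) × Fin m) :
    (embA h u).2 = u.2 := rfl
theorem embB_fst {i s : ℕ} (h : i ≤ s) (u : Fin (i + 1) × Fin m) :
    (embB h u).1.val = s - u.1.val := rfl
theorem embB_snd {i s : ℕ} (h : i ≤ s) (u : Fin (i + 1) × Fin m) :
    (embB h u).2 = u.2 := rfl

theorem prod_eq {L : ℕ} {u v : Fin (L + 1) × Fin m} (h1 : u.1.val = v.1.val) (h2 : u.2 = v.2) :
    u = v := Prod.ext (Fin.ext h1) h2

/-- the pattern is a part of the triangular one -/
def Tri (E : ℕ → Fin m → Fin m → Prop) : Prop :=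
  ∀ r i j, E r i j → (2 * i.val + r % 2 + 1 = 2 * j.val + (r + 1) % 2 ∨
    2 * j.val + (r + 1) % 2 + 1 = 2 * i.val + r % 2)

/-- the patterns are alternately reflected -/
def Mirror (E : ℕ → Fin m → Fin m → Prop) : Prop :=
  ∀ r i j, E (r + 1) i j ↔ E r j i

/-- row graphs which are parts of the path -/
def Pathlike (R : SimpleGraph (Fin m)) : Prop :=
  ∀ i j, R.Adj i j → i.val + 1 = j.val ∨ j.val + 1 = i.val

theorem add_row {R : SimpleGraph (Fin m)} (hR : Pathlike R) (L : ℕ)
    (D D' : SimpleGraph (Fin (L + 1) × Fin m))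
    (hD : NC D {u | u.1 = Fin.last L} (fun u => u.2.val))
    (hD' : ∀ u v, D'.Adj u v →
      D.Adj u v ∨ (u.1 = Fin.last L ∧ v.1 = Fin.last L ∧ R.Adj u.2 v.2)) :
    NC D' {u | u.1 = Fin.last L} (fun u => u.2.val) := by
  classical
  have hinj : Set.InjOn (fun u : Fin (L + 1) × Fin m => u.2.val) {u | u.1 = Fin.last L} := by
    rintro ⟨u1, u2⟩ hu ⟨v1, v2⟩ hv huv
    simp only [Set.mem_ofPred_eq] at hu hv
    simp only at huv
    rw [hu, hv, Fin.ext huv]
  refine NC.add_edges hinj ((Finset.univ.filter (fun p : (Fin (L + 1) × Fin m) ×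
    (Fin (L + 1) × Fin m) => p.1.1 = Fin.last L ∧ p.2.1 = Fin.last L ∧
      R.Adj p.1.2 p.2.2)).toList) ?_ hD ?_
  · intro p hp
    simp only [Finset.mem_toList, Finset.mem_filter, Finset.mem_univ, true_and] at hp
    obtain ⟨h1, h2, h3⟩ := hp
    refine ⟨h1, h2, ?_⟩
    intro j hj l hl hjl n1 n2 n3 n4
    have e1 : j.2.val ≠ p.1.2.val := fun hh => n1 (hinj hj h1 hh)
    have e2 : j.2.val ≠ p.2.2.val := fun hh => n2 (hinj hj h2 hh)
    have e3 : l.2.val ≠ p.1.2.val := fun hh => n3 (hinj hl h1 hh)
    have e4 : l.2.val ≠ p.2.2.val := fun hh => n4 (hinj hl h2 hh)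
    rcases hR _ _ h3 with h | h <;> constructor <;> intro h' <;> constructor <;> omega
  · intro u v huv
    rcases hD' u v huv with h | h
    · exact Or.inl h
    · right
      refine ⟨(u, v), ?_, Or.inl ⟨rfl, rfl⟩⟩
      simp only [Finset.mem_toList, Finset.mem_filter, Finset.mem_univ, true_and]
      exact h

theorem strip_nc {R : SimpleGraph (Fin m)} {E : ℕ → Fin m → Fin m → Prop}
    (hR : Pathlike R) (hE : Tri E) (L : ℕ) :
    NC (strip R E L) {u | u.1 = Fin.last L} (fun u => u.2.val) := by
  classical
  induction L with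
  | zero =>
    refine add_row hR 0 ⊥ _ ?_ ?_
    · intro u₁ h₁ u₂ h₂ u₃ h₃ u₄ h₄ h12 h23 h34 w w'
      exfalso
      cases w with
      | nil => exact absurd (h12.trans h23) (lt_irrefl _)
      | cons h _ => exact (SimpleGraph.bot_adj _ _).1 h
    · intro u v huv
      right
      have hu := u.1.isLt
      have hv := v.1.isLt
      have h1 : u.1 = Fin.last 0 := Fin.ext (by rw [Fin.val_last]; omega)
      have h2 : v.1 = Fin.last 0 := Fin.ext (by rw [Fin.val_last]; omega)
      refine ⟨h1, h2, ?_⟩
      rcases strip_adj.1 huv with h | h | h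
      · exact h.2
      · omega
      · omega
  | succ L ih =>
    -- old strip inside the new vertex set
    have hle : L ≤ L + 1 := Nat.le_succ L
    let pos' : Fin (L + 2) × Fin m → ℕ := fun u => 2 * u.2.val + u.1.val % 2
    let B' : Set (Fin (L + 2) × Fin m) := {u | u.1.val = L ∨ u.1.val = L + 1}
    have h0 : NC ((strip R E L).map (embA hle)) B' pos' := by
      refine ih.add_isolated (embA hle) ?_ ?_ ?_
      · intro u v huv
        exact (SimpleGraph.map_adj _ _ _ _).1 huv
      · intro u hu
        simp only [B', Set.mem_ofPred_eq, embA_fst] at hu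
        simp only [Set.mem_ofPred_eq]
        apply Fin.ext
        rw [Fin.val_last]
        have := u.1.isLt
        omega
      · intro u v hu hv huv
        simp only [B', Set.mem_ofPred_eq, embA_fst] at hu hv
        simp only [pos', embA_fst, embA_snd] at huv
        have := u.1.isLt
        have := v.1.isLt
        have h1 : u.1.val = L := by omega
        have h2 : v.1.val = L := by omega
        rw [h1, h2] at huv
        omega
    have hinj' : Set.InjOn pos' B' := by
      rintro ⟨u1, u2⟩ hu ⟨v1, v2⟩ hv huv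
      simp only [B', Set.mem_ofPred_eq] at hu hv
      simp only [pos'] at huv
      have h1 : u1.val = v1.val := by omega
      have h2 : u2.val = v2.val := by
        rw [h1] at huv; omega
      rw [Fin.ext h1, Fin.ext h2]
    -- add the edges between the rows
    let D1 : SimpleGraph (Fin (L + 2) × Fin m) :=
      { Adj := fun u v => ((strip R E L).map (embA hle)).Adj u v ∨
          (u.1.val = L ∧ v.1.val = L + 1 ∧ E L u.2 v.2) ∨
          (v.1.val = L ∧ u.1.val = L + 1 ∧ E L v.2 u.2)
        symm := ⟨by
          intro u v h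
          rcases h with h | h | h
          · exact Or.inl h.symm
          · exact Or.inr (Or.inr h)
          · exact Or.inr (Or.inl h)⟩
        loopless := ⟨by
          intro u h
          rcases h with h | h | h
          · exact h.ne rfl
          · omega
          · omega⟩ }
    have h1 : NC D1 B' pos' := by
      refine NC.add_edges hinj' ((Finset.univ.filter (fun p : (Fin (L + 2) × Fin m) ×
        (Fin (L + 2) × Fin m) => p.1.1.val = L ∧ p.2.1.val = L + 1 ∧
          E L p.1.2 p.2.2)).toList) ?_ h0 ?_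
      · intro p hp
        simp only [Finset.mem_toList, Finset.mem_filter, Finset.mem_univ, true_and] at hp
        obtain ⟨h1, h2, h3⟩ := hp
        have hb1 : p.1 ∈ B' := Or.inl h1
        have hb2 : p.2 ∈ B' := Or.inr h2
        refine ⟨hb1, hb2, ?_⟩
        intro j hj l hl hjl n1 n2 n3 n4
        have e1 : pos' j ≠ pos' p.1 := fun hh => n1 (hinj' hj hb1 hh)
        have e2 : pos' j ≠ pos' p.2 := fun hh => n2 (hinj' hj hb2 hh)
        have e3 : pos' l ≠ pos' p.1 := fun hh => n3 (hinj' hl hb1 hh)
        have e4 : pos' l ≠ pos' p.2 := fun hh => n4 (hinj' hl hb2 hh)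
        have hd : pos' p.1 + 1 = pos' p.2 ∨ pos' p.2 + 1 = pos' p.1 := by
          have := hE L _ _ h3
          simp only [pos', h1, h2]
          omega
        rcases hd with h | h <;> constructor <;> intro h' <;> constructor <;> omega
      · intro u v huv
        rcases huv with h | h | h
        · exact Or.inl h
        · right
          refine ⟨(u, v), ?_, Or.inl ⟨rfl, rfl⟩⟩
          simp only [Finset.mem_toList, Finset.mem_filter, Finset.mem_univ, true_and]
          exact h
        · right
          refine ⟨(v, u), ?_, Or.inr ⟨rfl, rfl⟩⟩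
          simp only [Finset.mem_toList, Finset.mem_filter, Finset.mem_univ, true_and]
          exact h
    -- restrict to the last row
    have h2 : NC D1 {u | u.1 = Fin.last (L + 1)} (fun u => u.2.val) := by
      have h3 : NC D1 {u | u.1 = Fin.last (L + 1)} pos' := by
        refine h1.mono ?_
        intro u hu
        simp only [Set.mem_ofPred_eq] at hu
        right
        rw [hu]; rfl
      refine h3.repos ?_
      intro u hu v hv huv
      simp only [Set.mem_ofPred_eq] at hu hv
      simp only [pos', hu, hv]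
      omega
    refine add_row hR (L + 1) D1 _ h2 ?_
    intro u v huv
    have hul := u.1.isLt
    have hvl := v.1.isLt
    rcases strip_adj.1 huv with h | h | h
    · by_cases hl : u.1 = Fin.last (L + 1)
      · right
        exact ⟨hl, h.1 ▸ hl, h.2⟩
      · left; left
        have hlt : u.1.val < L + 1 := by
          have h5 : u.1.val ≠ L + 1 := fun hh => hl (Fin.ext hh)
          omega
        refine (SimpleGraph.map_adj _ _ _ _).2 ⟨(⟨u.1.val, hlt⟩, u.2), (⟨u.1.val, hlt⟩, v.2), ?_,
          ?_, ?_⟩
        · exact Or.inl ⟨rfl, h.2⟩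
        · exact prod_eq rfl rfl
        · exact prod_eq (by rw [embA_fst]; exact congrArg Fin.val h.1) rfl
    · left
      by_cases hl : u.1.val = L
      · right; left
        refine ⟨hl, by omega, ?_⟩
        have h6 := h.2
        rw [hl] at h6; exact h6
      · left
        have hlt : v.1.val < L + 1 := by omega
        have hlt' : u.1.val < L + 1 := by omega
        refine (SimpleGraph.map_adj _ _ _ _).2 ⟨(⟨u.1.val, hlt'⟩, u.2), (⟨v.1.val, hlt⟩, v.2), ?_,
          ?_, ?_⟩
        · exact Or.inr (Or.inl h)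
        · exact prod_eq rfl rfl
        · exact prod_eq rfl rfl
    · left
      by_cases hl : v.1.val = L
      · right; right
        refine ⟨hl, by omega, ?_⟩
        have h6 := h.2
        rw [hl] at h6; exact h6
      · left
        have hlt : u.1.val < L + 1 := by omega
        have hlt' : v.1.val < L + 1 := by omega
        refine (SimpleGraph.map_adj _ _ _ _).2 ⟨(⟨u.1.val, hlt⟩, u.2), (⟨v.1.val, hlt'⟩, v.2), ?_,
          ?_, ?_⟩
        · exact Or.inr (Or.inr h)
        · exact prod_eq rfl rfl
        · exact prod_eq rfl rfl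

theorem strip_noCross {R : SimpleGraph (Fin m)} {E : ℕ → Fin m → Fin m → Prop}
    (hR : Pathlike R) (hE : Tri E) (L : ℕ) : NoCross (strip R E L) (lastRow m L) :=
  (strip_nc hR hE L).noCross (lastRow m L) (fun _ => rfl) (fun _ _ h => h)

theorem mirror_parity {E : ℕ → Fin m → Fin m → Prop} (hM : Mirror E) (r k : ℕ) (i j : Fin m) :
    E (r + 2 * k) i j ↔ E r i j := by
  induction k with
  | zero => simp
  | succ k ih =>
    rw [← ih]
    have e : r + 2 * (k + 1) = (r + 2 * k + 1) + 1 := by ring
    rw [e, hM, hM]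

theorem mirror_flip {E : ℕ → Fin m → Fin m → Prop} (hM : Mirror E) {s a b : ℕ}
    (h : a + b + 1 = 2 * s) (i j : Fin m) : E a i j ↔ E b j i := by
  rcases Nat.even_or_odd' a with ⟨k, hk | hk⟩
  · have e1 : b = (0 + 1) + 2 * (s - k - 1) := by omega
    have e2 : a = 0 + 2 * k := by omega
    rw [e1, mirror_parity hM, e2, mirror_parity hM, hM]
  · have e1 : b = 0 + 2 * (s - k - 1) := by omega
    have e2 : a = (0 + 1) + 2 * k := by omega
    rw [e1, mirror_parity hM, e2, mirror_parity hM, hM]

/-- gluing two strips along their last rows -/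
theorem strip_gluing {R : SimpleGraph (Fin m)} {E : ℕ → Fin m → Fin m → Prop} (hM : Mirror E)
    {i j s : ℕ} (hij : i + j = 2 * s) :
    IsGluing (strip R E i) (lastRow m i) (strip R E j) (lastRow m j) (strip R E (2 * s)) := by
  have hiL : i ≤ 2 * s := by omega
  have hjL : j ≤ 2 * s := by omega
  refine ⟨embA hiL, embB hjL, ?_, ?_, ?_, ?_⟩
  · intro x
    refine prod_eq ?_ rfl
    rw [embA_fst, embB_fst, lastRow_apply, lastRow_apply]
    simp only [Fin.val_last]
    omega
  · intro u v h
    have h1 : (embA hiL u).1.val = (embB hjL v).1.val := by rw [h]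
    have h2 : (embA hiL u).2 = (embB hjL v).2 := by rw [h]
    rw [embA_fst, embB_fst] at h1
    rw [embA_snd, embB_snd] at h2
    have := u.1.isLt
    have := v.1.isLt
    refine ⟨u.2, prod_eq ?_ rfl, prod_eq ?_ h2.symm⟩
    · rw [lastRow_apply]; simp only [Fin.val_last]; omega
    · rw [lastRow_apply]; simp only [Fin.val_last]; omega
  · intro v
    have := v.1.isLt
    by_cases h : v.1.val ≤ i
    · left
      exact ⟨(⟨v.1.val, by omega⟩, v.2), prod_eq rfl rfl⟩
    · right
      refine ⟨(⟨2 * s - v.1.val, by omega⟩, v.2), prod_eq ?_ rfl⟩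
      rw [embB_fst]
      simp only
      omega
  · ext u v
    simp only [SimpleGraph.sup_adj, SimpleGraph.map_adj]
    -- between-row edges
    have key : ∀ u v : Fin (2 * s + 1) × Fin m, u.1.val + 1 = v.1.val → E u.1.val u.2 v.2 →
        (∃ a b, (strip R E i).Adj a b ∧ embA hiL a = u ∧ embA hiL b = v) ∨
        (∃ a b, (strip R E j).Adj a b ∧ embB hjL a = u ∧ embB hjL b = v) := by
      intro u v h1 h2
      have := u.1.isLt
      have := v.1.isLt
      by_cases h : v.1.val ≤ i
      · left
        refine ⟨(⟨u.1.val, by omega⟩, u.2), (⟨v.1.val, by omega⟩, v.2), ?_, prod_eq rfl rfl,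
          prod_eq rfl rfl⟩
        exact Or.inr (Or.inl ⟨h1, h2⟩)
      · right
        refine ⟨(⟨2 * s - u.1.val, by omega⟩, u.2), (⟨2 * s - v.1.val, by omega⟩, v.2), ?_,
          prod_eq ?_ rfl, prod_eq ?_ rfl⟩
        · right; right
          refine ⟨by simp only; omega, ?_⟩
          exact (mirror_flip hM (s := s) (a := u.1.val) (b := 2 * s - v.1.val) (by omega) _ _).1 h2
        · rw [embB_fst]; simp only; omega
        · rw [embB_fst]; simp only; omega
    constructor
    · intro h
      rcases strip_adj.1 h with h | h | h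
      · have := u.1.isLt
        have hu : u.1.val = v.1.val := by rw [h.1]
        by_cases hl : u.1.val ≤ i
        · left
          refine ⟨(⟨u.1.val, by omega⟩, u.2), (⟨v.1.val, by omega⟩, v.2), ?_, prod_eq rfl rfl,
            prod_eq rfl rfl⟩
          exact Or.inl ⟨Fin.ext hu, h.2⟩
        · right
          refine ⟨(⟨2 * s - u.1.val, by omega⟩, u.2), (⟨2 * s - v.1.val, by omega⟩, v.2), ?_,
            prod_eq ?_ rfl, prod_eq ?_ rfl⟩
          · exact Or.inl ⟨Fin.ext (by simp only; omega), h.2⟩
          · rw [embB_fst]; simp only; omega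
          · rw [embB_fst]; simp only; omega
      · exact key u v h.1 h.2
      · rcases key v u h.1 h.2 with ⟨a, b, hab, ha, hb⟩ | ⟨a, b, hab, ha, hb⟩
        · exact Or.inl ⟨b, a, hab.symm, hb, ha⟩
        · exact Or.inr ⟨b, a, hab.symm, hb, ha⟩
    · rintro (⟨a, b, hab, rfl, rfl⟩ | ⟨a, b, hab, rfl, rfl⟩)
      · rcases strip_adj.1 hab with h | h | h
        · exact Or.inl ⟨Fin.ext (by rw [embA_fst, embA_fst, h.1]), h.2⟩
        · exact Or.inr (Or.inl h)
        · exact Or.inr (Or.inr h)
      · have := a.1.isLt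
        have := b.1.isLt
        rcases strip_adj.1 hab with h | h | h
        · exact Or.inl ⟨Fin.ext (by rw [embB_fst, embB_fst, h.1]), h.2⟩
        · right; right
          refine ⟨?_, ?_⟩
          · rw [embB_fst, embB_fst]; omega
          · rw [embB_fst, embB_snd, embB_snd]
            exact (mirror_flip hM (s := s) (a := a.1.val) (b := 2 * s - b.1.val) (by omega) _ _).1
              h.2
        · right; left
          refine ⟨?_, ?_⟩
          · rw [embB_fst, embB_fst]; omega
          · rw [embB_fst, embB_snd, embB_snd]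
            exact (mirror_flip hM (s := s) (a := b.1.val) (b := 2 * s - a.1.val) (by omega) _ _).1
              h.2

/-- gluing a single row to a strip -/
theorem strip_gluing_row {R : SimpleGraph (Fin m)} {E : ℕ → Fin m → Fin m → Prop} (L : ℕ) :
    IsGluing (strip R E L) (lastRow m L) (strip R E 0) (lastRow m 0) (strip R E L) := by
  have hs : ∀ a b : Fin (0 + 1), a = b := fun a b => Fin.ext (by have := a.isLt; have := b.isLt; omega)
  let g : Fin (0 + 1) × Fin m ↪ Fin (L + 1) × Fin m :=
    { toFun := fun u => (Fin.last L, u.2)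
      inj' := fun u v h => by
        simp only [Prod.mk.injEq] at h
        exact Prod.ext (hs _ _) h.2 }
  have hg : ∀ u, g u = (Fin.last L, u.2) := fun _ => rfl
  refine ⟨Function.Embedding.refl _, g, ?_, ?_, ?_, ?_⟩
  · intro x; rfl
  · intro u v h
    rw [Function.Embedding.refl_apply, hg] at h
    exact ⟨v.2, h, Prod.ext (hs _ _) rfl⟩
  · intro v; exact Or.inl ⟨v, rfl⟩
  · ext u v
    simp only [SimpleGraph.sup_adj, SimpleGraph.map_adj, Function.Embedding.refl_apply]
    constructor
    · intro h; exact Or.inl ⟨u, v, h, rfl, rfl⟩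
    · rintro (⟨a, b, hab, rfl, rfl⟩ | ⟨a, b, hab, rfl, rfl⟩)
      · exact hab
      · rcases strip_adj.1 hab with h | h | h
        · exact Or.inl ⟨rfl, h.2⟩
        · have := a.1.isLt; have := b.1.isLt; omega
        · have := a.1.isLt; have := b.1.isLt; omega

end Pool.Agent.Helper20.RP
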