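import Pool.Agent.Helper20.RPDefs

/-!
# Crossless boundaries given by positions, and the local steps preserving them
-/

set_option autoImplicit false

namespace Pool.Agent.Helper20.RP

open SimpleGraph

variable {V : Type}

/-- any two walks joining interleaved pairs of points of `B` (ordered by `pos`) meet -/
def NC (D : SimpleGraph V) (B : Set V) (pos : V → ℕ) : Prop :=
  ∀ u₁ ∈ B, ∀ u₂ ∈ B, ∀ u₃ ∈ B, ∀ u₄ ∈ B, pos u₁ < pos u₂ → pos u₂ < pos u₃ → pos u₃ < pos u₄ →
    ∀ (w : D.Walk u₁ u₃) (w' : D.Walk u₂ u₄), ∃ v, v ∈ w.support ∧ v ∈ w'.support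

theorem NC.mono {D : SimpleGraph V} {B B' : Set V} {pos : V → ℕ} (h : NC D B pos) (hB : B' ⊆ B) :
    NC D B' pos := fun u₁ h₁ u₂ h₂ u₃ h₃ u₄ h₄ =>
  h u₁ (hB h₁) u₂ (hB h₂) u₃ (hB h₃) u₄ (hB h₄)

/-- change of the position function -/
theorem NC.repos {D : SimpleGraph V} {B : Set V} {pos pos' : V → ℕ} (h : NC D B pos)
    (hp : ∀ u ∈ B, ∀ v ∈ B, pos' u < pos' v → pos u < pos v) : NC D B pos' :=
  fun u₁ h₁ u₂ h₂ u₃ h₃ u₄ h₄ h12 h23 h34 =>
  h u₁ h₁ u₂ h₂ u₃ h₃ u₄ h₄ (hp _ h₁ _ h₂ h12) (hp _ h₂ _ h₃ h23) (hp _ h₃ _ h₄ h34)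

/-- the separated form of crosslessness -/
theorem NC.sep {D : SimpleGraph V} {B : Set V} {pos : V → ℕ} (h : NC D B pos)
    {j l a c : V} (hj : j ∈ B) (hl : l ∈ B) (ha : a ∈ B) (hc : c ∈ B)
    (hja : pos j < pos a) (hal : pos a < pos l) (hcout : pos c < pos j ∨ pos l < pos c)
    (w' : D.Walk j l) (w : D.Walk a c) : ∃ v, v ∈ w.support ∧ v ∈ w'.support := by
  rcases hcout with hcj | hlc
  · obtain ⟨v, h1, h2⟩ := h c hc j hj a ha l hl hcj hja hal w.reverse w'
    exact ⟨v, by simpa using h1, h2⟩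
  · obtain ⟨v, h1, h2⟩ := h j hj a ha l hl c hc hja hal hlc w' w
    exact ⟨v, h2, h1⟩

/-- decomposition of a walk in a graph with one added edge -/
theorem walk_edge {D D' : SimpleGraph V} {x y : V}
    (hD : ∀ u v, D'.Adj u v → D.Adj u v ∨ (u = x ∧ v = y) ∨ (u = y ∧ v = x)) {u v : V}
    (w : D'.Walk u v) :
    (∃ w0 : D.Walk u v, ∀ t ∈ w0.support, t ∈ w.support) ∨
    ((x ∈ w.support ∧ y ∈ w.support) ∧
      (∃ a, (a = x ∨ a = y) ∧ ∃ w1 : D.Walk u a, ∀ t ∈ w1.support, t ∈ w.support) ∧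
      (∃ a, (a = x ∨ a = y) ∧ ∃ w2 : D.Walk a v, ∀ t ∈ w2.support, t ∈ w.support)) := by
  induction w with
  | nil => exact Or.inl ⟨SimpleGraph.Walk.nil, fun t ht => ht⟩
  | @cons u u' v hadj w ih =>
    rcases hD _ _ hadj with h | h
    · rcases ih with ⟨w0, hw0⟩ | ⟨⟨hx, hy⟩, ⟨a, ha, w1, hw1⟩, ⟨a', ha', w2, hw2⟩⟩
      · left
        refine ⟨SimpleGraph.Walk.cons h w0, ?_⟩
        intro t ht
        simp only [SimpleGraph.Walk.support_cons, List.mem_cons] at ht ⊢
        rcases ht with ht | ht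
        · exact Or.inl ht
        · exact Or.inr (hw0 t ht)
      · right
        refine ⟨⟨?_, ?_⟩, ⟨a, ha, SimpleGraph.Walk.cons h w1, ?_⟩, ⟨a', ha', w2, ?_⟩⟩
        · simp [hx]
        · simp [hy]
        · intro t ht
          simp only [SimpleGraph.Walk.support_cons, List.mem_cons] at ht ⊢
          rcases ht with ht | ht
          · exact Or.inl ht
          · exact Or.inr (hw1 t ht)
        · intro t ht
          simp only [SimpleGraph.Walk.support_cons, List.mem_cons]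
          exact Or.inr (hw2 t ht)
    · -- the first edge is the new one
      right
      have hu : u = x ∨ u = y := by
        rcases h with h | h
        · exact Or.inl h.1
        · exact Or.inr h.1
      have hu' : u' = x ∨ u' = y := by
        rcases h with h | h
        · exact Or.inr h.2
        · exact Or.inl h.2
      have hmem : u' ∈ w.support := w.start_mem_support
      have hxy : x ∈ (SimpleGraph.Walk.cons hadj w).support ∧
          y ∈ (SimpleGraph.Walk.cons hadj w).support := by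
        rcases h with h | h
        · obtain ⟨rfl, rfl⟩ := h
          simp [hmem]
        · obtain ⟨rfl, rfl⟩ := h
          simp [hmem]
      refine ⟨hxy, ⟨u, hu, SimpleGraph.Walk.nil, ?_⟩, ?_⟩
      · intro t ht
        simp only [SimpleGraph.Walk.support_nil, List.mem_singleton] at ht
        subst ht
        simp
      · rcases ih with ⟨w0, hw0⟩ | ⟨_, _, ⟨a', ha', w2, hw2⟩⟩
        · refine ⟨u', hu', w0, ?_⟩
          intro t ht
          simp only [SimpleGraph.Walk.support_cons, List.mem_cons]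
          exact Or.inr (hw0 t ht)
        · refine ⟨a', ha', w2, ?_⟩
          intro t ht
          simp only [SimpleGraph.Walk.support_cons, List.mem_cons]
          exact Or.inr (hw2 t ht)

/-- adding an edge between (cyclically) adjacent boundary points -/
theorem NC.add_edge {D D' : SimpleGraph V} {B : Set V} {pos : V → ℕ} (h : NC D B pos)
    (hinj : Set.InjOn pos B) {x y : V} (hx : x ∈ B) (hy : y ∈ B)
    (hadj : ∀ j ∈ B, ∀ l ∈ B, pos j < pos l → j ≠ x → j ≠ y → l ≠ x → l ≠ y →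
      ((pos j < pos x ∧ pos x < pos l) ↔ (pos j < pos y ∧ pos y < pos l)))
    (hD : ∀ u v, D'.Adj u v → D.Adj u v ∨ (u = x ∧ v = y) ∨ (u = y ∧ v = x)) :
    NC D' B pos := by
  intro u₁ h₁ u₂ h₂ u₃ h₃ u₄ h₄ h12 h23 h34 w w'
  rcases walk_edge hD w with ⟨w0, hw0⟩ | ⟨⟨hxw, hyw⟩, ⟨a, ha, w1, hw1⟩, ⟨a', ha', w2, hw2⟩⟩
  · rcases walk_edge hD w' with ⟨w0', hw0'⟩ | ⟨⟨hxw', hyw'⟩, ⟨a, ha, w1, hw1⟩, ⟨a', ha', w2, hw2⟩⟩
    · obtain ⟨v, hv, hv'⟩ := h u₁ h₁ u₂ h₂ u₃ h₃ u₄ h₄ h12 h23 h34 w0 w0'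
      exact ⟨v, hw0 v hv, hw0' v hv'⟩
    · -- w avoids the edge, w' uses it
      by_cases hxm : x ∈ w0.support
      · exact ⟨x, hw0 x hxm, hxw'⟩
      by_cases hym : y ∈ w0.support
      · exact ⟨y, hw0 y hym, hyw'⟩
      have n1 : u₁ ≠ x := fun hh => hxm (hh ▸ w0.start_mem_support)
      have n2 : u₁ ≠ y := fun hh => hym (hh ▸ w0.start_mem_support)
      have n3 : u₃ ≠ x := fun hh => hxm (hh ▸ w0.end_mem_support)
      have n4 : u₃ ≠ y := fun hh => hym (hh ▸ w0.end_mem_support)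
      have hiff := hadj u₁ h₁ u₃ h₃ (h12.trans h23) n1 n2 n3 n4
      have hin : ∀ b, (b = x ∨ b = y) → b ∈ B := by
        rintro b (rfl | rfl)
        · exact hx
        · exact hy
      by_cases hins : pos u₁ < pos x ∧ pos x < pos u₃
      · -- both new end points inside; use the second part, ending at u₄ outside
        have haB : pos u₁ < pos a' ∧ pos a' < pos u₃ := by
          rcases ha' with rfl | rfl
          · exact hins
          · exact hiff.1 hins
        obtain ⟨v, hv, hv'⟩ := h.sep h₁ h₃ (hin a' ha') h₄ haB.1 haB.2 (Or.inr h34) w0 w2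
        exact ⟨v, hw0 v hv', hw2 v hv⟩
      · -- both outside; use the first part, from u₂ inside
        have houtx : pos x < pos u₁ ∨ pos u₃ < pos x := by
          by_contra hcon
          push Not at hcon
          have e1 : pos u₁ ≠ pos x := fun hh => n1 (hinj h₁ hx hh)
          have e2 : pos u₃ ≠ pos x := fun hh => n3 (hinj h₃ hx hh)
          exact hins ⟨lt_of_le_of_ne hcon.1 e1, lt_of_le_of_ne hcon.2 (Ne.symm e2)⟩
        have houty : pos y < pos u₁ ∨ pos u₃ < pos y := by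
          by_contra hcon
          push Not at hcon
          have e1 : pos u₁ ≠ pos y := fun hh => n2 (hinj h₁ hy hh)
          have e2 : pos u₃ ≠ pos y := fun hh => n4 (hinj h₃ hy hh)
          exact hins (hiff.2 ⟨lt_of_le_of_ne hcon.1 e1, lt_of_le_of_ne hcon.2 (Ne.symm e2)⟩)
        have haB : pos a < pos u₁ ∨ pos u₃ < pos a := by
          rcases ha with rfl | rfl
          · exact houtx
          · exact houty
        obtain ⟨v, hv, hv'⟩ := h.sep h₁ h₃ h₂ (hin a ha) h12 h23 haB w0 w1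
        exact ⟨v, hw0 v hv', hw1 v hv⟩
  · rcases walk_edge hD w' with ⟨w0', hw0'⟩ | ⟨⟨hxw', hyw'⟩, _, _⟩
    · by_cases hxm : x ∈ w0'.support
      · exact ⟨x, hxw, hw0' x hxm⟩
      by_cases hym : y ∈ w0'.support
      · exact ⟨y, hyw, hw0' y hym⟩
      have n1 : u₂ ≠ x := fun hh => hxm (hh ▸ w0'.start_mem_support)
      have n2 : u₂ ≠ y := fun hh => hym (hh ▸ w0'.start_mem_support)
      have n3 : u₄ ≠ x := fun hh => hxm (hh ▸ w0'.end_mem_support)
      have n4 : u₄ ≠ y := fun hh => hym (hh ▸ w0'.end_mem_support)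
      have hiff := hadj u₂ h₂ u₄ h₄ (h23.trans h34) n1 n2 n3 n4
      have hin : ∀ b, (b = x ∨ b = y) → b ∈ B := by
        rintro b (rfl | rfl)
        · exact hx
        · exact hy
      by_cases hins : pos u₂ < pos x ∧ pos x < pos u₄
      · -- both inside (u₂, u₄); use the first part, starting at u₁ outside
        have haB : pos u₂ < pos a ∧ pos a < pos u₄ := by
          rcases ha with rfl | rfl
          · exact hins
          · exact hiff.1 hins
        obtain ⟨v, hv, hv'⟩ := h.sep h₂ h₄ (hin a ha) h₁ haB.1 haB.2 (Or.inl h12) w0' w1.reverse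
        exact ⟨v, hw1 v (by simpa using hv), hw0' v hv'⟩
      · have houtx : pos x < pos u₂ ∨ pos u₄ < pos x := by
          by_contra hcon
          push Not at hcon
          have e1 : pos u₂ ≠ pos x := fun hh => n1 (hinj h₂ hx hh)
          have e2 : pos u₄ ≠ pos x := fun hh => n3 (hinj h₄ hx hh)
          exact hins ⟨lt_of_le_of_ne hcon.1 e1, lt_of_le_of_ne hcon.2 (Ne.symm e2)⟩
        have houty : pos y < pos u₂ ∨ pos u₄ < pos y := by
          by_contra hcon
          push Not at hcon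
          have e1 : pos u₂ ≠ pos y := fun hh => n2 (hinj h₂ hy hh)
          have e2 : pos u₄ ≠ pos y := fun hh => n4 (hinj h₄ hy hh)
          exact hins (hiff.2 ⟨lt_of_le_of_ne hcon.1 e1, lt_of_le_of_ne hcon.2 (Ne.symm e2)⟩)
        have haB : pos a' < pos u₂ ∨ pos u₄ < pos a' := by
          rcases ha' with rfl | rfl
          · exact houtx
          · exact houty
        obtain ⟨v, hv, hv'⟩ := h.sep h₂ h₄ h₃ (hin a' ha') h23 h34 haB w0' w2.reverse
        exact ⟨v, hw2 v (by simpa using hv), hw0' v hv'⟩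
    · exact ⟨x, hxw, hxw'⟩

/-- adding several edges between adjacent boundary points -/
theorem NC.add_edges {B : Set V} {pos : V → ℕ}
    (hinj : Set.InjOn pos B) (L : List (V × V))
    (hL : ∀ p ∈ L, p.1 ∈ B ∧ p.2 ∈ B ∧ ∀ j ∈ B, ∀ l ∈ B, pos j < pos l → j ≠ p.1 → j ≠ p.2 →
      l ≠ p.1 → l ≠ p.2 → ((pos j < pos p.1 ∧ pos p.1 < pos l) ↔ (pos j < pos p.2 ∧ pos p.2 < pos l))) :
    ∀ {D D' : SimpleGraph V}, NC D B pos →
    (∀ u v, D'.Adj u v → D.Adj u v ∨ ∃ p ∈ L, (u = p.1 ∧ v = p.2) ∨ (u = p.2 ∧ v = p.1)) →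
    NC D' B pos := by
  induction L with
  | nil =>
    intro D D' h hD u₁ h₁ u₂ h₂ u₃ h₃ u₄ h₄ h12 h23 h34 w w'
    have hle : D' ≤ D := by
      intro u v huv
      rcases hD u v huv with h | ⟨p, hp, _⟩
      · exact h
      · simp at hp
    obtain ⟨v, hv, hv'⟩ := h u₁ h₁ u₂ h₂ u₃ h₃ u₄ h₄ h12 h23 h34 (w.mapLe hle) (w'.mapLe hle)
    rw [SimpleGraph.Walk.support_mapLe_eq_support] at hv hv'
    exact ⟨v, hv, hv'⟩
  | cons p L ih =>
    intro D D' h hD
    obtain ⟨hp1, hp2, hp3⟩ := hL p (by simp)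
    -- intermediate graph
    let D1 : SimpleGraph V := D ⊔ SimpleGraph.fromEdgeSet {s(p.1, p.2)}
    have hD1 : NC D1 B pos := by
      refine h.add_edge hinj hp1 hp2 hp3 ?_
      intro u v huv
      rcases huv with huv | huv
      · exact Or.inl huv
      · right
        rw [SimpleGraph.fromEdgeSet_adj] at huv
        have := huv.1
        simp only [Set.mem_singleton_iff, Sym2.eq, Sym2.rel_iff', Prod.mk.injEq,
          Prod.swap_prod_mk] at this
        exact this
    refine ih (fun p' hp' => hL p' (by simp [hp'])) hD1 ?_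
    intro u v huv
    rcases hD u v huv with h1 | ⟨p', hp', h1⟩
    · exact Or.inl (Or.inl h1)
    · rcases List.mem_cons.1 hp' with rfl | hp'
      · left; right
        rw [SimpleGraph.fromEdgeSet_adj]
        refine ⟨?_, huv.ne⟩
        simp only [Set.mem_singleton_iff, Sym2.eq, Sym2.rel_iff', Prod.mk.injEq,
          Prod.swap_prod_mk]
        exact h1
      · exact Or.inr ⟨p', hp', h1⟩

/-- lifting walks through an embedding -/
theorem walk_lift {V' : Type} {D : SimpleGraph V} (f : V ↪ V') {D' : SimpleGraph V'}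
    (hD : ∀ u v, D'.Adj u v → ∃ a b, D.Adj a b ∧ f a = u ∧ f b = v) {u' v' : V'}
    (w : D'.Walk u' v') :
    ∀ u, f u = u' → ∃ v, f v = v' ∧ ∃ w0 : D.Walk u v, ∀ t ∈ w0.support, f t ∈ w.support := by
  induction w with
  | nil =>
    intro u hu
    refine ⟨u, hu, SimpleGraph.Walk.nil, ?_⟩
    intro t ht
    simp only [SimpleGraph.Walk.support_nil, List.mem_singleton] at ht ⊢
    rw [ht, hu]
  | @cons u' z' v' hadj w ih =>
    intro u hu
    obtain ⟨a, b, hab, ha, hb⟩ := hD _ _ hadj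
    have hau : a = u := f.injective (ha.trans hu.symm)
    subst hau
    obtain ⟨v, hv, w0, hw0⟩ := ih b hb
    refine ⟨v, hv, SimpleGraph.Walk.cons hab w0, ?_⟩
    intro t ht
    simp only [SimpleGraph.Walk.support_cons, List.mem_cons] at ht ⊢
    rcases ht with rfl | ht
    · exact Or.inl hu
    · exact Or.inr (hw0 t ht)

/-- adding isolated boundary points -/
theorem NC.add_isolated {V' : Type} {D : SimpleGraph V} {B : Set V} {pos : V → ℕ} (h : NC D B pos)
    (f : V ↪ V') {D' : SimpleGraph V'} {B' : Set V'} {pos' : V' → ℕ}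
    (hD : ∀ u v, D'.Adj u v → ∃ a b, D.Adj a b ∧ f a = u ∧ f b = v)
    (hB : ∀ u, f u ∈ B' → u ∈ B)
    (hpos : ∀ u v, f u ∈ B' → f v ∈ B' → pos' (f u) < pos' (f v) → pos u < pos v) :
    NC D' B' pos' := by
  intro u₁ h₁ u₂ h₂ u₃ h₃ u₄ h₄ h12 h23 h34 w w'
  have hne : ∀ {a b : V'}, pos' a < pos' b → ∀ (w : D'.Walk a b), ∃ z, f z = a := by
    intro a b hab w
    cases w with
    | nil => exact absurd hab (lt_irrefl _)
    | cons hadj _ =>
      obtain ⟨z, _, _, hz, _⟩ := hD _ _ hadj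
      exact ⟨z, hz⟩
  obtain ⟨z₁, hz₁⟩ := hne (h12.trans h23) w
  obtain ⟨z₂, hz₂⟩ := hne (h23.trans h34) w'
  obtain ⟨z₃, hz₃, w0, hw0⟩ := walk_lift f hD w z₁ hz₁
  obtain ⟨z₄, hz₄, w0', hw0'⟩ := walk_lift f hD w' z₂ hz₂
  subst hz₁ hz₂ hz₃ hz₄
  obtain ⟨v, hv, hv'⟩ := h z₁ (hB _ h₁) z₂ (hB _ h₂) z₃ (hB _ h₃) z₄ (hB _ h₄)
    (hpos _ _ h₁ h₂ h12) (hpos _ _ h₂ h₃ h23) (hpos _ _ h₃ h₄ h34) w0 w0'
  exact ⟨f v, hw0 v hv, hw0' v hv'⟩

/-- from positions to an ordered boundary -/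
theorem NC.noCross {D : SimpleGraph V} {B : Set V} {pos : V → ℕ} (h : NC D B pos) {n : ℕ}
    (b : Fin n ↪ V) (hb : ∀ i, b i ∈ B) (hpos : ∀ i j, i < j → pos (b i) < pos (b j)) :
    NoCross D b := by
  intro i j k l hij hjk hkl w w'
  exact h (b i) (hb i) (b j) (hb j) (b k) (hb k) (b l) (hb l) (hpos _ _ hij) (hpos _ _ hjk)
    (hpos _ _ hkl) w w'

end Pool.Agent.Helper20.RP
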