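import Mathlib

set_option autoImplicit false

namespace Pool.Agent.Helper20.TCount

open Finset

/-- Counting lemma: functions avoiding prescribed patterns on disjoint blocks. -/
theorem card_avoid {α ι : Type} [Fintype α] [DecidableEq α] [DecidableEq ι] (d : ℕ) [NeZero d]
    (I : Finset ι) (B : ι → Finset α) (g : ι → α → Fin d) (L : ℕ)
    (hL : ∀ i ∈ I, (B i).card ≤ L)
    (hdisj : ∀ i ∈ I, ∀ j ∈ I, i ≠ j → Disjoint (B i) (B j)) :
    ((univ.filter (fun e : α → Fin d => ∀ i ∈ I, ∃ b ∈ B i, e b ≠ g i b)).card : ℝ) ≤
      (1 - 1 / (d : ℝ) ^ L) ^ I.card * (d : ℝ) ^ (Fintype.card α) := by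
  classical
  have hd : (0 : ℝ) < d := by
    have := NeZero.pos d
    exact_mod_cast this
  have hd1 : (1 : ℝ) ≤ d := by
    have := NeZero.pos d
    exact_mod_cast this
  induction I using Finset.induction_on with
  | empty => simp
  | insert a I ha ih =>
    have ih' := ih (fun i hi => hL i (mem_insert_of_mem hi))
      (fun i hi j hj hij => hdisj i (mem_insert_of_mem hi) j (mem_insert_of_mem hj) hij)
    set A := univ.filter (fun e : α → Fin d => ∀ i ∈ I, ∃ b ∈ B i, e b ≠ g i b) with hA
    set A' := univ.filter (fun e : α → Fin d => ∀ i ∈ insert a I, ∃ b ∈ B i, e b ≠ g i b) with hA'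
    set C := A.filter (fun e => ∀ b ∈ B a, e b = g a b) with hC
    -- A' = A \ C
    have h1 : A' = A \ C := by
      ext e
      simp only [hA', hA, hC, mem_filter, mem_univ, true_and, mem_sdiff, mem_insert, forall_eq_or_imp]
      constructor
      · rintro ⟨⟨b, hb, hbe⟩, h⟩
        refine ⟨h, ?_⟩
        rintro ⟨_, h2⟩
        exact hbe (h2 b hb)
      · rintro ⟨h, h2⟩
        refine ⟨?_, h⟩
        by_contra hcon
        push Not at hcon
        exact h2 ⟨h, hcon⟩
    have hCA : C ⊆ A := filter_subset _ _
    have h2 : (A'.card : ℝ) = A.card - C.card := by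
      rw [h1, card_sdiff_of_subset hCA, Nat.cast_sub (card_le_card hCA)]
    -- card A ≤ card C * d ^ L
    have h3 : A.card ≤ C.card * d ^ (B a).card := by
      let φ : (α → Fin d) → (α → Fin d) × ((B a) → Fin d) :=
        fun e => (fun x => if x ∈ B a then g a x else e x, fun x => e x)
      have hinj : Function.Injective φ := by
        intro e e' h
        simp only [φ, Prod.mk.injEq] at h
        funext x
        by_cases hx : x ∈ B a
        · exact congrFun h.2 ⟨x, hx⟩
        · have := congrFun h.1 x
          simpa [hx] using this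
      have hmap : ∀ e ∈ A, φ e ∈ C ×ˢ (univ : Finset ((B a) → Fin d)) := by
        intro e he
        simp only [mem_product, mem_univ, and_true, hC, hA, mem_filter, true_and, φ] at he ⊢
        refine ⟨?_, ?_⟩
        · intro i hi
          obtain ⟨b, hb, hbe⟩ := he i hi
          refine ⟨b, hb, ?_⟩
          have hne : a ≠ i := by
            rintro rfl
            exact ha hi
          have hdis := hdisj a (mem_insert_self _ _) i (mem_insert_of_mem hi) hne
          have hb' : b ∉ B a := fun hba => (Finset.disjoint_left.mp hdis hba) hb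
          simpa [hb'] using hbe
        · intro b hb
          simp [hb]
      have := Finset.card_le_card_of_injOn φ hmap hinj.injOn
      simpa [card_product] using this
    have h4 : (A.card : ℝ) ≤ C.card * (d : ℝ) ^ L := by
      calc (A.card : ℝ) ≤ ((C.card * d ^ (B a).card : ℕ) : ℝ) := by exact_mod_cast h3
        _ = C.card * (d : ℝ) ^ (B a).card := by push_cast; ring
        _ ≤ C.card * (d : ℝ) ^ L := by
          apply mul_le_mul_of_nonneg_left _ (by positivity)
          exact pow_le_pow_right₀ hd1 (hL a (mem_insert_self _ _))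
    have h5 : (A.card : ℝ) / (d : ℝ) ^ L ≤ C.card := by
      rw [div_le_iff₀ (by positivity)]
      exact h4
    have h6 : (0 : ℝ) ≤ 1 - 1 / (d : ℝ) ^ L := by
      have : 1 / (d : ℝ) ^ L ≤ 1 := by
        rw [div_le_one (by positivity)]
        exact one_le_pow₀ hd1
      linarith
    rw [card_insert_of_notMem ha, pow_succ]
    calc (A'.card : ℝ) = A.card - C.card := h2
      _ ≤ A.card - A.card / (d : ℝ) ^ L := by linarith
      _ = (1 - 1 / (d : ℝ) ^ L) * A.card := by ring
      _ ≤ (1 - 1 / (d : ℝ) ^ L) * ((1 - 1 / (d : ℝ) ^ L) ^ I.card * (d : ℝ) ^ (Fintype.card α)) :=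
        mul_le_mul_of_nonneg_left ih' h6
      _ = _ := by ring

end Pool.Agent.Helper20.TCount
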