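import Mathlib
import Pool.Agent.Helper20.TCount

set_option autoImplicit false
set_option linter.unusedSectionVars false
set_option linter.unusedVariables false

namespace Pool.Agent.Helper20.TCount

open Finset

/-- digit attached to a side -/
def dig (d : ℕ) (j : ℕ) : ℕ :=
  if j = 0 then 1 else if j = 1 then 1 else if j = 2 then d - 2 else if j = 3 then 0 else j - 2

/-- position attached to a side -/
def posn (d : ℕ) (j : ℕ) : ℕ :=
  if j = 0 then d - 1 else if j = 1 then 0 else j - 1

lemma dig_lt (d : ℕ) (hd : 4 ≤ d) (j : ℕ) (hj : j < d) : dig d j < d - 1 := by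
  unfold dig; split_ifs <;> omega

lemma posn_lt (d : ℕ) (hd : 4 ≤ d) (j : ℕ) (hj : j < d) : posn d j < d := by
  unfold posn; split_ifs <;> omega

lemma posn_inj (d : ℕ) (hd : 4 ≤ d) (i j : ℕ) (hi : i < d) (hj : j < d) (h : posn d i = posn d j) :
    i = j := by
  unfold posn at h; split_ifs at h <;> omega

/-- A hit: `p` is a tuple of points of `S` (one for each side) in one class, with prescribed
next digits, and every other point of the class strictly between has last digit `d-1`. -/
def Hit {n : ℕ} {γ : Type} (d : ℕ) (c : Fin n → γ) (e : Fin n → Fin d) (S : Finset (Fin n)) : Prop :=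
  ∃ p : Fin d → Fin n,
    (∀ j, p j ∈ S) ∧ (∀ i j, c (p i) = c (p j)) ∧
    (∀ i j : Fin d, (i : ℕ) = 0 → (j : ℕ) ≠ 0 → p j < p i) ∧
    (∀ i j : Fin d, (i : ℕ) = 1 → (j : ℕ) ≠ 1 → p i < p j) ∧
    (∀ j : Fin d, (e (p j) : ℕ) = dig d j) ∧
    (∀ q : Fin n, (∀ j, c q = c (p j)) → (∀ i : Fin d, (i : ℕ) = 0 → q < p i) →
      (∀ i : Fin d, (i : ℕ) = 1 → p i < q) → (∃ j, q = p j) ∨ (e q : ℕ) = d - 1)

section blocks

variable {n : ℕ} {γ : Type} [Fintype γ] [DecidableEq γ]

/-- elements of `S` in class `a` -/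
def cls (c : Fin n → γ) (S : Finset (Fin n)) (a : γ) : Finset (Fin n) := S.filter (fun x => c x = a)

/-- enumeration of `cls` -/
noncomputable def enum [NeZero n] (c : Fin n → γ) (S : Finset (Fin n)) (a : γ) (k : ℕ) : Fin n :=
  if h : k < (cls c S a).card then (cls c S a).orderEmbOfFin rfl ⟨k, h⟩ else 0

lemma enum_mem [NeZero n] (c : Fin n → γ) (S : Finset (Fin n)) (a : γ) (k : ℕ)
    (h : k < (cls c S a).card) : enum c S a k ∈ S ∧ c (enum c S a k) = a := by
  have : enum c S a k ∈ cls c S a := by
    unfold enum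
    rw [dif_pos h]
    exact Finset.orderEmbOfFin_mem _ _ _
  simpa [cls] using this

lemma enum_lt [NeZero n] (c : Fin n → γ) (S : Finset (Fin n)) (a : γ) (k l : ℕ)
    (hkl : k < l) (h : l < (cls c S a).card) : enum c S a k < enum c S a l := by
  unfold enum
  rw [dif_pos h, dif_pos (hkl.trans h)]
  rw [OrderEmbedding.lt_iff_lt]
  exact hkl

/-- block -/
noncomputable def blk [NeZero n] (d : ℕ) (c : Fin n → γ) (S : Finset (Fin n)) (i : γ × ℕ) :
    Finset (Fin n) :=
  univ.filter (fun x => c x = i.1 ∧ enum c S i.1 (i.2 * d) ≤ x ∧ x ≤ enum c S i.1 (i.2 * d + (d - 1)))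

/-- index set of blocks -/
noncomputable def idx (d : ℕ) (c : Fin n → γ) (S : Finset (Fin n)) : Finset (γ × ℕ) :=
  univ.biUnion (fun a => (range ((cls c S a).card / d)).image (fun k => (a, k)))

lemma mem_idx (d : ℕ) (c : Fin n → γ) (S : Finset (Fin n)) (i : γ × ℕ) :
    i ∈ idx d c S ↔ i.2 < (cls c S i.1).card / d := by
  rcases i with ⟨a, k⟩
  simp [idx]

lemma idx_bound (d : ℕ) (hd : 0 < d) (c : Fin n → γ) (S : Finset (Fin n)) (i : γ × ℕ)
    (hi : i ∈ idx d c S) (j : ℕ) (hj : j < d) : i.2 * d + j < (cls c S i.1).card := by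
  rw [mem_idx] at hi
  have h1 : (i.2 + 1) * d ≤ (cls c S i.1).card := by
    calc (i.2 + 1) * d ≤ (cls c S i.1).card / d * d := Nat.mul_le_mul_right _ hi
      _ ≤ _ := Nat.div_mul_le_self _ _
  have h2 : (i.2 + 1) * d = i.2 * d + d := by ring
  omega

lemma card_idx (d : ℕ) (hd : 0 < d) (c : Fin n → γ) (S : Finset (Fin n)) :
    S.card ≤ d * (idx d c S).card + d * Fintype.card γ := by
  have h1 : (idx d c S).card = ∑ a : γ, (cls c S a).card / d := by
    unfold idx
    rw [card_biUnion]
    · apply sum_congr rfl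
      intro a _
      rw [card_image_of_injective _ (fun _ _ h => by simpa using h), card_range]
    · intro a _ b _ hab
      simp only [Function.onFun, disjoint_left, mem_image, mem_range]
      rintro x ⟨k, _, rfl⟩ ⟨l, _, h⟩
      exact hab (congrArg Prod.fst h).symm
  have h2 : S.card = ∑ a : γ, (cls c S a).card := by
    rw [card_eq_sum_card_fiberwise (f := c) (t := univ) (fun _ _ => by simp)]
    rfl
  rw [h1, h2, mul_sum]
  have h3 : d * Fintype.card γ = ∑ a : γ, d := by simp [mul_comm]
  rw [h3, ← sum_add_distrib]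
  apply sum_le_sum
  intro a _
  have := Nat.div_add_mod (cls c S a).card d
  have := Nat.mod_lt (cls c S a).card hd
  omega

lemma blk_disj [NeZero n] (d : ℕ) (hd : 0 < d) (c : Fin n → γ) (S : Finset (Fin n)) :
    ∀ i ∈ idx d c S, ∀ j ∈ idx d c S, i ≠ j → Disjoint (blk d c S i) (blk d c S j) := by
  -- WLOG
  have key : ∀ a : γ, ∀ k l : ℕ, (a, k) ∈ idx d c S → (a, l) ∈ idx d c S → k < l →
      Disjoint (blk d c S (a, k)) (blk d c S (a, l)) := by
    intro a k l hk hl hkl
    rw [disjoint_left]
    intro x hx hx'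
    simp only [blk, mem_filter, mem_univ, true_and] at hx hx'
    have h1 : k * d + (d - 1) < l * d := by
      have : (k + 1) * d ≤ l * d := Nat.mul_le_mul_right _ hkl
      have h2 : (k + 1) * d = k * d + d := by ring
      omega
    have h2 := idx_bound d hd c S (a, l) hl 0 hd
    simp only [add_zero] at h2
    have h3 := enum_lt c S a _ _ h1 h2
    have := hx.2.2
    have := hx'.2.1
    exact absurd (lt_of_le_of_lt hx.2.2 h3) (not_lt.mpr hx'.2.1)
  intro i hi j hj hij
  rcases i with ⟨a, k⟩
  rcases j with ⟨b, l⟩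
  by_cases hab : a = b
  · subst hab
    have hkl : k ≠ l := fun h => hij (by rw [h])
    rcases lt_or_gt_of_ne hkl with h | h
    · exact key a k l hi hj h
    · exact (key a l k hj hi h).symm
  · rw [disjoint_left]
    intro x hx hx'
    simp only [blk, mem_filter, mem_univ, true_and] at hx hx'
    exact hab (hx.1.symm.trans hx'.1)

/-- points of a block -/
noncomputable def pts [NeZero n] (d : ℕ) (c : Fin n → γ) (S : Finset (Fin n)) (i : γ × ℕ)
    (j : Fin d) : Fin n := enum c S i.1 (i.2 * d + posn d j)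

open Classical in
/-- target -/
noncomputable def tgt [NeZero n] (d : ℕ) (hd : 4 ≤ d) (c : Fin n → γ) (S : Finset (Fin n))
    (i : γ × ℕ) (x : Fin n) : Fin d :=
  if h : ∃ j : Fin d, x = pts d c S i j then ⟨dig d (h.choose : ℕ), by
    have := dig_lt d hd _ h.choose.2; omega⟩ else ⟨d - 1, by omega⟩

lemma pts_lt [NeZero n] (d : ℕ) (hd : 4 ≤ d) (c : Fin n → γ) (S : Finset (Fin n)) (i : γ × ℕ)
    (hi : i ∈ idx d c S) (j l : Fin d) (h : posn d j < posn d l) : pts d c S i j < pts d c S i l := by
  unfold pts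
  apply enum_lt
  · omega
  · exact idx_bound d (by omega) c S i hi _ (posn_lt d hd _ l.2)

lemma pts_inj [NeZero n] (d : ℕ) (hd : 4 ≤ d) (c : Fin n → γ) (S : Finset (Fin n)) (i : γ × ℕ)
    (hi : i ∈ idx d c S) (j l : Fin d) (h : pts d c S i j = pts d c S i l) : j = l := by
  rcases lt_trichotomy (posn d j) (posn d l) with h1 | h1 | h1
  · exact absurd h (ne_of_lt (pts_lt d hd c S i hi j l h1))
  · exact Fin.ext (posn_inj d hd _ _ j.2 l.2 h1)
  · exact absurd h.symm (ne_of_lt (pts_lt d hd c S i hi l j h1))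

lemma hit_of_agree [NeZero n] (d : ℕ) (hd : 4 ≤ d) (c : Fin n → γ) (S : Finset (Fin n)) (i : γ × ℕ)
    (hi : i ∈ idx d c S) (e : Fin n → Fin d) (he : ∀ b ∈ blk d c S i, e b = tgt d hd c S i b) :
    Hit d c e S := by
  have hmemS : ∀ j : Fin d, pts d c S i j ∈ S ∧ c (pts d c S i j) = i.1 := fun j =>
    enum_mem c S i.1 _ (idx_bound d (by omega) c S i hi _ (posn_lt d hd _ j.2))
  have hblk : ∀ j : Fin d, pts d c S i j ∈ blk d c S i := by
    intro j
    simp only [blk, mem_filter, mem_univ, true_and]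
    refine ⟨(hmemS j).2, ?_, ?_⟩
    · by_cases h0 : posn d j = 0
      · unfold pts; rw [h0]; simp
      · apply le_of_lt
        unfold pts
        apply enum_lt
        · omega
        · exact idx_bound d (by omega) c S i hi _ (posn_lt d hd _ j.2)
    · by_cases h0 : posn d j = d - 1
      · unfold pts; rw [h0]
      · apply le_of_lt
        unfold pts
        apply enum_lt
        · have := posn_lt d hd _ j.2
          omega
        · exact idx_bound d (by omega) c S i hi _ (by omega)
  refine ⟨pts d c S i, fun j => (hmemS j).1, fun j l => (hmemS j).2.trans (hmemS l).2.symm,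
    ?_, ?_, ?_, ?_⟩
  · intro j l hj hl
    apply pts_lt d hd c S i hi
    have := posn_lt d hd _ l.2
    have h1 : posn d j = d - 1 := by unfold posn; simp [hj]
    rw [h1]
    have h2 : posn d l ≠ d - 1 := by
      intro h
      apply hl
      have := posn_inj d hd _ _ l.2 j.2 (h.trans h1.symm)
      omega
    omega
  · intro j l hj hl
    apply pts_lt d hd c S i hi
    have h1 : posn d j = 0 := by unfold posn; simp [hj]
    rw [h1]
    have h2 : posn d l ≠ 0 := by
      intro h
      apply hl
      have := posn_inj d hd _ _ l.2 j.2 (h.trans h1.symm)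
      omega
    omega
  · intro j
    rw [he _ (hblk j)]
    unfold tgt
    have hex : ∃ j' : Fin d, pts d c S i j = pts d c S i j' := ⟨j, rfl⟩
    rw [dif_pos hex]
    have := pts_inj d hd c S i hi _ _ hex.choose_spec
    simp only
    rw [← this]
  · intro q hq h0 h1
    have hd0 : 0 < d := by omega
    have hd1 : 1 < d := by omega
    have hqb : q ∈ blk d c S i := by
      simp only [blk, mem_filter, mem_univ, true_and]
      refine ⟨(hq ⟨0, hd0⟩).trans (hmemS _).2, ?_, ?_⟩
      · have := h1 ⟨1, hd1⟩ rfl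
        have h2 : pts d c S i ⟨1, hd1⟩ = enum c S i.1 (i.2 * d) := by
          unfold pts posn; simp
        rw [← h2]
        exact this.le
      · have := h0 ⟨0, hd0⟩ rfl
        have h2 : pts d c S i ⟨0, hd0⟩ = enum c S i.1 (i.2 * d + (d - 1)) := by
          unfold pts posn; simp
        rw [← h2]
        exact this.le
    by_cases hex : ∃ j : Fin d, q = pts d c S i j
    · exact Or.inl hex
    · right
      rw [he q hqb]
      unfold tgt
      rw [dif_neg hex]

open Classical in
/-- number of `e` that do not hit `S` -/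
lemma card_not_hit [NeZero n] (d : ℕ) (hd : 4 ≤ d) (c : Fin n → γ) (S : Finset (Fin n)) (L m : ℕ)
    (hm : d * (L * m) + d * n + d * L * Fintype.card γ ≤ L * S.card) (hL : 0 < L) :
    ((univ.filter (fun e : Fin n → Fin d => ¬ Hit d c e S)).card : ℝ) ≤
      (1 - 1 / (d : ℝ) ^ L) ^ m * (d : ℝ) ^ n := by
  have hd0 : 0 < d := by omega
  haveI : NeZero d := ⟨by omega⟩
  set I := (idx d c S).filter (fun i => (blk d c S i).card ≤ L) with hI
  set J := (idx d c S).filter (fun i => ¬ (blk d c S i).card ≤ L) with hJ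
  have hIJ : I.card + J.card = (idx d c S).card := card_filter_add_card_filter_not _
  have hJn : L * J.card ≤ n := by
    have h1 : ∑ i ∈ J, (blk d c S i).card ≤ n := by
      rw [← card_biUnion]
      · calc _ ≤ (univ : Finset (Fin n)).card := card_le_card (subset_univ _)
          _ = n := by simp
      · intro i hi j hj hij
        exact blk_disj d hd0 c S i (mem_filter.mp hi).1 j (mem_filter.mp hj).1 hij
    calc L * J.card = ∑ i ∈ J, L := by simp [mul_comm]
      _ ≤ ∑ i ∈ J, (blk d c S i).card := by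
        apply sum_le_sum
        intro i hi
        have := (mem_filter.mp hi).2
        omega
      _ ≤ n := h1
  have hcard := card_idx d hd0 c S
  have hmI : m ≤ I.card := by
    have h1 : L * S.card ≤ L * (d * (idx d c S).card + d * Fintype.card γ) :=
      Nat.mul_le_mul_left _ hcard
    rw [← hIJ] at h1
    have h2 : L * (d * (I.card + J.card) + d * Fintype.card γ) =
      d * (L * I.card) + d * (L * J.card) + d * L * Fintype.card γ := by ring
    rw [h2] at h1
    have h3 : d * (L * J.card) ≤ d * n := Nat.mul_le_mul_left _ hJn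
    have h4 : d * (L * m) ≤ d * (L * I.card) := by omega
    have h5 := Nat.le_of_mul_le_mul_left h4 hd0
    exact Nat.le_of_mul_le_mul_left h5 hL
  have hsub : univ.filter (fun e : Fin n → Fin d => ¬ Hit d c e S) ⊆
      univ.filter (fun e : Fin n → Fin d => ∀ i ∈ I, ∃ b ∈ blk d c S i, e b ≠ tgt d hd c S i b) := by
    intro e he
    simp only [mem_filter, mem_univ, true_and] at he ⊢
    intro i hi
    by_contra hcon
    push Not at hcon
    exact he (hit_of_agree d hd c S i (mem_filter.mp hi).1 e hcon)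
  have h1 := card_avoid d I (blk d c S) (tgt d hd c S) L
    (fun i hi => (mem_filter.mp hi).2)
    (fun i hi j hj hij => blk_disj d hd0 c S i (mem_filter.mp hi).1 j (mem_filter.mp hj).1 hij)
  have hdR : (1 : ℝ) ≤ d := by exact_mod_cast hd0
  have h6 : (0 : ℝ) ≤ 1 - 1 / (d : ℝ) ^ L := by
    have : 1 / (d : ℝ) ^ L ≤ 1 := by
      rw [div_le_one (by positivity)]
      exact one_le_pow₀ hdR
    linarith
  have h7 : 1 - 1 / (d : ℝ) ^ L ≤ 1 := by
    have : (0 : ℝ) ≤ 1 / (d : ℝ) ^ L := by positivity
    linarith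
  calc ((univ.filter (fun e : Fin n → Fin d => ¬ Hit d c e S)).card : ℝ)
      ≤ (univ.filter (fun e : Fin n → Fin d => ∀ i ∈ I, ∃ b ∈ blk d c S i,
          e b ≠ tgt d hd c S i b)).card := by exact_mod_cast card_le_card hsub
    _ ≤ (1 - 1 / (d : ℝ) ^ L) ^ I.card * (d : ℝ) ^ (Fintype.card (Fin n)) := by
      convert h1
    _ ≤ (1 - 1 / (d : ℝ) ^ L) ^ m * (d : ℝ) ^ n := by
      rw [Fintype.card_fin]
      apply mul_le_mul_of_nonneg_right _ (by positivity)
      exact pow_le_pow_of_le_one h6 h7 hmI

end blocks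

end Pool.Agent.Helper20.TCount
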