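import Mathlib
import Pool.Agent.Helper20.TBlocks

set_option autoImplicit false
set_option linter.unusedSectionVars false
set_option linter.unusedVariables false

namespace Pool.Agent.Helper20.TCount

open Finset

/-- hit at stage `t` for the digit functions `D` -/
def HitAt {n : ℕ} (d : ℕ) (D : ℕ → Fin n → Fin d) (t : ℕ) (S : Finset (Fin n)) : Prop :=
  Hit d (fun i => (fun s : Fin t => D s i)) (D t) S

open Classical in
lemma stages {n : ℕ} [NeZero n] (d : ℕ) (hd : 4 ≤ d) (L m T : ℕ) (hL : 0 < L)
    (big : Finset (Fin n) → Prop)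
    (hbig : ∀ S, big S → d * (L * m) + d * n + d * L * d ^ T ≤ L * S.card) :
    ∀ t ≤ T, ∃ D : ℕ → Fin n → Fin d,
      ((univ.filter (fun S : Finset (Fin n) => big S ∧ ∀ s < t, ¬ HitAt d D s S)).card : ℝ) ≤
        ((1 - 1 / (d : ℝ) ^ L) ^ m) ^ t * 2 ^ n := by
  intro t
  have hd0 : 0 < d := by omega
  have : NeZero d := ⟨by omega⟩
  have hdR : (1 : ℝ) ≤ d := by exact_mod_cast hd0
  have h6 : (0 : ℝ) ≤ 1 - 1 / (d : ℝ) ^ L := by
    have : 1 / (d : ℝ) ^ L ≤ 1 := by
      rw [div_le_one (by positivity)]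
      exact one_le_pow₀ hdR
    linarith
  set ρ : ℝ := (1 - 1 / (d : ℝ) ^ L) ^ m with hρ
  have hρ0 : 0 ≤ ρ := pow_nonneg h6 _
  induction t with
  | zero =>
    intro _
    refine ⟨fun _ _ => 0, ?_⟩
    simp only [pow_zero, one_mul]
    calc _ ≤ ((univ : Finset (Finset (Fin n))).card : ℝ) := by
          exact_mod_cast card_le_card (subset_univ _)
      _ = 2 ^ n := by simp
  | succ t ih =>
    intro ht
    obtain ⟨D, hD⟩ := ih (by omega)
    set 𝒮 := univ.filter (fun S : Finset (Fin n) => big S ∧ ∀ s < t, ¬ HitAt d D s S) with h𝒮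
    set c : Fin n → (Fin t → Fin d) := fun i => (fun s : Fin t => D s i) with hc
    have h1 : ∑ e : Fin n → Fin d, ((𝒮.filter (fun S => ¬ Hit d c e S)).card : ℝ) ≤
        ∑ e : Fin n → Fin d, ρ * 𝒮.card := by
      have h2 : ∑ e : Fin n → Fin d, ((𝒮.filter (fun S => ¬ Hit d c e S)).card : ℝ) =
          ∑ S ∈ 𝒮, ((univ.filter (fun e : Fin n → Fin d => ¬ Hit d c e S)).card : ℝ) := by
        simp only [card_filter]
        push_cast
        rw [sum_comm]
      rw [h2]
      calc ∑ S ∈ 𝒮, ((univ.filter (fun e : Fin n → Fin d => ¬ Hit d c e S)).card : ℝ)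
          ≤ ∑ S ∈ 𝒮, ρ * (d : ℝ) ^ n := by
            apply sum_le_sum
            intro S hS
            apply card_not_hit d hd c S L m _ hL
            have h3 := hbig S (mem_filter.mp hS).2.1
            have h4 : Fintype.card (Fin t → Fin d) = d ^ t := by simp
            rw [h4]
            have h5 : d ^ t ≤ d ^ T := Nat.pow_le_pow_right hd0 (by omega)
            have h7 : d * L * d ^ t ≤ d * L * d ^ T := Nat.mul_le_mul_left _ h5
            omega
        _ = ∑ e : Fin n → Fin d, ρ * 𝒮.card := by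
            simp only [sum_const, nsmul_eq_mul, card_univ, Fintype.card_pi, prod_const,
              Fintype.card_fin]
            push_cast
            ring
    obtain ⟨e, _, he⟩ := exists_le_of_sum_le (by exact ⟨fun _ => 0, mem_univ _⟩) h1
    refine ⟨Function.update D t e, ?_⟩
    have h8 : univ.filter (fun S : Finset (Fin n) => big S ∧
        ∀ s < t + 1, ¬ HitAt d (Function.update D t e) s S) ⊆
        𝒮.filter (fun S => ¬ Hit d c e S) := by
      intro S hS
      simp only [mem_filter, mem_univ, true_and, h𝒮] at hS ⊢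
      refine ⟨⟨hS.1, ?_⟩, ?_⟩
      · intro s hs
        have := hS.2 s (by omega)
        unfold HitAt at this ⊢
        have h9 : (fun i : Fin n => (fun s_1 : Fin s => Function.update D t e s_1 i)) =
            (fun i : Fin n => (fun s_1 : Fin s => D s_1 i)) := by
          funext i s1
          rw [Function.update_of_ne]
          have := s1.2
          omega
        rw [h9, Function.update_of_ne (by omega)] at this
        exact this
      · have := hS.2 t (by omega)
        unfold HitAt at this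
        have h9 : (fun i : Fin n => (fun s_1 : Fin t => Function.update D t e s_1 i)) = c := by
          funext i s1
          rw [Function.update_of_ne]
          have := s1.2
          omega
        rw [h9, Function.update_self] at this
        exact this
    calc _ ≤ ((𝒮.filter (fun S => ¬ Hit d c e S)).card : ℝ) := by exact_mod_cast card_le_card h8
      _ ≤ ρ * 𝒮.card := he
      _ ≤ ρ * (ρ ^ t * 2 ^ n) := mul_le_mul_of_nonneg_left hD hρ0
      _ = _ := by ring

open Classical in
/-- there are digit functions such that every big set is hit -/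
lemma exists_digits (d : ℕ) (hd : 4 ≤ d) (q : ℕ) (hq : 0 < q) (N0 : ℕ) :
    ∃ n T : ℕ, N0 ≤ n ∧ ∃ D : ℕ → Fin n → Fin d,
      ∀ S : Finset (Fin n), n ≤ q * S.card → ∃ t < T, HitAt d D t S := by
  set L := 4 * d * q with hL
  have hL0 : 0 < L := by positivity
  have hd0 : 0 < d := by omega
  have hdR : (1 : ℝ) < d := by
    have : 1 < d := by omega
    exact_mod_cast this
  have h6 : (0 : ℝ) ≤ 1 - 1 / (d : ℝ) ^ L := by
    have : 1 / (d : ℝ) ^ L ≤ 1 := by
      rw [div_le_one (by positivity)]
      exact one_le_pow₀ hdR.le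
    linarith
  have h7 : 1 - 1 / (d : ℝ) ^ L < 1 := by
    have : (0 : ℝ) < 1 / (d : ℝ) ^ L := by positivity
    linarith
  obtain ⟨T, hT⟩ := exists_pow_lt_of_lt_one (show (0 : ℝ) < 1 / 2 ^ L by positivity) h7
  set N := d ^ T + N0 with hN
  have hN1 : 1 ≤ N := by
    have : 0 < d ^ T := by positivity
    omega
  set n := L * N with hn
  have hn0 : 0 < n := by positivity
  have : NeZero n := ⟨by omega⟩
  refine ⟨n, T, ?_, ?_⟩
  · calc N0 ≤ N := by omega
      _ ≤ L * N := Nat.le_mul_of_pos_left _ hL0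
  have hbig : ∀ S : Finset (Fin n), n ≤ q * S.card →
      d * (L * (2 * N)) + d * n + d * L * d ^ T ≤ L * S.card := by
    intro S hS
    have h1 : 4 * d * N ≤ S.card := by
      have : q * (4 * d * N) ≤ q * S.card := by
        calc q * (4 * d * N) = n := by rw [hn, hL]; ring
          _ ≤ _ := hS
      exact Nat.le_of_mul_le_mul_left this hq
    calc d * (L * (2 * N)) + d * n + d * L * d ^ T = d * L * (2 * N + N + d ^ T) := by
          rw [hn]; ring
      _ ≤ d * L * (4 * N) := by
          apply Nat.mul_le_mul_left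
          omega
      _ = L * (4 * d * N) := by ring
      _ ≤ L * S.card := Nat.mul_le_mul_left _ h1
  obtain ⟨D, hD⟩ := stages d hd L (2 * N) T hL0 (fun S => n ≤ q * S.card) hbig T le_rfl
  refine ⟨D, ?_⟩
  have hlt : ((1 - 1 / (d : ℝ) ^ L) ^ (2 * N)) ^ T * 2 ^ n < 1 := by
    have h1 : ((1 - 1 / (d : ℝ) ^ L) ^ (2 * N)) ^ T = (((1 - 1 / (d : ℝ) ^ L) ^ T) ^ N) *
        (((1 - 1 / (d : ℝ) ^ L) ^ T) ^ N) := by
      rw [← pow_mul, ← pow_mul, ← pow_add]
      congr 1
      ring
    have h2 : (2 : ℝ) ^ n = (2 ^ L) ^ N := by rw [hn, pow_mul]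
    have hx0 : 0 ≤ (1 - 1 / (d : ℝ) ^ L) ^ T := pow_nonneg h6 _
    have h3 : ((1 - 1 / (d : ℝ) ^ L) ^ T) ^ N * (2 ^ L) ^ N < 1 := by
      rw [← mul_pow]
      have h4 : (1 - 1 / (d : ℝ) ^ L) ^ T * 2 ^ L < 1 := by
        rw [lt_div_iff₀ (by positivity)] at hT
        exact hT
      exact pow_lt_one₀ (by positivity) h4 (by omega)
    have h5 : ((1 - 1 / (d : ℝ) ^ L) ^ T) ^ N ≤ 1 :=
      pow_le_one₀ hx0 (pow_le_one₀ h6 h7.le)
    have h8 : 0 ≤ ((1 - 1 / (d : ℝ) ^ L) ^ T) ^ N := pow_nonneg hx0 _
    rw [h1, h2]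
    calc ((1 - 1 / (d : ℝ) ^ L) ^ T) ^ N * ((1 - 1 / (d : ℝ) ^ L) ^ T) ^ N * (2 ^ L) ^ N
        = ((1 - 1 / (d : ℝ) ^ L) ^ T) ^ N * (((1 - 1 / (d : ℝ) ^ L) ^ T) ^ N * (2 ^ L) ^ N) := by ring
      _ ≤ 1 * (((1 - 1 / (d : ℝ) ^ L) ^ T) ^ N * (2 ^ L) ^ N) := by
        apply mul_le_mul_of_nonneg_right h5
        positivity
      _ < 1 := by rw [one_mul]; exact h3
  have hcard : (univ.filter (fun S : Finset (Fin n) => n ≤ q * S.card ∧
      ∀ s < T, ¬ HitAt d D s S)).card = 0 := by
    have h1 := lt_of_le_of_lt hD hlt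
    rw [← Nat.cast_one, Nat.cast_lt, Nat.lt_one_iff] at h1
    convert h1
  intro S hS
  by_contra hcon
  push Not at hcon
  rw [card_eq_zero] at hcard
  have : S ∈ univ.filter (fun S : Finset (Fin n) => n ≤ q * S.card ∧
      ∀ s < T, ¬ HitAt d D s S) := by
    simp only [mem_filter, mem_univ, true_and]
    exact ⟨hS, hcon⟩
  rw [hcard] at this
  simp at this

/-- Horner value of the digit string -/
def val {n d : ℕ} (w : ℕ → ℕ) (D : ℕ → Fin n → Fin d) : ℕ → Fin n → ℕ
  | 0, _ => 0
  | (T + 1), i => val w D T i * d + w (D T i)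

lemma val_congr {n d : ℕ} (w : ℕ → ℕ) (D : ℕ → Fin n → Fin d) (T : ℕ) (i i' : Fin n)
    (h : ∀ s < T, D s i = D s i') : val w D T i = val w D T i' := by
  induction T with
  | zero => rfl
  | succ T ih =>
    simp only [val]
    rw [ih (fun s hs => h s (by omega)), h T (by omega)]

lemma val_lt {n d : ℕ} (w : ℕ → ℕ) (hw : ∀ a < d, w a < d) (D : ℕ → Fin n → Fin d) (T t : ℕ)
    (ht : t < T) (i i' : Fin n) (h : ∀ s < t, D s i = D s i') (h' : w (D t i) < w (D t i')) :
    val w D T i < val w D T i' := by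
  induction T with
  | zero => omega
  | succ T ih =>
    simp only [val]
    by_cases htT : t = T
    · subst htT
      rw [val_congr w D t i i' h]
      omega
    · have h1 := ih (by omega)
      have h2 := hw _ (D T i).2
      have h3 : (val w D T i + 1) * d ≤ val w D T i' * d := Nat.mul_le_mul_right _ h1
      have h4 : (val w D T i + 1) * d = val w D T i * d + d := by ring
      omega

lemma dig_two (d : ℕ) : dig d 2 = d - 2 := by unfold dig; norm_num

lemma dig_three (d : ℕ) : dig d 3 = 0 := by unfold dig; norm_num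

lemma dig_big (d j : ℕ) (hj : 4 ≤ j) : dig d j = j - 2 := by
  unfold dig
  rw [if_neg (by omega), if_neg (by omega), if_neg (by omega), if_neg (by omega)]

lemma dig_lt_two (d : ℕ) (hd : 4 ≤ d) (i : ℕ) (hi : i < d) (h : i ≠ 2) : dig d i < d - 2 := by
  unfold dig
  split_ifs <;> omega

lemma dig_pos (d : ℕ) (hd : 4 ≤ d) (i : ℕ) (hi : i < d) (h : i ≠ 3) : 0 < dig d i := by
  unfold dig
  split_ifs <;> omega

lemma dig_ne (d : ℕ) (hd : 4 ≤ d) (i j : ℕ) (hi : i < d) (hj : j < d) (hj4 : 4 ≤ j) (h : i ≠ j) :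
    dig d i ≠ j - 2 := by
  unfold dig
  split_ifs <;> omega

/-- The combinatorial core. -/
theorem core (d : ℕ) (hd : 4 ≤ d) (q : ℕ) (hq : 0 < q) (N0 : ℕ) :
    ∃ n : ℕ, N0 ≤ n ∧ ∃ r : Fin d → Fin n → ℕ,
      (∀ i i' : Fin n, i ≠ i' → ∃ j, r j i < r j i') ∧
      ∀ S : Finset (Fin n), n ≤ q * S.card → ∃ p : Fin d → Fin n,
        (∀ j, p j ∈ S) ∧ (∀ i j, i ≠ j → r j (p i) < r j (p j)) ∧
        ∀ x, (∀ j, x ≠ p j) → ∃ j, r j (p j) < r j x := by
  obtain ⟨n, T, hn, D, hD⟩ := exists_digits d hd q hq N0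
  refine ⟨n, hn, fun j i => if (j : ℕ) = 0 then (i : ℕ) else if (j : ℕ) = 1 then n - 1 - i else
    if (j : ℕ) = 2 then val (fun a => a) D T i else
    if (j : ℕ) = 3 then val (fun a => d - 1 - a) D T i else
    val (fun a => if a = (j : ℕ) - 2 then 1 else 0) D T i, ?_, ?_⟩
  · intro i i' hii
    rcases lt_or_gt_of_ne hii with h | h
    · refine ⟨⟨0, by omega⟩, ?_⟩
      simpa using h
    · refine ⟨⟨1, by omega⟩, ?_⟩
      have := i.2
      have := i'.2
      have h2 : (i' : ℕ) < i := h
      simp
      omega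
  · intro S hS
    obtain ⟨t, htT, p, hpS, hpc, hp0, hp1, hpd, hpe⟩ := hD S hS
    have hpc' : ∀ i j, ∀ s < t, D s (p i) = D s (p j) := by
      intro i j s hs
      exact congrFun (hpc i j) ⟨s, hs⟩
    refine ⟨p, hpS, ?_, ?_⟩
    · intro i j hij
      have hij' : (i : ℕ) ≠ j := fun h => hij (Fin.ext h)
      by_cases j0 : (j : ℕ) = 0
      · simp only [j0, if_true]
        exact hp0 j i j0 (by omega)
      by_cases j1 : (j : ℕ) = 1
      · have h1 := hp1 j i j1 (by omega)
        have h2 : (p j : ℕ) < p i := h1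
        have h3 := (p i).2
        simp only [j1]
        simp
        omega
      by_cases j2 : (j : ℕ) = 2
      · simp only [j2]
        simp only [OfNat.ofNat_ne_zero, if_false, OfNat.ofNat_ne_one, if_true]
        apply val_lt _ (fun a ha => ha) D T t htT _ _ (hpc' i j)
        rw [hpd i, hpd j]
        show dig d i < dig d j
        rw [j2, dig_two]
        exact dig_lt_two d hd i i.2 (by omega)
      by_cases j3 : (j : ℕ) = 3
      · simp only [j3]
        simp only [OfNat.ofNat_ne_zero, if_false, OfNat.ofNat_ne_one, if_true,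
          show ¬ (3 : ℕ) = 2 by norm_num]
        apply val_lt _ (fun a ha => by omega) D T t htT _ _ (hpc' i j)
        rw [hpd i, hpd j]
        show d - 1 - dig d i < d - 1 - dig d j
        rw [j3, dig_three]
        have := dig_pos d hd i i.2 (by omega)
        omega
      · simp only [j0, j1, j2, j3, if_false]
        apply val_lt _ (fun a ha => by
          show (if a = (j : ℕ) - 2 then 1 else 0) < d
          split_ifs <;> omega) D T t htT _ _ (hpc' i j)
        rw [hpd i, hpd j]
        show (if dig d i = (j : ℕ) - 2 then 1 else 0) < (if dig d j = (j : ℕ) - 2 then 1 else 0)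
        rw [if_neg (dig_ne d hd i j i.2 j.2 (by omega) (by omega)),
          if_pos (dig_big d j (by omega))]
        exact one_pos
    · intro x hx
      have hd0 : 0 < d := by omega
      by_cases hx0 : x < p ⟨0, hd0⟩
      swap
      · refine ⟨⟨0, hd0⟩, ?_⟩
        have h1 : p ⟨0, hd0⟩ ≤ x := not_lt.mp hx0
        have h2 : p ⟨0, hd0⟩ < x := lt_of_le_of_ne h1 (fun h => hx _ h.symm)
        simpa using h2
      by_cases hx1 : p ⟨1, by omega⟩ < x
      swap
      · refine ⟨⟨1, by omega⟩, ?_⟩
        have h1 : x ≤ p ⟨1, by omega⟩ := not_lt.mp hx1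
        have h2 : x < p ⟨1, by omega⟩ := lt_of_le_of_ne h1 (fun h => hx _ h)
        have h3 : (x : ℕ) < p ⟨1, by omega⟩ := h2
        have h4 := (p ⟨1, by omega⟩).2
        simp
        omega
      by_cases hpre : ∀ s < t, D s x = D s (p ⟨0, hd0⟩)
      · have hq := hpe x (by
          intro j
          funext s
          simp only
          rw [hpre s s.2]
          exact hpc' _ _ s s.2) (by
          intro i hi
          have : i = ⟨0, hd0⟩ := Fin.ext hi
          rw [this]; exact hx0) (by
          intro i hi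
          have : i = ⟨1, by omega⟩ := Fin.ext hi
          rw [this]; exact hx1)
        rcases hq with ⟨j, hj⟩ | hq
        · exact absurd hj (hx j)
        · refine ⟨⟨2, by omega⟩, ?_⟩
          simp only [OfNat.ofNat_ne_zero, if_false, OfNat.ofNat_ne_one, if_true]
          apply val_lt _ (fun a ha => ha) D T t htT
          · intro s hs
            rw [hpre s hs]
            exact hpc' _ _ s hs
          · rw [hpd, hq]
            unfold dig
            simp
            omega
      · push Not at hpre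
        have hex : ∃ s, s < t ∧ D s x ≠ D s (p ⟨0, hd0⟩) := hpre
        classical
        have hs := Nat.find_spec hex
        have hmin : ∀ s' < Nat.find hex, D s' x = D s' (p ⟨0, hd0⟩) := by
          intro s' hs'
          have := Nat.find_min hex hs'
          push Not at this
          exact this (lt_trans hs' hs.1)
        set s := Nat.find hex with hsdef
        have hsne : (D s x : ℕ) ≠ D s (p ⟨0, hd0⟩) := fun h => hs.2 (Fin.ext h)
        rcases lt_or_gt_of_ne hsne with h | h
        · refine ⟨⟨3, by omega⟩, ?_⟩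
          simp only [OfNat.ofNat_ne_zero, if_false, OfNat.ofNat_ne_one, if_true,
            show ¬ (3 : ℕ) = 2 by norm_num]
          apply val_lt _ (fun a ha => by omega) D T s (lt_trans hs.1 htT)
          · intro s' hs'
            rw [hmin s' hs']
            exact hpc' _ _ s' (lt_trans hs' hs.1)
          · rw [hpc' ⟨3, by omega⟩ ⟨0, hd0⟩ s hs.1]
            have := (D s (p ⟨0, hd0⟩)).2
            show d - 1 - (D s (p ⟨0, hd0⟩) : ℕ) < d - 1 - (D s x : ℕ)
            omega
        · refine ⟨⟨2, by omega⟩, ?_⟩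
          simp only [OfNat.ofNat_ne_zero, if_false, OfNat.ofNat_ne_one, if_true]
          apply val_lt _ (fun a ha => ha) D T s (lt_trans hs.1 htT)
          · intro s' hs'
            rw [hmin s' hs']
            exact hpc' _ _ s' (lt_trans hs' hs.1)
          · rw [hpc' ⟨2, by omega⟩ ⟨0, hd0⟩ s hs.1]
            exact h

end Pool.Agent.Helper20.TCount
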