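import Mathlib
import Pool.Agent.Helper20.TCore

set_option autoImplicit false
set_option linter.unusedSectionVars false
set_option linter.unusedVariables false

namespace Pool.Agent.Helper20.TGeom

open Finset

/-- Near-diagonal system. -/
lemma solve {d : ℕ} (hd : 0 < d) (A : Matrix (Fin d) (Fin d) ℝ) (hdiag : ∀ i, A i i = 1)
    (hoff : ∀ i j, i ≠ j → |A i j| ≤ 1 / (4 * d)) :
    ∃ β : Fin d → ℝ, (∀ i, ∑ j, A i j * β j = 1) ∧ ∀ i, 2 / 3 ≤ β i := by
  have hdR : (0 : ℝ) < d := by exact_mod_cast hd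
  have hsum : ∀ i, ∑ j ∈ univ.erase i, |A i j| ≤ 1 / 4 := by
    intro i
    calc ∑ j ∈ univ.erase i, |A i j| ≤ ∑ j ∈ univ.erase i, 1 / (4 * (d : ℝ)) := by
          apply sum_le_sum
          intro j hj
          exact hoff i j (Finset.ne_of_mem_erase hj).symm
      _ = ((univ.erase i).card : ℝ) * (1 / (4 * (d : ℝ))) := by simp
      _ ≤ (d : ℝ) * (1 / (4 * (d : ℝ))) := by
          apply mul_le_mul_of_nonneg_right _ (by positivity)
          have : (univ.erase i).card ≤ d := by
            calc _ ≤ (univ : Finset (Fin d)).card := card_le_card (erase_subset _ _)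
              _ = d := by simp
          exact_mod_cast this
      _ = 1 / 4 := by field_simp
  have hdet : A.det ≠ 0 := by
    apply det_ne_zero_of_sum_row_lt_diag
    intro i
    rw [hdiag i]
    simp only [Real.norm_eq_abs, abs_one]
    have := hsum i
    linarith
  have hunit : IsUnit A.det := isUnit_iff_ne_zero.mpr hdet
  set β : Fin d → ℝ := A⁻¹.mulVec (fun _ => 1) with hβ
  have hsol : ∀ i, ∑ j, A i j * β j = 1 := by
    intro i
    have h1 : A.mulVec β = fun _ => 1 := by
      rw [hβ, Matrix.mulVec_mulVec, Matrix.mul_nonsing_inv A hunit, Matrix.one_mulVec]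
    have := congrFun h1 i
    simpa [Matrix.mulVec, dotProduct] using this
  refine ⟨β, hsol, ?_⟩
  have hsplit : ∀ i, β i + ∑ j ∈ univ.erase i, A i j * β j = 1 := by
    intro i
    have := hsol i
    rw [← add_sum_erase univ _ (mem_univ i), hdiag i, one_mul] at this
    exact this
  haveI : Nonempty (Fin d) := ⟨⟨0, hd⟩⟩
  obtain ⟨k, _, hk⟩ := exists_max_image (univ : Finset (Fin d)) (fun i => |β i|) univ_nonempty
  have hbound : ∀ i, |∑ j ∈ univ.erase i, A i j * β j| ≤ 1 / 4 * |β k| := by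
    intro i
    calc |∑ j ∈ univ.erase i, A i j * β j| ≤ ∑ j ∈ univ.erase i, |A i j * β j| :=
          abs_sum_le_sum_abs _ _
      _ ≤ ∑ j ∈ univ.erase i, |A i j| * |β k| := by
          apply sum_le_sum
          intro j _
          rw [abs_mul]
          exact mul_le_mul_of_nonneg_left (hk j (mem_univ j)) (abs_nonneg _)
      _ = (∑ j ∈ univ.erase i, |A i j|) * |β k| := by rw [sum_mul]
      _ ≤ 1 / 4 * |β k| := mul_le_mul_of_nonneg_right (hsum i) (abs_nonneg _)
  have hkb : |β k| ≤ 4 / 3 := by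
    have h1 := hsplit k
    have h2 := hbound k
    have h3 : |β k| = |1 - ∑ j ∈ univ.erase k, A k j * β j| := by
      congr 1; linarith
    have h4 : |1 - ∑ j ∈ univ.erase k, A k j * β j| ≤ |(1 : ℝ)| + |∑ j ∈ univ.erase k, A k j * β j| :=
      abs_sub _ _
    rw [abs_one] at h4
    linarith
  intro i
  have h1 := hsplit i
  have h2 := hbound i
  have h3 := abs_le.mp h2
  linarith [h3.2]

/-- Robust separation conditions. -/
def RC {d n : ℕ} (r : Fin d → Fin n → ℕ) (W : Fin n → EuclideanSpace ℝ (Fin d)) : Prop :=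
  (∀ i j, 0 < W i j) ∧ ∀ i i' j, r j i < r j i' → 4 * (d : ℝ) * W i j < W i' j

lemma facet_plane {d n : ℕ} (hd : 0 < d) (r : Fin d → Fin n → ℕ)
    (W : Fin n → EuclideanSpace ℝ (Fin d)) (hW : RC r W) (p : Fin d → Fin n)
    (h1 : ∀ i j, i ≠ j → r j (p i) < r j (p j))
    (h2 : ∀ x, (∀ j, x ≠ p j) → ∃ j, r j (p j) < r j x) :
    ∃ a : Fin d → ℝ, (∀ j, 0 < a j) ∧ (∀ i, ∑ j, a j * W (p i) j = 1) ∧
      ∀ x, (∀ j, x ≠ p j) → 1 < ∑ j, a j * W x j := by
  have hdR : (0 : ℝ) < d := by exact_mod_cast hd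
  have hd1 : (1 : ℝ) ≤ d := by exact_mod_cast hd
  obtain ⟨hpos, hgap⟩ := hW
  obtain ⟨β, hβ1, hβ2⟩ := solve hd (fun i j => W (p i) j / W (p j) j)
    (fun i => div_self (hpos _ _).ne') (by
      intro i j hij
      have h3 := hgap _ _ j (h1 i j hij)
      have h4 := hpos (p i) j
      have h5 := hpos (p j) j
      rw [abs_of_pos (by positivity), div_le_div_iff₀ h5 (by positivity)]
      linarith)
  refine ⟨fun j => β j / W (p j) j, ?_, ?_, ?_⟩
  · intro j
    have := hβ2 j
    have := hpos (p j) j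
    positivity
  · intro i
    rw [← hβ1 i]
    apply sum_congr rfl
    intro j _
    ring
  · intro x hx
    obtain ⟨j, hj⟩ := h2 x hx
    have h3 := hgap _ _ j hj
    have h4 := hpos (p j) j
    have h5 := hβ2 j
    have h6 : 1 < β j / W (p j) j * W x j := by
      have h7 : 4 * (d : ℝ) < W x j / W (p j) j := by
        rw [lt_div_iff₀ h4]; exact h3
      calc (1 : ℝ) < 2 / 3 * (4 * d) := by linarith
        _ ≤ β j * (W x j / W (p j) j) := by
          apply mul_le_mul h5 h7.le (by positivity) (by linarith)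
        _ = _ := by ring
    calc (1 : ℝ) < β j / W (p j) j * W x j := h6
      _ ≤ ∑ j, β j / W (p j) j * W x j := by
        apply single_le_sum (f := fun j => β j / W (p j) j * W x j) _ (mem_univ j)
        intro i _
        have := hβ2 i
        have := hpos (p i) i
        have := hpos x i
        positivity

lemma vertex_plane {d n : ℕ} (hd : 0 < d) (r : Fin d → Fin n → ℕ)
    (W : Fin n → EuclideanSpace ℝ (Fin d)) (hW : RC r W)
    (hr : ∀ i i' : Fin n, i ≠ i' → ∃ j, r j i < r j i') (x : Fin n) :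
    ∃ a : Fin d → ℝ, ∀ y, y ≠ x → ∑ j, a j * W x j < ∑ j, a j * W y j := by
  have hdR : (0 : ℝ) < d := by exact_mod_cast hd
  obtain ⟨hpos, hgap⟩ := hW
  refine ⟨fun j => 1 / W x j, ?_⟩
  intro y hy
  have h1 : ∑ j, 1 / W x j * W x j = (d : ℝ) := by
    rw [sum_congr rfl (fun j _ => one_div_mul_cancel (hpos x j).ne')]
    simp
  rw [h1]
  obtain ⟨j, hj⟩ := hr x y hy.symm
  have h3 := hgap _ _ j hj
  have h4 := hpos x j
  calc (d : ℝ) < 4 * d := by linarith
    _ < 1 / W x j * W y j := by
        have : 4 * (d : ℝ) < W y j / W x j := by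
          rw [lt_div_iff₀ h4]; exact h3
        calc _ < W y j / W x j := this
          _ = _ := by ring
    _ ≤ ∑ j, 1 / W x j * W y j := by
        apply single_le_sum (f := fun j => 1 / W x j * W y j) _ (mem_univ j)
        intro i _
        have := hpos x i
        have := hpos y i
        positivity

lemma exists_RC {d n : ℕ} (r : Fin d → Fin n → ℕ) :
    ∃ W : Fin n → EuclideanSpace ℝ (Fin d), RC r W := by
  refine ⟨fun i => WithLp.toLp 2 (fun j => (4 * (d : ℝ) + 1) ^ (r j i)), ?_, ?_⟩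
  · intro i j
    simp only
    positivity
  · intro i i' j h
    simp only
    have h0 : (1 : ℝ) ≤ 4 * d + 1 := by
      have : (0 : ℝ) ≤ d := Nat.cast_nonneg d
      linarith
    have h1 : (4 * (d : ℝ) + 1) ^ (r j i + 1) ≤ (4 * (d : ℝ) + 1) ^ (r j i') :=
      pow_le_pow_right₀ h0 h
    have h2 : (0 : ℝ) < (4 * (d : ℝ) + 1) ^ (r j i) := by positivity
    rw [pow_succ] at h1
    nlinarith

lemma RC_open {d n : ℕ} (r : Fin d → Fin n → ℕ) :
    IsOpen {W : Fin n → EuclideanSpace ℝ (Fin d) | RC r W} := by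
  have hc : ∀ (i : Fin n) (j : Fin d),
      Continuous (fun W : Fin n → EuclideanSpace ℝ (Fin d) => W i j) := by
    intro i j
    have h1 : Continuous (fun W : Fin n → EuclideanSpace ℝ (Fin d) => W i) := continuous_apply i
    exact (EuclideanSpace.proj (𝕜 := ℝ) j).continuous.comp h1
  have : {W : Fin n → EuclideanSpace ℝ (Fin d) | RC r W} =
      (⋂ i, ⋂ j, {W | 0 < W i j}) ∩
      (⋂ i, ⋂ i', ⋂ j, ⋂ (_ : r j i < r j i'), {W | 4 * (d : ℝ) * W i j < W i' j}) := by
    ext W
    simp only [RC, Set.mem_setOf_eq, Set.mem_inter_iff, Set.mem_iInter]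
  rw [this]
  refine IsOpen.inter ?_ ?_
  · refine isOpen_iInter_of_finite fun i => isOpen_iInter_of_finite fun j => ?_
    exact isOpen_lt continuous_const (hc i j)
  · refine isOpen_iInter_of_finite fun i => isOpen_iInter_of_finite fun i' =>
      isOpen_iInter_of_finite fun j => isOpen_iInter_of_finite fun _ => ?_
    exact isOpen_lt (continuous_const.mul (hc i j)) (hc i' j)

end Pool.Agent.Helper20.TGeom
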