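import Mathlib

set_option autoImplicit false
set_option linter.unusedSectionVars false
set_option linter.unusedVariables false

namespace Pool.Agent.Helper20.TGeom

open Finset MeasureTheory

/-- general position on a finite set of indices -/
def GP {d n : ℕ} (t : Finset (Fin n)) (W : Fin n → EuclideanSpace ℝ (Fin d)) : Prop :=
  ∀ s : Finset (Fin n), s ⊆ t → s.card ≤ d + 1 → AffineIndependent ℝ (fun i : s => W i)

lemma span_ne_top {d n : ℕ} (W : Fin n → EuclideanSpace ℝ (Fin d)) (s : Finset (Fin n))
    (hs : s.card ≤ d) : affineSpan ℝ (W '' (s : Set (Fin n))) ≠ ⊤ := by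
  classical
  intro h
  rcases s.eq_empty_or_nonempty with rfl | hne
  · simp only [coe_empty, Set.image_empty, AffineSubspace.span_empty] at h
    exact absurd h (AffineSubspace.bot_ne_top ℝ _ _)
  · have h1 : (affineSpan ℝ (W '' (s : Set (Fin n)))).direction = ⊤ := by
      rw [h, AffineSubspace.direction_top]
    rw [direction_affineSpan] at h1
    obtain ⟨m, hm⟩ : ∃ m, s.card = m + 1 := ⟨s.card - 1, by
      have := hne.card_pos; omega⟩
    have h2 := finrank_vectorSpan_image_finset_le ℝ W s hm
    rw [coe_image, h1, finrank_top, finrank_euclideanSpace_fin] at h2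
    omega

/-- adding one point generically -/
lemma exists_generic_point {d n : ℕ} (t : Finset (Fin n)) (W : Fin n → EuclideanSpace ℝ (Fin d))
    (x : EuclideanSpace ℝ (Fin d)) (δ : ℝ) (hδ : 0 < δ) :
    ∃ y, dist y x < δ ∧ ∀ s : Finset (Fin n), s ⊆ t → s.card ≤ d →
      y ∉ affineSpan ℝ (W '' (s : Set (Fin n))) := by
  classical
  set bad : Set (EuclideanSpace ℝ (Fin d)) :=
    ⋃ s ∈ ((t.powerset.filter (fun s => s.card ≤ d) : Finset (Finset (Fin n))) :
      Set (Finset (Fin n))), (affineSpan ℝ (W '' (s : Set (Fin n))) : Set (EuclideanSpace ℝ (Fin d))) with hbad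
  have h1 : volume bad = 0 := by
    rw [hbad, measure_biUnion_null_iff (Finset.countable_toSet _)]
    intro s hs
    apply Measure.addHaar_affineSubspace
    exact span_ne_top W s (mem_filter.mp (mem_coe.mp hs)).2
  have h2 : 0 < volume (Metric.ball x δ) := Metric.measure_ball_pos _ _ hδ
  have h3 : ¬ Metric.ball x δ ⊆ bad := by
    intro hsub
    have := measure_mono (μ := volume) hsub
    rw [h1] at this
    exact absurd h2 (not_lt.mpr this)
  rw [Set.not_subset] at h3
  obtain ⟨y, hy1, hy2⟩ := h3
  refine ⟨y, hy1, ?_⟩
  intro s hs hsd hmem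
  apply hy2
  rw [hbad]
  simp only [Set.mem_iUnion]
  exact ⟨s, mem_coe.mpr (mem_filter.mpr ⟨mem_powerset.mpr hs, hsd⟩), hmem⟩

lemma perturb_aux {d n : ℕ} (W : Fin n → EuclideanSpace ℝ (Fin d)) (δ : ℝ) (hδ : 0 < δ)
    (t : Finset (Fin n)) :
    ∃ W' : Fin n → EuclideanSpace ℝ (Fin d), (∀ i, dist (W' i) (W i) < δ) ∧ GP t W' := by
  classical
  induction t using Finset.induction_on with
  | empty =>
    refine ⟨W, fun i => by simpa using hδ, ?_⟩
    intro s hs hc
    have : s = ∅ := subset_empty.mp hs
    subst this
    have : IsEmpty ((∅ : Finset (Fin n)) : Type) := Finset.isEmpty_coe_sort.mpr rfl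
    exact affineIndependent_of_subsingleton ℝ _
  | insert a t ha ih =>
    obtain ⟨W', hW', hGP⟩ := ih
    obtain ⟨y, hy1, hy2⟩ := exists_generic_point t W' (W a) δ hδ
    refine ⟨Function.update W' a y, ?_, ?_⟩
    · intro i
      by_cases h : i = a
      · subst h; simpa using hy1
      · simpa [h] using hW' i
    · intro s hs hc
      by_cases has : a ∈ s
      · -- remove a
        have hs' : s.erase a ⊆ t := by
          intro x hx
          have h1 := hs (mem_of_mem_erase hx)
          rcases mem_insert.mp h1 with h | h
          · exact absurd h (ne_of_mem_erase hx)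
          · exact h
        have hc' : (s.erase a).card ≤ d := by
          rw [card_erase_of_mem has]; omega
        have hind := hGP (s.erase a) hs' (by omega)
        have hnot := hy2 (s.erase a) hs' hc'
        apply AffineIndependent.affineIndependent_of_notMem_span (i := (⟨a, has⟩ : s))
        · -- family without a
          let e : {y : s // y ≠ ⟨a, has⟩} ↪ (s.erase a : Finset (Fin n)) :=
            ⟨fun y => ⟨y.1.1, mem_erase.mpr ⟨fun h => y.2 (Subtype.ext h), y.1.2⟩⟩, by
              intro y z h
              simp only [Subtype.mk.injEq] at h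
              exact Subtype.ext (Subtype.ext h)⟩
          have h1 := hind.comp_embedding e
          have h2 : (fun x : {z : s // z ≠ ⟨a, has⟩} => Function.update W' a y (x.1 : Fin n)) =
              (fun i : (s.erase a : Finset (Fin n)) => W' i) ∘ e := by
            funext z
            simp only [Function.comp]
            have : (z.1.1 : Fin n) ≠ a := fun h => z.2 (Subtype.ext h)
            rw [Function.update_of_ne this]
            rfl
          rw [h2]
          exact h1
        · have h3 : (fun i : s => Function.update W' a y (i : Fin n)) '' {x | x ≠ ⟨a, has⟩} =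
              W' '' ((s.erase a : Finset (Fin n)) : Set (Fin n)) := by
            ext z
            constructor
            · rintro ⟨b, hba, rfl⟩
              have hba' : (b : Fin n) ≠ a := fun h => hba (Subtype.ext h)
              refine ⟨b, mem_coe.mpr (mem_erase.mpr ⟨hba', b.2⟩), ?_⟩
              simp only
              rw [Function.update_of_ne hba']
            · rintro ⟨b, hb, rfl⟩
              have hb' := mem_erase.mp (mem_coe.mp hb)
              refine ⟨⟨b, hb'.2⟩, fun h => hb'.1 (congrArg Subtype.val h), ?_⟩
              simp only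
              rw [Function.update_of_ne hb'.1]
          rw [h3]
          simp only [Function.update_self]
          exact hnot
      · have hs' : s ⊆ t := by
          intro x hx
          rcases mem_insert.mp (hs hx) with h | h
          · subst h; exact absurd hx has
          · exact h
        have := hGP s hs' hc
        convert this using 1
        funext i
        have : (i : Fin n) ≠ a := fun h => has (h ▸ i.2)
        rw [Function.update_of_ne this]

lemma perturb {d n : ℕ} (O : Set (Fin n → EuclideanSpace ℝ (Fin d))) (hO : IsOpen O)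
    (W : Fin n → EuclideanSpace ℝ (Fin d)) (hW : W ∈ O) :
    ∃ W' ∈ O, GP univ W' := by
  rw [Metric.isOpen_iff] at hO
  obtain ⟨ε, hε, hball⟩ := hO W hW
  obtain ⟨W', h1, h2⟩ := perturb_aux W ε hε univ
  refine ⟨W', hball ?_, h2⟩
  rw [Metric.mem_ball, dist_pi_lt_iff hε]
  exact h1

end Pool.Agent.Helper20.TGeom
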