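import Mathlib

set_option autoImplicit false

namespace Pool.Agent.Helper20.Transversal

open Filter

/-- The transversal number of the hypergraph with vertex set `V` and edge set `E`: the minimum
size of a set `X ⊆ V` that meets every edge. -/
noncomputable def transversalNumber {α : Type} (V : Set α) (E : Set (Set α)) : ℕ :=
  sInf {k : ℕ | ∃ X : Finset α, (X : Set α) ⊆ V ∧ X.card = k ∧ ∀ F ∈ E, ∃ x ∈ X, x ∈ F}

/-- The transversal ratio: transversal number divided by the number of vertices. -/
noncomputable def transversalRatio {α : Type} (V : Set α) (E : Set (Set α)) : ℝ :=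
  (transversalNumber V E : ℝ) / (V.ncard : ℝ)

/-- `F` is a facet of `Q ⊆ ℝ^d`: a nonempty exposed face of dimension `d - 1`. -/
def IsFacet {d : ℕ} (Q F : Set (EuclideanSpace ℝ (Fin d))) : Prop :=
  F.Nonempty ∧ IsExposed ℝ Q F ∧ Module.finrank ℝ (vectorSpan ℝ F) + 1 = d

/-- `Q ⊆ ℝ^d` is a simplicial `d`-polytope: the convex hull of finitely many points, with
nonempty interior, all of whose facets are simplices. -/
structure IsSimplicialPolytope {d : ℕ} (Q : Set (EuclideanSpace ℝ (Fin d))) : Prop where
  isPolytope : ∃ A : Finset (EuclideanSpace ℝ (Fin d)),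
    Q = convexHull ℝ (A : Set (EuclideanSpace ℝ (Fin d)))
  fullDim : (interior Q).Nonempty
  simplicial : ∀ F, IsFacet Q F → ∃ A : Finset (EuclideanSpace ℝ (Fin d)),
    AffineIndependent ℝ (fun x : A => (x : EuclideanSpace ℝ (Fin d))) ∧
      F = convexHull ℝ (A : Set (EuclideanSpace ℝ (Fin d)))

/-- `τ^P_d`: the limsup over `n` of the maximum transversal ratio of the boundary complex of a
simplicial `d`-polytope with `n` vertices. -/
noncomputable def tauP (d : ℕ) : ℝ :=
  limsup (fun n : ℕ => sSup {t : ℝ | ∃ Q : Set (EuclideanSpace ℝ (Fin d)),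
    IsSimplicialPolytope Q ∧ (Q.extremePoints ℝ).ncard = n ∧
      t = transversalRatio (Q.extremePoints ℝ) {F | IsFacet Q F}}) atTop

/-- The geometric realization of a finite abstract simplicial complex on the vertex set
`{0, …, n-1}`, inside `ℝ^n`. -/
def realization {n : ℕ} (K : AbstractSimplicialComplex (Fin n)) : Set (Fin n → ℝ) :=
  {x | (∀ i, 0 ≤ x i) ∧ ∑ i, x i = 1 ∧ ∃ s ∈ K.faces, ∀ i, x i ≠ 0 → i ∈ s}

/-- `K` is a simplicial `(d-1)`-sphere: its geometric realization is homeomorphic to the unit
sphere of `ℝ^d`. -/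
def IsSimplicialSphere (d : ℕ) {n : ℕ} (K : AbstractSimplicialComplex (Fin n)) : Prop :=
  Nonempty (realization K ≃ₜ Metric.sphere (0 : EuclideanSpace ℝ (Fin d)) 1)

/-- The facets (maximal faces) of an abstract simplicial complex, as a set of vertex sets. -/
def facets {n : ℕ} (K : AbstractSimplicialComplex (Fin n)) : Set (Set (Fin n)) :=
  {F | ∃ s : Finset (Fin n), Maximal (fun t => t ∈ K.faces) s ∧ F = (s : Set (Fin n))}

/-- `τ^S_d`: the limsup over `n` of the maximum transversal ratio of a simplicial
`(d-1)`-sphere with `n` vertices. -/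
noncomputable def tauS (d : ℕ) : ℝ :=
  limsup (fun n : ℕ => sSup {t : ℝ | ∃ K : AbstractSimplicialComplex (Fin n),
    IsSimplicialSphere d K ∧ t = transversalRatio (Set.univ : Set (Fin n)) (facets K)}) atTop

end Pool.Agent.Helper20.Transversal
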