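import Mathlib
import Pool.Agent.Helper20.TransversalDefs
import Pool.Agent.Helper20.TPerturb

set_option autoImplicit false
set_option linter.unusedSectionVars false
set_option linter.unusedVariables false

namespace Pool.Agent.Helper20.TGeom

open Finset Pool.Agent.Helper20.Transversal

section hull

variable {d n : ℕ} (W : Fin n → EuclideanSpace ℝ (Fin d))

lemma mem_hull_iff {E : Type*} [AddCommGroup E] [Module ℝ E] (W : Fin n → E) (p : E) :
    p ∈ convexHull ℝ (Set.range W) ↔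
      ∃ x : Fin n → ℝ, (∀ i, 0 ≤ x i) ∧ ∑ i, x i = 1 ∧ ∑ i, x i • W i = p := by
  classical
  let L : (Fin n → ℝ) →ₗ[ℝ] E := ∑ i, (LinearMap.proj (R := ℝ) i).smulRight (W i)
  have hL : ∀ x, L x = ∑ i, x i • W i := by
    intro x
    simp [L]
  have h1 : convexHull ℝ (Set.range W) = L '' stdSimplex ℝ (Fin n) := by
    rw [← convexHull_rangle_single_eq_stdSimplex, LinearMap.image_convexHull, ← Set.range_comp]
    congr 1
    congr 1
    funext i
    simp [hL, Pi.single_apply]
  rw [h1]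
  constructor
  · rintro ⟨x, hx, rfl⟩
    exact ⟨x, hx.1, hx.2, (hL x).symm⟩
  · rintro ⟨x, h1, h2, h3⟩
    exact ⟨x, ⟨h1, h2⟩, by rw [hL, h3]⟩

/-- support of a maximizing point -/
lemma support_max (f : EuclideanSpace ℝ (Fin d) →L[ℝ] ℝ) (c : ℝ) (hf : ∀ i, f (W i) ≤ c)
    (x : Fin n → ℝ) (hx0 : ∀ i, 0 ≤ x i) (hx1 : ∑ i, x i = 1) (h : f (∑ i, x i • W i) = c) :
    ∀ i, x i ≠ 0 → f (W i) = c := by
  have h1 : ∑ i, x i * (c - f (W i)) = 0 := by
    have : f (∑ i, x i • W i) = ∑ i, x i * f (W i) := by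
      rw [map_sum]; simp
    simp only [mul_sub, sum_sub_distrib, ← this, h, ← sum_mul, hx1]
    ring
  have h2 := (sum_eq_zero_iff_of_nonneg (fun i _ =>
    mul_nonneg (hx0 i) (sub_nonneg.mpr (hf i)))).mp h1
  intro i hi
  have h3 := h2 i (mem_univ i)
  rcases mul_eq_zero.mp h3 with h4 | h4
  · exact absurd h4 hi
  · linarith

lemma hull_le (f : EuclideanSpace ℝ (Fin d) →L[ℝ] ℝ) (c : ℝ) (hf : ∀ i, f (W i) ≤ c)
    (p : EuclideanSpace ℝ (Fin d)) (hp : p ∈ convexHull ℝ (Set.range W)) : f p ≤ c := by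
  obtain ⟨x, hx0, hx1, rfl⟩ := (mem_hull_iff W p).mp hp
  rw [map_sum]
  calc ∑ i, f (x i • W i) = ∑ i, x i * f (W i) := by simp
    _ ≤ ∑ i, x i * c := sum_le_sum (fun i _ => mul_le_mul_of_nonneg_left (hf i) (hx0 i))
    _ = c := by rw [← sum_mul, hx1, one_mul]

/-- points on a common hyperplane -/
lemma card_hyperplane (hGP : GP univ W) (f : EuclideanSpace ℝ (Fin d) →L[ℝ] ℝ) (hf : f ≠ 0)
    (c : ℝ) (u : Finset (Fin n)) (hu : ∀ i ∈ u, f (W i) = c) : u.card ≤ d := by
  classical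
  by_contra hcon
  push Not at hcon
  obtain ⟨v, hvu, hv⟩ := exists_subset_card_eq (show d + 1 ≤ u.card by omega)
  have hind := hGP v (subset_univ _) (by omega)
  have hfin : Fintype.card v = d + 1 := by simp [hv]
  have h1 := (affineIndependent_iff_finrank_vectorSpan_eq ℝ (fun i : v => W i) hfin).mp hind
  have h2 : vectorSpan ℝ (Set.range (fun i : v => W i)) = ⊤ := by
    apply Submodule.eq_top_of_finrank_eq
    rw [h1, finrank_euclideanSpace_fin]
  have h3 : vectorSpan ℝ (Set.range (fun i : v => W i)) ≤ LinearMap.ker f.toLinearMap := by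
    rw [vectorSpan_def, Submodule.span_le]
    rintro x hx
    rw [Set.mem_vsub] at hx
    obtain ⟨_, ⟨i, rfl⟩, _, ⟨j, rfl⟩, rfl⟩ := hx
    simp only [vsub_eq_sub, SetLike.mem_coe, LinearMap.mem_ker, ContinuousLinearMap.coe_coe,
      map_sub]
    rw [hu i (hvu i.2), hu j (hvu j.2), sub_self]
  rw [h2, top_le_iff] at h3
  apply hf
  ext x
  have : x ∈ LinearMap.ker f.toLinearMap := by rw [h3]; trivial
  simpa using this

/-- the index set of a supporting hyperplane -/
lemma indep_of_hyperplane (hGP : GP univ W) (f : EuclideanSpace ℝ (Fin d) →L[ℝ] ℝ) (hf : f ≠ 0)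
    (c : ℝ) (u : Finset (Fin n)) (hu : ∀ i ∈ u, f (W i) = c) :
    AffineIndependent ℝ (fun i : u => W i) :=
  hGP u (subset_univ _) (by have := card_hyperplane W hGP f hf c u hu; omega)

lemma face_eq (f : EuclideanSpace ℝ (Fin d) →L[ℝ] ℝ) (c : ℝ) (hf : ∀ i, f (W i) ≤ c)
    (u : Finset (Fin n)) (hu : ∀ i, i ∈ u ↔ f (W i) = c) :
    {p ∈ convexHull ℝ (Set.range W) | f p = c} = convexHull ℝ (W '' (u : Set (Fin n))) := by
  classical
  apply Set.Subset.antisymm
  · rintro p ⟨hp, hpc⟩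
    obtain ⟨x, hx0, hx1, rfl⟩ := (mem_hull_iff W p).mp hp
    have h1 := support_max W f c hf x hx0 hx1 hpc
    have h2 : ∑ i, x i • W i = ∑ i ∈ u, x i • W i := by
      symm
      apply sum_subset (subset_univ _)
      intro i _ hi
      have : x i = 0 := by
        by_contra h
        exact hi ((hu i).mpr (h1 i h))
      rw [this, zero_smul]
    have h3 : ∑ i ∈ u, x i = 1 := by
      rw [← hx1]
      apply sum_subset (subset_univ _)
      intro i _ hi
      by_contra h
      exact hi ((hu i).mpr (h1 i h))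
    rw [h2]
    apply (convex_convexHull ℝ _).sum_mem (fun i _ => hx0 i) h3
    intro i hi
    exact subset_convexHull ℝ _ ⟨i, mem_coe.mpr hi, rfl⟩
  · apply convexHull_min
    · rintro _ ⟨i, hi, rfl⟩
      exact ⟨subset_convexHull ℝ _ ⟨i, rfl⟩, (hu i).mp (mem_coe.mp hi)⟩
    · have : {p ∈ convexHull ℝ (Set.range W) | f p = c} =
          convexHull ℝ (Set.range W) ∩ f ⁻¹' {c} := by
        ext p; simp
      rw [this]
      apply (convex_convexHull ℝ _).inter
      exact (convex_singleton c).is_linear_preimage f.toLinearMap.isLinear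

/-- sup of `f` over the hull when attained at an index -/
lemma argmax_eq (f : EuclideanSpace ℝ (Fin d) →L[ℝ] ℝ) (c : ℝ) (hf : ∀ i, f (W i) ≤ c)
    (i0 : Fin n) (hi0 : f (W i0) = c) :
    {p ∈ convexHull ℝ (Set.range W) | ∀ y ∈ convexHull ℝ (Set.range W), f y ≤ f p} =
      {p ∈ convexHull ℝ (Set.range W) | f p = c} := by
  ext p
  simp only [Set.mem_setOf_eq, and_congr_right_iff]
  intro hp
  constructor
  · intro h
    apply le_antisymm (hull_le W f c hf p hp)
    rw [← hi0]
    exact h _ (subset_convexHull ℝ _ ⟨i0, rfl⟩)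
  · intro h y hy
    rw [h]
    exact hull_le W f c hf y hy

end hull

end Pool.Agent.Helper20.TGeom
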