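import Mathlib
import Pool.Agent.Helper20.TransversalDefs
import Pool.Agent.Helper20.TPoly
import Pool.Agent.Helper20.TGeom

set_option autoImplicit false
set_option linter.unusedSectionVars false
set_option linter.unusedVariables false

namespace Pool.Agent.Helper20.TGeom

open Finset Pool.Agent.Helper20.Transversal

/-- A good configuration of points. -/
structure Cfg {d n : ℕ} (q : ℕ) (W : Fin n → EuclideanSpace ℝ (Fin d)) : Prop where
  hd : 0 < d
  hn : d + 1 ≤ n
  gp : GP univ W
  vtx : ∀ x, ∃ f : EuclideanSpace ℝ (Fin d) →L[ℝ] ℝ, ∀ y, y ≠ x → f (W y) < f (W x)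
  fac : ∀ S : Finset (Fin n), n ≤ q * S.card → ∃ p : Fin d → Fin n, (∀ j, p j ∈ S) ∧
    Function.Injective p ∧ ∃ f : EuclideanSpace ℝ (Fin d) →L[ℝ] ℝ, ∃ c : ℝ,
      (∀ j, f (W (p j)) = c) ∧ ∀ x, (∀ j, x ≠ p j) → f (W x) < c

lemma exists_cfg (d : ℕ) (hd : 4 ≤ d) (q : ℕ) (hq : 0 < q) (N0 : ℕ) :
    ∃ n, N0 ≤ n ∧ ∃ W : Fin n → EuclideanSpace ℝ (Fin d), Cfg q W := by
  obtain ⟨n, hn, r, hr1, hr2⟩ := TCount.core d hd q hq (max N0 (d + 1))
  obtain ⟨W0, hW0⟩ := exists_RC r
  obtain ⟨W, hW, hGP⟩ := perturb _ (RC_open r) W0 hW0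
  have hd0 : 0 < d := by omega
  let F : (Fin d → ℝ) → (EuclideanSpace ℝ (Fin d) →L[ℝ] ℝ) :=
    fun a => -(∑ j, a j • (EuclideanSpace.proj (𝕜 := ℝ) j))
  have hF : ∀ a v, F a v = -(∑ j, a j * v j) := by
    intro a v
    simp [F]
  refine ⟨n, le_trans (le_max_left _ _) hn, W, hd0, le_trans (le_max_right _ _) hn, hGP, ?_, ?_⟩
  · intro x
    obtain ⟨a, ha⟩ := vertex_plane hd0 r W hW hr1 x
    refine ⟨F a, fun y hy => ?_⟩
    rw [hF, hF]
    exact neg_lt_neg (ha y hy)
  · intro S hS
    obtain ⟨p, hp1, hp2, hp3⟩ := hr2 S hS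
    obtain ⟨a, _, ha1, ha2⟩ := facet_plane hd0 r W hW p hp2 hp3
    refine ⟨p, hp1, ?_, F a, -1, ?_, ?_⟩
    · intro i j hij
      by_contra hne
      have := hp2 i j hne
      rw [hij] at this
      exact lt_irrefl _ this
    · intro j
      rw [hF, ha1]
    · intro x hx
      rw [hF]
      exact neg_lt_neg (ha2 x hx)

section cfg

variable {d n q : ℕ} {W : Fin n → EuclideanSpace ℝ (Fin d)}

lemma Cfg.inj (h : Cfg q W) : Function.Injective W := by
  intro x y hxy
  by_contra hne
  obtain ⟨f, hf⟩ := h.vtx x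
  have := hf y (Ne.symm hne)
  rw [hxy] at this
  exact lt_irrefl _ this

/-- hull -/
def hull (W : Fin n → EuclideanSpace ℝ (Fin d)) : Set (EuclideanSpace ℝ (Fin d)) :=
  convexHull ℝ (Set.range W)

lemma Cfg.extreme (h : Cfg q W) : (hull W).extremePoints ℝ = Set.range W := by
  apply Set.Subset.antisymm extremePoints_convexHull_subset
  rintro _ ⟨x, rfl⟩
  apply exposedPoints_subset_extremePoints
  rw [mem_exposedPoints_iff_exposed_singleton]
  intro _
  obtain ⟨f, hf⟩ := h.vtx x
  refine ⟨f, ?_⟩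
  have hle : ∀ i, f (W i) ≤ f (W x) := by
    intro i
    by_cases hi : i = x
    · rw [hi]
    · exact (hf i hi).le
  rw [argmax_eq W f (f (W x)) hle x rfl, face_eq W f (f (W x)) hle {x} ?_]
  · simp
  · intro i
    simp only [mem_singleton]
    constructor
    · rintro rfl; rfl
    · intro hi
      by_contra hne
      exact absurd hi (hf i hne).ne

lemma Cfg.ncard (h : Cfg q W) : ((hull W).extremePoints ℝ).ncard = n := by
  rw [h.extreme, ← Set.image_univ, Set.ncard_image_of_injective _ h.inj, Set.ncard_univ]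
  simp

lemma Cfg.span_top (h : Cfg q W) : affineSpan ℝ (Set.range W) = ⊤ := by
  classical
  obtain ⟨v, _, hv⟩ := exists_subset_card_eq (s := (univ : Finset (Fin n)))
    (show d + 1 ≤ (univ : Finset (Fin n)).card by simpa using h.hn)
  have hind := h.gp v (subset_univ _) (by omega)
  have h1 : affineSpan ℝ (Set.range (fun i : v => W i)) = ⊤ := by
    rw [hind.affineSpan_eq_top_iff_card_eq_finrank_add_one]
    simp [hv]
  rw [eq_top_iff, ← h1]
  apply affineSpan_mono
  rintro _ ⟨i, rfl⟩
  exact ⟨i, rfl⟩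

lemma Cfg.interior_ne (h : Cfg q W) : (interior (hull W)).Nonempty := by
  unfold hull
  rw [interior_convexHull_nonempty_iff_affineSpan_eq_top]
  exact h.span_top

/-- facets of the hull are given by index sets -/
lemma Cfg.facet_struct (h : Cfg q W) (F : Set (EuclideanSpace ℝ (Fin d)))
    (hF : IsFacet (hull W) F) :
    ∃ u : Finset (Fin n), u.Nonempty ∧ AffineIndependent ℝ (fun i : u => W i) ∧
      F = convexHull ℝ (W '' (u : Set (Fin n))) := by
  classical
  obtain ⟨hne, hexp, hdim⟩ := hF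
  obtain ⟨l, hl⟩ := hexp hne
  have hl0 : l ≠ 0 := by
    rintro rfl
    have h1 : F = hull W := by
      rw [hl]; ext x; simp
    have h2 : vectorSpan ℝ F = ⊤ := by
      rw [h1]
      unfold hull
      rw [← direction_affineSpan, affineSpan_convexHull, h.span_top, AffineSubspace.direction_top]
    rw [h2, finrank_top, finrank_euclideanSpace_fin] at hdim
    omega
  obtain ⟨p, hp⟩ := hne
  have hp' : p ∈ {x | x ∈ hull W ∧ ∀ y ∈ hull W, l y ≤ l x} := by
    have := hp
    rw [hl] at this
    exact this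
  obtain ⟨hpQ, hpmax⟩ := hp'
  have hle : ∀ i, l (W i) ≤ l p := fun i => hpmax _ (subset_convexHull ℝ _ ⟨i, rfl⟩)
  obtain ⟨x, hx0, hx1, hxp⟩ := (mem_hull_iff W p).mp hpQ
  have hsupp := support_max W l (l p) hle x hx0 hx1 (by rw [hxp])
  obtain ⟨i0, hi0⟩ : ∃ i, x i ≠ 0 := by
    by_contra hcon
    push Not at hcon
    simp [hcon] at hx1
  have hi0' := hsupp i0 hi0
  refine ⟨univ.filter (fun i => l (W i) = l p), ⟨i0, by simpa using hi0'⟩,
    indep_of_hyperplane W h.gp l hl0 (l p) _ (fun i hi => (mem_filter.mp hi).2), ?_⟩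
  rw [hl]
  unfold hull
  rw [argmax_eq W l (l p) hle i0 hi0']
  exact face_eq W l (l p) hle _ (fun i => by simp)

lemma Cfg.simplicial (h : Cfg q W) : IsSimplicialPolytope (hull W) := by
  classical
  refine ⟨⟨univ.image W, ?_⟩, h.interior_ne, ?_⟩
  · unfold hull
    congr 1
    ext x; simp
  · intro F hF
    obtain ⟨u, _, hu, hFu⟩ := h.facet_struct F hF
    refine ⟨u.image W, ?_, ?_⟩
    · have h1 := hu.range
      have h2 : Set.range (fun i : u => W i) = ((u.image W : Finset _) : Set _) := by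
        ext x; simp
      rw [h2] at h1
      exact h1
    · rw [hFu, coe_image]

lemma Cfg.isFacet (h : Cfg q W) (p : Fin d → Fin n) (hp : Function.Injective p)
    (f : EuclideanSpace ℝ (Fin d) →L[ℝ] ℝ) (c : ℝ) (h1 : ∀ j, f (W (p j)) = c)
    (h2 : ∀ x, (∀ j, x ≠ p j) → f (W x) < c) :
    IsFacet (hull W) {x ∈ hull W | f x = c} := by
  classical
  have hle : ∀ i, f (W i) ≤ c := by
    intro i
    by_cases hi : ∃ j, i = p j
    · obtain ⟨j, rfl⟩ := hi
      rw [h1]
    · push Not at hi
      exact (h2 i hi).le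
  set u : Finset (Fin n) := univ.image p with hu
  have humem : ∀ i, i ∈ u ↔ f (W i) = c := by
    intro i
    constructor
    · intro hi
      obtain ⟨j, _, rfl⟩ := mem_image.mp hi
      exact h1 j
    · intro hi
      by_contra hcon
      have : ∀ j, i ≠ p j := by
        rintro j rfl
        exact hcon (mem_image_of_mem _ (mem_univ _))
      exact absurd hi (h2 i this).ne
  have hucard : u.card = d := by
    rw [hu, card_image_of_injective _ hp]; simp
  obtain ⟨j0⟩ : Nonempty (Fin d) := ⟨⟨0, h.hd⟩⟩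
  refine ⟨⟨W (p j0), subset_convexHull ℝ _ ⟨_, rfl⟩, h1 j0⟩, ?_, ?_⟩
  · intro _
    refine ⟨f, ?_⟩
    unfold hull
    rw [argmax_eq W f c hle (p j0) (h1 j0)]
  · unfold hull
    rw [face_eq W f c hle u humem, ← direction_affineSpan, affineSpan_convexHull,
      direction_affineSpan]
    have hind := h.gp u (subset_univ _) (by omega)
    have hfin : Fintype.card u = (d - 1) + 1 := by
      have := h.hd
      simp only [Fintype.card_coe, hucard]
      omega
    have h3 := hind.finrank_vectorSpan hfin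
    have h4 : Set.range (fun i : u => W i) = W '' (u : Set (Fin n)) := by
      ext x; simp
    rw [h4] at h3
    rw [h3]
    have := h.hd
    omega

lemma Cfg.ratio (h : Cfg q W) (hq : 0 < q) :
    1 - 1 / (q : ℝ) ≤
      transversalRatio ((hull W).extremePoints ℝ) {F | IsFacet (hull W) F} := by
  classical
  have hn0 : 0 < n := by have := h.hn; omega
  have hne : {k : ℕ | ∃ X : Finset (EuclideanSpace ℝ (Fin d)),
      (X : Set (EuclideanSpace ℝ (Fin d))) ⊆ (hull W).extremePoints ℝ ∧ X.card = k ∧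
      ∀ F ∈ {F | IsFacet (hull W) F}, ∃ x ∈ X, x ∈ F}.Nonempty := by
    refine ⟨_, univ.image W, ?_, rfl, ?_⟩
    · rw [h.extreme]; simp
    · intro F hF
      obtain ⟨u, ⟨i, hi⟩, _, hFu⟩ := h.facet_struct F hF
      refine ⟨W i, mem_image_of_mem _ (mem_univ _), ?_⟩
      rw [hFu]
      exact subset_convexHull ℝ _ ⟨i, mem_coe.mpr hi, rfl⟩
  obtain ⟨X, hXV, hXcard, hX⟩ := Nat.sInf_mem hne
  unfold transversalRatio
  rw [h.ncard]
  have hT : transversalNumber ((hull W).extremePoints ℝ) {F | IsFacet (hull W) F} = X.card := by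
    rw [hXcard]; rfl
  rw [hT]
  set S : Finset (Fin n) := univ.filter (fun i => W i ∉ X) with hS
  have hcard : S.card + X.card = n := by
    have h1 : (univ.filter (fun i => W i ∈ X)).card = X.card := by
      rw [← card_image_of_injective _ h.inj]
      congr 1
      ext x
      simp only [mem_image, mem_filter, mem_univ, true_and]
      constructor
      · rintro ⟨i, hi, rfl⟩; exact hi
      · intro hx
        have := hXV (mem_coe.mpr hx)
        rw [h.extreme] at this
        obtain ⟨i, rfl⟩ := this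
        exact ⟨i, hx, rfl⟩
    have h2 : (univ.filter (fun i => W i ∈ X)).card + S.card = (univ : Finset (Fin n)).card :=
      card_filter_add_card_filter_not _
    rw [h1, card_univ, Fintype.card_fin] at h2
    omega
  have hlt : q * S.card < n := by
    by_contra hcon
    push Not at hcon
    obtain ⟨p, hpS, hpinj, f, c, h1, h2⟩ := h.fac S hcon
    obtain ⟨x, hxX, hxF⟩ := hX _ (h.isFacet p hpinj f c h1 h2)
    have hxV := hXV (mem_coe.mpr hxX)
    rw [h.extreme] at hxV
    obtain ⟨i, rfl⟩ := hxV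
    have h3 : f (W i) = c := hxF.2
    have h4 : ∃ j, i = p j := by
      by_contra h5
      push Not at h5
      exact absurd h3 (h2 i h5).ne
    obtain ⟨j, rfl⟩ := h4
    have := hpS j
    rw [hS, mem_filter] at this
    exact this.2 hxX
  have hnR : (0 : ℝ) < n := by exact_mod_cast hn0
  have hqR : (0 : ℝ) < q := by exact_mod_cast hq
  have h6 : (q : ℝ) * S.card < n := by exact_mod_cast hlt
  have h7 : (S.card : ℝ) + X.card = n := by exact_mod_cast hcard
  rw [le_div_iff₀ hnR]
  have h8 : (S.card : ℝ) < n / q := by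
    rw [lt_div_iff₀ hqR]; linarith
  have h9 : (1 - 1 / (q : ℝ)) * n = n - n / q := by ring
  rw [h9]
  linarith

end cfg

end Pool.Agent.Helper20.TGeom
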