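import Mathlib
import Pool.Agent.Helper20.TCfg

set_option autoImplicit false
set_option linter.unusedSectionVars false
set_option linter.unusedVariables false

namespace Pool.Agent.Helper20.TGeom

open Finset Filter Topology Pool.Agent.Helper20.Transversal

lemma ratio_nonneg {α : Type} (V : Set α) (E : Set (Set α)) : 0 ≤ transversalRatio V E := by
  unfold transversalRatio; positivity

lemma ratio_le_one {α : Type} (V : Set α) (E : Set (Set α)) : transversalRatio V E ≤ 1 := by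
  unfold transversalRatio
  by_cases hV : V.Finite
  · apply div_le_one_of_le₀ _ (by positivity)
    rw [Nat.cast_le]
    unfold transversalNumber
    set A := {k : ℕ | ∃ X : Finset α, (X : Set α) ⊆ V ∧ X.card = k ∧ ∀ F ∈ E, ∃ x ∈ X, x ∈ F} with hA
    rcases A.eq_empty_or_nonempty with h | h
    · rw [h, Nat.sInf_empty]; exact Nat.zero_le _
    · obtain ⟨X, hX, hc, _⟩ := Nat.sInf_mem h
      rw [← hc, ← Set.ncard_coe_finset]
      exact Set.ncard_le_ncard hX hV
  · rw [Set.Infinite.ncard hV]; simp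

/-- abstract limsup argument -/
lemma limsup_eq_one (A : ℕ → Set ℝ) (h0 : ∀ n, ∀ t ∈ A n, 0 ≤ t) (h1 : ∀ n, ∀ t ∈ A n, t ≤ 1)
    (h2 : ∀ q : ℕ, 0 < q → ∀ N : ℕ, ∃ n, N ≤ n ∧ ∃ t ∈ A n, 1 - 1 / (q : ℝ) ≤ t) :
    limsup (fun n => sSup (A n)) atTop = 1 := by
  have hle : ∀ n, sSup (A n) ≤ 1 := by
    intro n
    rcases (A n).eq_empty_or_nonempty with h | h
    · rw [h, Real.sSup_empty]; norm_num
    · exact csSup_le h (h1 n)
  have hge : ∀ n, 0 ≤ sSup (A n) := fun n => Real.sSup_nonneg (h0 n)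
  have hbdd : IsBoundedUnder (· ≤ ·) atTop (fun n => sSup (A n)) :=
    isBoundedUnder_of ⟨1, hle⟩
  have hcobdd : IsCoboundedUnder (· ≤ ·) atTop (fun n => sSup (A n)) :=
    (isBoundedUnder_of (r := (· ≥ ·)) ⟨0, hge⟩).isCoboundedUnder_le
  apply le_antisymm
  · exact limsup_le_of_le hcobdd (Eventually.of_forall hle)
  · have key : ∀ q : ℕ, 0 < q → 1 - 1 / (q : ℝ) ≤ limsup (fun n => sSup (A n)) atTop := by
      intro q hq
      apply le_limsup_of_frequently_le _ hbdd
      rw [frequently_atTop]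
      intro N
      obtain ⟨n, hn, t, ht, htq⟩ := h2 q hq N
      exact ⟨n, hn, htq.trans (le_csSup ⟨1, fun y hy => h1 n y hy⟩ ht)⟩
    have hlim : Tendsto (fun q : ℕ => 1 - 1 / ((q : ℝ) + 1)) atTop (𝓝 (1 - 0)) :=
      tendsto_const_nhds.sub tendsto_one_div_add_atTop_nhds_zero_nat
    rw [sub_zero] at hlim
    apply le_of_tendsto' hlim
    intro q
    have := key (q + 1) (Nat.succ_pos q)
    push_cast at this
    exact this

theorem tauP_eq_one (d : ℕ) (hd : 4 ≤ d) : tauP d = 1 := by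
  unfold tauP
  apply limsup_eq_one
  · rintro n t ⟨Q, _, _, rfl⟩
    exact ratio_nonneg _ _
  · rintro n t ⟨Q, _, _, rfl⟩
    exact ratio_le_one _ _
  · intro q hq N
    obtain ⟨n, hn, W, hW⟩ := exists_cfg d hd q hq N
    exact ⟨n, hn, _, ⟨hull W, hW.simplicial, hW.ncard, rfl⟩, hW.ratio hq⟩

end Pool.Agent.Helper20.TGeom
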