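import Mathlib
import Pool.Agent.Helper20.TMain

set_option autoImplicit false
set_option linter.unusedSectionVars false
set_option linter.unusedVariables false

namespace Pool.Agent.Helper20.TGeom

open Finset Filter Topology Pool.Agent.Helper20.Transversal

variable {d n q : ℕ} {W : Fin n → EuclideanSpace ℝ (Fin d)}

/-- the boundary complex -/
def bdry (h : Cfg q W) : AbstractSimplicialComplex (Fin n) where
  faces := {s | s.Nonempty ∧ ∃ f : EuclideanSpace ℝ (Fin d) →L[ℝ] ℝ, f ≠ 0 ∧ ∃ c : ℝ,
    (∀ i, f (W i) ≤ c) ∧ ∀ i ∈ s, f (W i) = c}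
  isRelLowerSet_faces := by
    rintro s ⟨hs, f, hf, c, h1, h2⟩
    refine ⟨hs, ?_⟩
    intro t hts ht
    exact ⟨ht, f, hf, c, h1, fun i hi => h2 i (hts hi)⟩
  singleton_mem := by
    intro x
    obtain ⟨f, hf⟩ := h.vtx x
    refine ⟨singleton_nonempty x, f, ?_, f (W x), ?_, ?_⟩
    · rintro rfl
      have hn := h.hn
      have hd := h.hd
      obtain ⟨y, hy⟩ : ∃ y : Fin n, y ≠ x := by
        haveI : Nontrivial (Fin n) := Fin.nontrivial_iff_two_le.mpr (by omega)
        exact exists_ne x
      have := hf y hy
      simp at this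
    · intro i
      by_cases hi : i = x
      · rw [hi]
      · exact (hf i hi).le
    · intro i hi
      rw [mem_singleton.mp hi]

lemma mem_bdry (h : Cfg q W) (s : Finset (Fin n)) : s ∈ (bdry h).faces ↔
    s.Nonempty ∧ ∃ f : EuclideanSpace ℝ (Fin d) →L[ℝ] ℝ, f ≠ 0 ∧ ∃ c : ℝ,
    (∀ i, f (W i) ≤ c) ∧ ∀ i ∈ s, f (W i) = c := Iff.rfl

lemma realization_compact (K : AbstractSimplicialComplex (Fin n)) :
    IsCompact (realization K) := by
  have h1 : realization K = stdSimplex ℝ (Fin n) ∩
      ⋃ s ∈ K.faces, {x : Fin n → ℝ | ∀ i, x i ≠ 0 → i ∈ s} := by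
    ext x
    simp only [realization, stdSimplex, Set.mem_inter_iff, Set.mem_setOf_eq, Set.mem_iUnion,
      exists_prop]
    tauto
  rw [h1]
  apply (isCompact_stdSimplex ℝ (Fin n)).inter_right
  apply Set.Finite.isClosed_biUnion (Set.toFinite _)
  intro s _
  have h2 : {x : Fin n → ℝ | ∀ i, x i ≠ 0 → i ∈ s} =
      ⋂ i, ⋂ (_ : i ∉ s), {x : Fin n → ℝ | x i = 0} := by
    ext x
    simp only [Set.mem_setOf_eq, Set.mem_iInter]
    constructor
    · intro h i hi
      by_contra hne
      exact hi (h i hne)
    · intro h i hi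
      by_contra hne
      exact hi (h i hne)
  rw [h2]
  apply isClosed_iInter
  intro i
  apply isClosed_iInter
  intro _
  exact isClosed_eq (continuous_apply i) continuous_const

lemma hull_closed : IsClosed (hull W) := by
  unfold hull
  exact ((Set.finite_range W).isCompact_convexHull ℝ).isClosed

lemma hull_bounded : Bornology.IsBounded (hull W) := by
  unfold hull
  exact ((Set.finite_range W).isCompact_convexHull ℝ).isBounded

/-- points of the frontier -/
lemma mem_frontier_iff (h : Cfg q W) (p : EuclideanSpace ℝ (Fin d)) :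
    p ∈ frontier (hull W) ↔ p ∈ hull W ∧ ∃ f : EuclideanSpace ℝ (Fin d) →L[ℝ] ℝ, f ≠ 0 ∧
      ∀ i, f (W i) ≤ f p := by
  rw [hull_closed.frontier_eq]
  constructor
  · rintro ⟨hp, hpi⟩
    refine ⟨hp, ?_⟩
    have hconv : Convex ℝ (hull W) := convex_convexHull ℝ _
    obtain ⟨f, hf⟩ := geometric_hahn_banach_open_point hconv.interior isOpen_interior hpi
    refine ⟨f, ?_, ?_⟩
    · rintro rfl
      obtain ⟨a, ha⟩ := h.interior_ne
      have := hf a ha
      simp at this
    · intro i
      have h1 : W i ∈ closure (interior (hull W)) := by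
        rw [hconv.closure_interior_eq_closure_of_nonempty_interior h.interior_ne]
        exact subset_closure (subset_convexHull ℝ _ ⟨i, rfl⟩)
      have h2 : closure (interior (hull W)) ⊆ {x | f x ≤ f p} := by
        apply closure_minimal
        · intro a ha
          exact (hf a ha).le
        · exact isClosed_le f.continuous continuous_const
      exact h2 h1
  · rintro ⟨hp, f, hf0, hf⟩
    refine ⟨hp, ?_⟩
    intro hint
    obtain ⟨v, hv⟩ : ∃ v, f v ≠ 0 := by
      by_contra hcon
      push Not at hcon
      exact hf0 (by ext x; simpa using hcon x)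
    -- WLOG f v > 0
    obtain ⟨v, hv⟩ : ∃ v, 0 < f v := by
      rcases lt_or_gt_of_ne hv with h1 | h1
      · exact ⟨-v, by simpa using h1⟩
      · exact ⟨v, h1⟩
    have hcont : Tendsto (fun t : ℝ => p + t • v) (𝓝 0) (𝓝 (p + (0 : ℝ) • v)) := by
      apply Continuous.tendsto
      fun_prop
    rw [zero_smul, add_zero] at hcont
    have hev := hcont (mem_interior_iff_mem_nhds.mp hint)
    obtain ⟨ε, hε, hball⟩ := Metric.mem_nhds_iff.mp hev
    have h3 : p + (ε / 2) • v ∈ hull W := by
      have : (ε / 2) ∈ Metric.ball (0 : ℝ) ε := by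
        rw [Metric.mem_ball, Real.dist_eq, sub_zero, abs_of_pos (by positivity)]
        linarith
      exact hball this
    have h4 := hull_le W f (f p) hf _ h3
    rw [map_add, map_smul, smul_eq_mul] at h4
    have : 0 < ε / 2 * f v := by positivity
    linarith

lemma sphere_homeo (h : Cfg q W) : IsSimplicialSphere d (bdry h) := by
  classical
  -- the barycentric map
  let φ : realization (bdry h) → EuclideanSpace ℝ (Fin d) := fun x => ∑ i, x.1 i • W i
  have hcont : Continuous φ := by
    apply continuous_finsetSum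
    intro i _
    exact ((continuous_apply i).comp continuous_subtype_val).smul continuous_const
  have hinj : Function.Injective φ := by
    rintro ⟨x, hx0, hx1, s, hs, hxs⟩ ⟨y, hy0, hy1, t, ht, hyt⟩ hxy
    simp only [φ] at hxy
    obtain ⟨_, f, hf, c, hf1, hf2⟩ := hs
    have hfx : f (∑ i, x i • W i) = c := by
      rw [map_sum]
      calc ∑ i, f (x i • W i) = ∑ i, x i * c := by
            apply sum_congr rfl
            intro i _
            rw [map_smul, smul_eq_mul]
            by_cases hi : x i = 0
            · rw [hi]; ring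
            · rw [hf2 i (hxs i hi)]
        _ = c := by rw [← sum_mul, hx1, one_mul]
    have hsx := support_max W f c hf1 x hx0 hx1 hfx
    have hsy := support_max W f c hf1 y hy0 hy1 (by rw [← hxy]; exact hfx)
    set u : Finset (Fin n) := univ.filter (fun i => f (W i) = c) with hu
    have hind := indep_of_hyperplane W h.gp f hf c u (fun i hi => (mem_filter.mp hi).2)
    -- difference
    have hsum0 : ∑ i : u, (x i - y i) = 0 := by
      rw [sum_coe_sort u (fun i => x i - y i)]
      have h1 : ∑ i ∈ u, (x i - y i) = ∑ i, (x i - y i) := by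
        apply sum_subset (subset_univ _)
        intro i _ hi
        have hx' : x i = 0 := by
          by_contra hne
          exact hi (mem_filter.mpr ⟨mem_univ _, hsx i hne⟩)
        have hy' : y i = 0 := by
          by_contra hne
          exact hi (mem_filter.mpr ⟨mem_univ _, hsy i hne⟩)
        rw [hx', hy', sub_zero]
      rw [h1, sum_sub_distrib, hx1, hy1, sub_self]
    have hvec0 : ∑ i : u, (x i - y i) • W i = 0 := by
      rw [sum_coe_sort u (fun i => (x i - y i) • W i)]
      have h1 : ∑ i ∈ u, (x i - y i) • W i = ∑ i, (x i - y i) • W i := by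
        apply sum_subset (subset_univ _)
        intro i _ hi
        have hx' : x i = 0 := by
          by_contra hne
          exact hi (mem_filter.mpr ⟨mem_univ _, hsx i hne⟩)
        have hy' : y i = 0 := by
          by_contra hne
          exact hi (mem_filter.mpr ⟨mem_univ _, hsy i hne⟩)
        rw [hx', hy', sub_zero, zero_smul]
      rw [h1]
      simp only [sub_smul, sum_sub_distrib]
      rw [hxy, sub_self]
    have hzero := (affineIndependent_iff (ι := u) (k := ℝ) (p := fun i : u => W i)).mp hind univ
      (fun i => x i - y i) hsum0 hvec0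
    ext i
    by_cases hi : i ∈ u
    · have := hzero ⟨i, hi⟩ (mem_univ _)
      simp only at this
      linarith
    · have hx' : x i = 0 := by
        by_contra hne
        exact hi (mem_filter.mpr ⟨mem_univ _, hsx i hne⟩)
      have hy' : y i = 0 := by
        by_contra hne
        exact hi (mem_filter.mpr ⟨mem_univ _, hsy i hne⟩)
      simp only
      rw [hx', hy']
  have hrange : Set.range φ = frontier (hull W) := by
    apply Set.Subset.antisymm
    · rintro _ ⟨⟨x, hx0, hx1, s, hs, hxs⟩, rfl⟩
      rw [mem_frontier_iff h]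
      refine ⟨(mem_hull_iff W _).mpr ⟨x, hx0, hx1, rfl⟩, ?_⟩
      obtain ⟨_, f, hf, c, hf1, hf2⟩ := hs
      refine ⟨f, hf, ?_⟩
      have hfx : f (∑ i, x i • W i) = c := by
        rw [map_sum]
        calc ∑ i, f (x i • W i) = ∑ i, x i * c := by
              apply sum_congr rfl
              intro i _
              rw [map_smul, smul_eq_mul]
              by_cases hi : x i = 0
              · rw [hi]; ring
              · rw [hf2 i (hxs i hi)]
          _ = c := by rw [← sum_mul, hx1, one_mul]
      intro i
      simp only [φ]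
      rw [hfx]
      exact hf1 i
    · intro p hp
      rw [mem_frontier_iff h] at hp
      obtain ⟨hp, f, hf0, hf⟩ := hp
      obtain ⟨x, hx0, hx1, hxp⟩ := (mem_hull_iff W p).mp hp
      have hsupp := support_max W f (f p) hf x hx0 hx1 (by rw [hxp])
      refine ⟨⟨x, hx0, hx1, univ.filter (fun i => x i ≠ 0), ?_, ?_⟩, hxp⟩
      · refine ⟨?_, f, hf0, f p, hf, ?_⟩
        · by_contra hcon
          rw [not_nonempty_iff_eq_empty, filter_eq_empty_iff] at hcon
          have : ∑ i, x i = 0 := by
            apply sum_eq_zero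
            intro i _
            have := hcon (mem_univ i)
            simpa using this
          rw [hx1] at this
          norm_num at this
        · intro i hi
          exact hsupp i (mem_filter.mp hi).2
      · intro i hi
        exact mem_filter.mpr ⟨mem_univ _, hi⟩
  haveI : CompactSpace (realization (bdry h)) :=
    isCompact_iff_compactSpace.mp (realization_compact _)
  have hemb := (hcont.isClosedEmbedding hinj).isEmbedding
  obtain ⟨g, _, _, hg⟩ := exists_homeomorph_image_interior_closure_frontier_eq_unitBall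
    (convex_convexHull ℝ (Set.range W)) h.interior_ne (hull_bounded (W := W))
  refine ⟨hemb.toHomeomorph.trans ((Homeomorph.setCongr hrange).trans
    ((g.image (frontier (hull W))).trans (Homeomorph.setCongr hg)))⟩

lemma Cfg.ratioS (h : Cfg q W) (hq : 0 < q) :
    1 - 1 / (q : ℝ) ≤ transversalRatio (Set.univ : Set (Fin n)) (facets (bdry h)) := by
  classical
  have hn0 : 0 < n := by have := h.hn; omega
  have hne : {k : ℕ | ∃ X : Finset (Fin n), (X : Set (Fin n)) ⊆ Set.univ ∧ X.card = k ∧
      ∀ F ∈ facets (bdry h), ∃ x ∈ X, x ∈ F}.Nonempty := by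
    refine ⟨_, univ, Set.subset_univ _, rfl, ?_⟩
    rintro F ⟨s, hs, rfl⟩
    obtain ⟨i, hi⟩ := (hs.prop).1
    exact ⟨i, mem_univ _, mem_coe.mpr hi⟩
  obtain ⟨X, _, hXcard, hX⟩ := Nat.sInf_mem hne
  unfold transversalRatio
  have hT : transversalNumber (Set.univ : Set (Fin n)) (facets (bdry h)) = X.card := by
    rw [hXcard]; rfl
  rw [hT, Set.ncard_univ, Nat.card_fin]
  have hcard : (Xᶜ : Finset (Fin n)).card + X.card = n := by
    rw [card_compl, Fintype.card_fin]
    have : X.card ≤ n := by
      calc X.card ≤ (univ : Finset (Fin n)).card := card_le_card (subset_univ _)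
        _ = n := by simp
    omega
  have hlt : q * (Xᶜ : Finset (Fin n)).card < n := by
    by_contra hcon
    push Not at hcon
    obtain ⟨p, hpS, hpinj, f, c, h1, h2⟩ := h.fac Xᶜ hcon
    have hscard : (univ.image p).card = d := by
      rw [card_image_of_injective _ hpinj]; simp
    have hle : ∀ i, f (W i) ≤ c := by
      intro i
      by_cases hi : ∃ j, i = p j
      · obtain ⟨j, rfl⟩ := hi
        rw [h1]
      · push Not at hi
        exact (h2 i hi).le
    have hf0 : f ≠ 0 := by
      rintro rfl
      obtain ⟨i, hi⟩ : ∃ i : Fin n, i ∉ univ.image p := by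
        by_contra hcon2
        push Not at hcon2
        have : (univ : Finset (Fin n)).card ≤ (univ.image p).card :=
          card_le_card (fun i _ => hcon2 i)
        rw [hscard, card_univ, Fintype.card_fin] at this
        have := h.hn
        omega
      have h3 := h2 i (by
        rintro j rfl
        exact hi (mem_image_of_mem _ (mem_univ _)))
      have h4 := h1 ⟨0, h.hd⟩
      simp only [ContinuousLinearMap.zero_apply] at h3 h4
      linarith
    have hmem : univ.image p ∈ (bdry h).faces := by
      refine ⟨?_, f, hf0, c, hle, ?_⟩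
      · exact ⟨p ⟨0, h.hd⟩, mem_image_of_mem _ (mem_univ _)⟩
      · intro i hi
        obtain ⟨j, _, rfl⟩ := mem_image.mp hi
        exact h1 j
    have hfacet : ((univ.image p : Finset (Fin n)) : Set (Fin n)) ∈ facets (bdry h) := by
      refine ⟨univ.image p, ⟨hmem, ?_⟩, rfl⟩
      rintro t ⟨_, g, hg0, c', _, hg⟩ hst
      have h5 := card_hyperplane W h.gp g hg0 c' t hg
      have h6 := eq_of_subset_of_card_le hst (by rw [hscard]; exact h5)
      rw [h6]
    obtain ⟨x, hxX, hxF⟩ := hX _ hfacet
    obtain ⟨j, _, rfl⟩ := mem_image.mp (mem_coe.mp hxF)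
    exact (mem_compl.mp (hpS j)) hxX
  have hnR : (0 : ℝ) < n := by exact_mod_cast hn0
  have hqR : (0 : ℝ) < q := by exact_mod_cast hq
  have h6 : (q : ℝ) * (Xᶜ : Finset (Fin n)).card < n := by exact_mod_cast hlt
  have h7 : ((Xᶜ : Finset (Fin n)).card : ℝ) + X.card = n := by exact_mod_cast hcard
  rw [le_div_iff₀ hnR]
  have h8 : ((Xᶜ : Finset (Fin n)).card : ℝ) < n / q := by
    rw [lt_div_iff₀ hqR]; linarith
  have h9 : (1 - 1 / (q : ℝ)) * n = n - n / q := by ring
  rw [h9]
  linarith

theorem tauS_eq_one (d : ℕ) (hd : 4 ≤ d) : tauS d = 1 := by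
  unfold tauS
  apply limsup_eq_one
  · rintro n t ⟨Q, _, rfl⟩
    exact ratio_nonneg _ _
  · rintro n t ⟨Q, _, rfl⟩
    exact ratio_le_one _ _
  · intro q hq N
    obtain ⟨n, hn, W, hW⟩ := exists_cfg d hd q hq N
    exact ⟨n, hn, _, ⟨bdry hW, sphere_homeo hW, rfl⟩, hW.ratioS hq⟩

theorem main : (∀ d : ℕ, 4 ≤ d → tauP d = 1 ∧ tauS d = 1) ∧
    Tendsto tauP atTop (𝓝 1) ∧ Tendsto tauS atTop (𝓝 1) := by
  refine ⟨fun d hd => ⟨tauP_eq_one d hd, tauS_eq_one d hd⟩, ?_, ?_⟩
  · apply tendsto_const_nhds.congr'
    filter_upwards [eventually_ge_atTop 4] with d hd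
    exact (tauP_eq_one d hd).symm
  · apply tendsto_const_nhds.congr'
    filter_upwards [eventually_ge_atTop 4] with d hd
    exact (tauS_eq_one d hd).symm

end Pool.Agent.Helper20.TGeom
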